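import Mathlib

/-!
Inequalities for powers.
-/

namespace Pool.Agent.H532.SR

open Finset

lemma mix1 {u v : ℝ} (hu : 0 ≤ u) (hv : 0 ≤ v) (n : ℕ) :
    u * v ^ (n + 2) ≤ u ^ (n + 1) * v ^ 2 + v ^ (n + 3) := by
  rcases le_total u v with h | h
  · have h1 : u * v ^ (n + 2) ≤ v * v ^ (n + 2) := by gcongr
    have h2 : v * v ^ (n + 2) = v ^ (n + 3) := by ring
    have h3 : 0 ≤ u ^ (n + 1) * v ^ 2 := by positivity
    linarith
  · have h1 : u * v ^ (n + 2) = u * v ^ n * v ^ 2 := by ring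
    have h2 : u * v ^ n * v ^ 2 ≤ u * u ^ n * v ^ 2 := by gcongr
    have h3 : u * u ^ n * v ^ 2 = u ^ (n + 1) * v ^ 2 := by ring
    have h4 : 0 ≤ v ^ (n + 3) := by positivity
    linarith

lemma mix2 {u v : ℝ} (hu : 0 ≤ u) (hv : 0 ≤ v) (n : ℕ) :
    u ^ n * v ^ 3 ≤ u ^ (n + 1) * v ^ 2 + v ^ (n + 3) := by
  rcases le_total u v with h | h
  · have h1 : u ^ n * v ^ 3 ≤ v ^ n * v ^ 3 := by gcongr
    have h2 : v ^ n * v ^ 3 = v ^ (n + 3) := by ring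
    have h3 : 0 ≤ u ^ (n + 1) * v ^ 2 := by positivity
    linarith
  · have h1 : u ^ n * v ^ 3 = u ^ n * v * v ^ 2 := by ring
    have h2 : u ^ n * v * v ^ 2 ≤ u ^ n * u * v ^ 2 := by gcongr
    have h3 : u ^ n * u * v ^ 2 = u ^ (n + 1) * v ^ 2 := by ring
    have h4 : 0 ≤ v ^ (n + 3) := by positivity
    linarith

/-- the second order expansion of a power -/
lemma pow_expand (n : ℕ) : ∃ c : ℝ, 1 ≤ c ∧ ∀ x y : ℝ,
    |(x + y) ^ (n + 2) - x ^ (n + 2) - (n + 2) * x ^ (n + 1) * y| ≤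
      c * (|x| ^ n * |y| ^ 2 + |y| ^ (n + 2)) := by
  induction n with
  | zero =>
    refine ⟨1, le_rfl, fun x y => ?_⟩
    have e : (x + y) ^ (0 + 2) - x ^ (0 + 2) - ((0 : ℕ) + 2 : ℝ) * x ^ (0 + 1) * y = y ^ 2 := by
      push_cast; ring
    rw [e]
    rw [abs_pow]
    have : 0 ≤ |y| ^ 2 := by positivity
    simp only [pow_zero, one_mul, zero_add]
    linarith
  | succ n ih =>
    obtain ⟨c, hc, h⟩ := ih
    refine ⟨n + 2 + 3 * c, by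
      have : (0 : ℝ) ≤ n := Nat.cast_nonneg n
      linarith, fun x y => ?_⟩
    have h1 := h x y
    set R := (x + y) ^ (n + 2) - x ^ (n + 2) - (n + 2) * x ^ (n + 1) * y with hR
    have e : (x + y) ^ (n + 1 + 2) - x ^ (n + 1 + 2) - (((n + 1 : ℕ) : ℝ) + 2) * x ^ (n + 1 + 1) * y =
        (n + 2) * x ^ (n + 1) * y ^ 2 + (x + y) * R := by
      rw [hR]; push_cast; ring
    rw [e]
    set u := |x| with hu
    set v := |y| with hv
    have hu0 : 0 ≤ u := abs_nonneg x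
    have hv0 : 0 ≤ v := abs_nonneg y
    have hn : (0 : ℝ) ≤ n := Nat.cast_nonneg n
    have h2 : |(n + 2 : ℝ) * x ^ (n + 1) * y ^ 2| = (n + 2) * u ^ (n + 1) * v ^ 2 := by
      rw [abs_mul, abs_mul, abs_pow, abs_pow, abs_of_nonneg (by linarith : (0 : ℝ) ≤ n + 2)]
    have h3 : |(x + y) * R| ≤ (u + v) * (c * (u ^ n * v ^ 2 + v ^ (n + 2))) := by
      rw [abs_mul]
      have := abs_add_le x y
      gcongr
    have h4 := mix1 hu0 hv0 n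
    have h5 := mix2 hu0 hv0 n
    have h6 : (u + v) * (c * (u ^ n * v ^ 2 + v ^ (n + 2))) =
        c * (u ^ (n + 1) * v ^ 2 + u * v ^ (n + 2) + u ^ n * v ^ 3 + v ^ (n + 3)) := by ring
    have h7 : c * (u ^ (n + 1) * v ^ 2 + u * v ^ (n + 2) + u ^ n * v ^ 3 + v ^ (n + 3)) ≤
        c * (3 * (u ^ (n + 1) * v ^ 2 + v ^ (n + 3))) := by
      gcongr
      linarith
    have h8 : 0 ≤ u ^ (n + 1) * v ^ 2 := by positivity
    have h9 : 0 ≤ v ^ (n + 3) := by positivity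
    have e2 : n + 1 + 2 = n + 3 := rfl
    rw [e2]
    calc |(n + 2 : ℝ) * x ^ (n + 1) * y ^ 2 + (x + y) * R| ≤
        |(n + 2 : ℝ) * x ^ (n + 1) * y ^ 2| + |(x + y) * R| := abs_add_le _ _
      _ ≤ (n + 2) * u ^ (n + 1) * v ^ 2 + c * (3 * (u ^ (n + 1) * v ^ 2 + v ^ (n + 3))) := by
          rw [h2]; linarith
      _ ≤ (n + 2 + 3 * c) * (u ^ (n + 1) * v ^ 2 + v ^ (n + 3)) := by nlinarith

/-- even powers, an average with mean zero -/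
lemma avg_pow (k : ℕ) : ∃ c : ℝ, 1 ≤ c ∧ ∀ (q : ℕ) (x : ℝ) (y : ℕ → ℝ), 0 < q →
    ∑ r ∈ range q, y r = 0 →
    (1 / (q : ℝ)) * ∑ r ∈ range q, (x + y r) ^ (2 * k + 2) ≤ x ^ (2 * k + 2) +
      c * (x ^ (2 * k) * ((1 / (q : ℝ)) * ∑ r ∈ range q, y r ^ 2) +
        (1 / (q : ℝ)) * ∑ r ∈ range q, y r ^ (2 * k + 2)) := by
  obtain ⟨c, hc, h⟩ := pow_expand (2 * k)
  refine ⟨c, hc, fun q x y hq hy => ?_⟩
  have hq0 : (0 : ℝ) < q := by exact_mod_cast hq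
  have hev : ∀ t : ℝ, |t| ^ (2 * k) = t ^ (2 * k) := fun t => by
    rw [pow_mul, pow_mul, sq_abs]
  have hev2 : ∀ t : ℝ, |t| ^ (2 * k + 2) = t ^ (2 * k + 2) := fun t => by
    rw [pow_add, pow_add, hev, sq_abs]
  have h1 : ∀ r, (x + y r) ^ (2 * k + 2) ≤ x ^ (2 * k + 2) +
      ((2 * k : ℕ) + 2 : ℝ) * x ^ (2 * k + 1) * y r +
      c * (x ^ (2 * k) * y r ^ 2 + y r ^ (2 * k + 2)) := by
    intro r
    have h2 := (abs_le.1 (h x (y r))).2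
    rw [hev, hev2, sq_abs] at h2
    linarith
  have h2 : ∑ r ∈ range q, (x + y r) ^ (2 * k + 2) ≤ q * x ^ (2 * k + 2) +
      c * (x ^ (2 * k) * ∑ r ∈ range q, y r ^ 2 + ∑ r ∈ range q, y r ^ (2 * k + 2)) := by
    refine (sum_le_sum fun r _ => h1 r).trans (le_of_eq ?_)
    rw [sum_add_distrib, sum_add_distrib, sum_const, card_range, nsmul_eq_mul, ← mul_sum, hy,
      ← mul_sum, sum_add_distrib, ← mul_sum]
    ring
  calc (1 / (q : ℝ)) * ∑ r ∈ range q, (x + y r) ^ (2 * k + 2) ≤ (1 / (q : ℝ)) *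
      (q * x ^ (2 * k + 2) +
      c * (x ^ (2 * k) * ∑ r ∈ range q, y r ^ 2 + ∑ r ∈ range q, y r ^ (2 * k + 2))) := by gcongr
    _ = _ := by field_simp

/-- Young's inequality, large moduli -/
lemma young1 (k : ℕ) {x y q : ℝ} (hq : 0 < q) :
    x ^ (2 * k) * y ^ 2 ≤ x ^ (2 * k + 2) / q + q ^ k * y ^ (2 * k + 2) := by
  have hx : 0 ≤ x ^ 2 := sq_nonneg x
  have hy : 0 ≤ y ^ 2 := sq_nonneg y
  have e1 : x ^ (2 * k) = (x ^ 2) ^ k := by rw [pow_mul]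
  have e2 : x ^ (2 * k + 2) = (x ^ 2) ^ k * x ^ 2 := by rw [pow_add, pow_mul]
  have e3 : y ^ (2 * k + 2) = (y ^ 2) ^ k * y ^ 2 := by rw [pow_add, pow_mul]
  rw [e1, e2, e3]
  rcases le_total (q * y ^ 2) (x ^ 2) with h | h
  · have h1 : y ^ 2 ≤ x ^ 2 / q := by rw [le_div_iff₀ hq]; linarith
    have h2 : (x ^ 2) ^ k * y ^ 2 ≤ (x ^ 2) ^ k * (x ^ 2 / q) := by gcongr
    have h3 : 0 ≤ q ^ k * ((y ^ 2) ^ k * y ^ 2) := by positivity
    have h4 : (x ^ 2) ^ k * (x ^ 2 / q) = (x ^ 2) ^ k * x ^ 2 / q := by ring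
    linarith
  · have h2 : (x ^ 2) ^ k * y ^ 2 ≤ (q * y ^ 2) ^ k * y ^ 2 := by gcongr
    have h3 : (q * y ^ 2) ^ k * y ^ 2 = q ^ k * ((y ^ 2) ^ k * y ^ 2) := by rw [mul_pow]; ring
    have h4 : 0 ≤ (x ^ 2) ^ k * x ^ 2 / q := by positivity
    linarith

/-- Young's inequality, small moduli -/
lemma young2 (k : ℕ) {x M : ℝ} (hM : 0 < M) : x ^ (2 * k) ≤ x ^ (2 * k + 2) / M + M ^ k := by
  have hx : 0 ≤ x ^ 2 := sq_nonneg x
  have e1 : x ^ (2 * k) = (x ^ 2) ^ k := by rw [pow_mul]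
  have e2 : x ^ (2 * k + 2) = (x ^ 2) ^ k * x ^ 2 := by rw [pow_add, pow_mul]
  rw [e1, e2]
  rcases le_total M (x ^ 2) with h | h
  · have h1 : (x ^ 2) ^ k * 1 ≤ (x ^ 2) ^ k * (x ^ 2 / M) := by
      have : 1 ≤ x ^ 2 / M := by rw [le_div_iff₀ hM]; linarith
      gcongr
    have h3 : 0 ≤ M ^ k := by positivity
    have h4 : (x ^ 2) ^ k * (x ^ 2 / M) = (x ^ 2) ^ k * x ^ 2 / M := by ring
    linarith
  · have h1 : (x ^ 2) ^ k ≤ M ^ k := by gcongr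
    have h3 : 0 ≤ (x ^ 2) ^ k * x ^ 2 / M := by positivity
    linarith

/-- power means -/
lemma sum_pow_le {ι : Type} (s : Finset ι) (f : ι → ℝ) (hf : ∀ i ∈ s, 0 ≤ f i) (n : ℕ) (L : ℝ)
    (hL : (s.card : ℝ) ≤ L) : (∑ i ∈ s, f i) ^ (n + 1) ≤ L ^ n * ∑ i ∈ s, f i ^ (n + 1) := by
  rcases s.eq_empty_or_nonempty with rfl | hne
  · simp
  have hc : (0 : ℝ) < s.card := by exact_mod_cast card_pos.2 hne
  have h1 := pow_sum_div_card_le_sum_pow (s := s) (f := f) hf n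
  rw [div_le_iff₀ (by positivity)] at h1
  have h2 : 0 ≤ ∑ i ∈ s, f i ^ (n + 1) := sum_nonneg fun i hi => by
    have := hf i hi
    positivity
  calc (∑ i ∈ s, f i) ^ (n + 1) ≤ (∑ i ∈ s, f i ^ (n + 1)) * (s.card : ℝ) ^ n := h1
    _ ≤ (∑ i ∈ s, f i ^ (n + 1)) * L ^ n := by gcongr
    _ = _ := mul_comm _ _

end Pool.Agent.H532.SR
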