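import Mathlib
import Pool.Agent.H532.RM.Tail

/-!
Iterated averages over residue classes.
-/

namespace Pool.Agent.H532.SR

open Finset Function MeasureTheory Pool.Agent.H532.RM
open scoped ENNReal

/-- iterated averages -/
noncomputable def Ev : List ℕ → ((ℕ → ℕ) → ℝ) → (ℕ → ℕ) → ℝ
  | [], f, x => f x
  | q :: l, f, x => (1 / (q : ℝ)) * ∑ r ∈ range q, Ev l f (update x q r)

lemma Ev_nil (f : (ℕ → ℕ) → ℝ) (x : ℕ → ℕ) : Ev [] f x = f x := rfl

lemma Ev_cons (q : ℕ) (l : List ℕ) (f : (ℕ → ℕ) → ℝ) (x : ℕ → ℕ) :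
    Ev (q :: l) f x = (1 / (q : ℝ)) * ∑ r ∈ range q, Ev l f (update x q r) := rfl

lemma Ev_mono (l : List ℕ) {f g : (ℕ → ℕ) → ℝ} (h : ∀ a, f a ≤ g a) (x : ℕ → ℕ) :
    Ev l f x ≤ Ev l g x := by
  induction l generalizing x with
  | nil => exact h x
  | cons q l ih =>
    rw [Ev_cons, Ev_cons]
    have : ∑ r ∈ range q, Ev l f (update x q r) ≤ ∑ r ∈ range q, Ev l g (update x q r) :=
      sum_le_sum fun r _ => ih _
    gcongr

lemma Ev_add (l : List ℕ) (f g : (ℕ → ℕ) → ℝ) (x : ℕ → ℕ) :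
    Ev l (fun a => f a + g a) x = Ev l f x + Ev l g x := by
  induction l generalizing x with
  | nil => rfl
  | cons q l ih =>
    rw [Ev_cons, Ev_cons, Ev_cons, ← mul_add, ← sum_add_distrib]
    congr 1
    exact sum_congr rfl fun r _ => ih _

lemma Ev_mul (l : List ℕ) (c : ℝ) (f : (ℕ → ℕ) → ℝ) (x : ℕ → ℕ) :
    Ev l (fun a => c * f a) x = c * Ev l f x := by
  induction l generalizing x with
  | nil => rfl
  | cons q l ih =>
    rw [Ev_cons, Ev_cons]
    have : ∑ r ∈ range q, Ev l (fun a => c * f a) (update x q r) =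
        c * ∑ r ∈ range q, Ev l f (update x q r) := by
      rw [mul_sum]; exact sum_congr rfl fun r _ => ih _
    rw [this]; ring

lemma Ev_const (l : List ℕ) (hl : ∀ q ∈ l, 0 < q) (c : ℝ) (x : ℕ → ℕ) :
    Ev l (fun _ => c) x = c := by
  induction l generalizing x with
  | nil => rfl
  | cons q l ih =>
    have hq : (0 : ℝ) < q := by exact_mod_cast hl q (by simp)
    rw [Ev_cons, sum_congr rfl fun r _ => ih (fun q hq => hl q (by simp [hq])) _, sum_const,
      card_range, nsmul_eq_mul]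
    field_simp

lemma Ev_sum {ι : Type} (l : List ℕ) (s : Finset ι) (f : ι → (ℕ → ℕ) → ℝ) (x : ℕ → ℕ) :
    Ev l (fun a => ∑ i ∈ s, f i a) x = ∑ i ∈ s, Ev l (f i) x := by
  induction l generalizing x with
  | nil => rfl
  | cons q l ih =>
    rw [Ev_cons]
    have : ∑ r ∈ range q, Ev l (fun a => ∑ i ∈ s, f i a) (update x q r) =
        ∑ i ∈ s, ∑ r ∈ range q, Ev l (f i) (update x q r) := by
      rw [sum_comm]; exact sum_congr rfl fun r _ => ih _
    rw [this, mul_sum]
    exact sum_congr rfl fun i _ => (Ev_cons _ _ _ _).symm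

lemma Ev_nonneg (l : List ℕ) {f : (ℕ → ℕ) → ℝ} (h : ∀ a, 0 ≤ f a) (x : ℕ → ℕ) : 0 ≤ Ev l f x := by
  induction l generalizing x with
  | nil => exact h x
  | cons q l ih =>
    rw [Ev_cons]
    have : 0 ≤ ∑ r ∈ range q, Ev l f (update x q r) := sum_nonneg fun r _ => ih _
    positivity

lemma Ev_update (q r : ℕ) (l : List ℕ) (hq : q ∉ l) (f : (ℕ → ℕ) → ℝ) (x : ℕ → ℕ) :
    Ev l f (update x q r) = Ev l (fun a => f (update a q r)) x := by
  induction l generalizing x with
  | nil => rfl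
  | cons p l ih =>
    have hne : q ≠ p := fun h => hq (by simp [h])
    have hq' : q ∉ l := fun h => hq (by simp [h])
    rw [Ev_cons, Ev_cons]
    congr 1
    refine sum_congr rfl fun s _ => ?_
    rw [update_comm hne, ih hq']

/-- the innermost average -/
lemma Ev_swap (q : ℕ) (l : List ℕ) (hq : q ∉ l) (f : (ℕ → ℕ) → ℝ) (x : ℕ → ℕ) :
    Ev (q :: l) f x = Ev l (fun a => (1 / (q : ℝ)) * ∑ r ∈ range q, f (update a q r)) x := by
  rw [Ev_mul, Ev_sum, Ev_cons]
  congr 1
  exact sum_congr rfl fun r _ => Ev_update q r l hq f x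

/-- the connection with the measures -/
lemma lm_Ev (ν : ℕ → Measure ℕ) [∀ p, IsProbabilityMeasure (ν p)] (l : List ℕ) (hl : l.Nodup)
    (hν : ∀ p ∈ l, UnifOn (ν p) p) (hpos : ∀ p ∈ l, 0 < p) (f : (ℕ → ℕ) → ℝ) (hf : ∀ a, 0 ≤ f a)
    (s : Finset ℕ) (hd : DepOn s f) (x : ℕ → ℕ) :
    lmarginal ν l.toFinset (fun a => ENNReal.ofReal (f a)) x = ENNReal.ofReal (Ev l f x) := by
  have hmeas : Measurable (fun a => ENNReal.ofReal (f a)) := by
    refine DepOn.measurable (s := s) ?_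
    intro a b hab
    simp only
    rw [hd a b hab]
  induction l generalizing x with
  | nil => simp [Ev_nil]
  | cons q l ih =>
    have hql : q ∉ l := (List.nodup_cons.1 hl).1
    have hqs : q ∉ l.toFinset := by simpa using hql
    have hq0 : 0 < q := hpos q (by simp)
    have hq0' : (0 : ℝ) < q := by exact_mod_cast hq0
    rw [List.toFinset_cons, lmarginal_insert _ hmeas hqs, hν q (by simp), Ev_cons]
    have h1 : ∀ r, lmarginal ν l.toFinset (fun a => ENNReal.ofReal (f a)) (update x q r) =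
        ENNReal.ofReal (Ev l f (update x q r)) := fun r =>
      ih (List.nodup_cons.1 hl).2 (fun p hp => hν p (by simp [hp])) (fun p hp => hpos p (by simp [hp])) _
    simp only [h1]
    rw [← ENNReal.ofReal_sum_of_nonneg fun r _ => Ev_nonneg l hf _, one_div, inv_mul_eq_div,
      ENNReal.ofReal_div_of_pos hq0', ENNReal.ofReal_natCast]

end Pool.Agent.H532.SR
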