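import Mathlib
import Pool.Agent.H532.SR.Alg
import Pool.Agent.H532.SR.Ev
import Pool.Agent.H532.UT.Cls
import Pool.Agent.H532.UN.Bonf

/-!
The moments of the number of survivors in progressions.
-/

namespace Pool.Agent.H532.SR

open Finset Function Pool.Agent.H532.RM
open Pool.Agent.H532.UT (nu nu_le nu_le_self OmD_card' NgH mem_NgH card_NgH NgH_subset)
open Pool.Agent.H532.UN (nt nt_iff nt_le le_nt)

/-- the active shifts -/
def act (τ : ℕ → ℕ) (H : Finset ℕ) (q n : ℕ) : Finset ℕ := H.filter (fun i => τ q ≤ n + i)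

lemma act_sub (τ : ℕ → ℕ) (H : Finset ℕ) (q n : ℕ) : act τ H q n ⊆ H := filter_subset _ _

lemma act_mono (τ : ℕ → ℕ) (H : Finset ℕ) (q : ℕ) {n n' : ℕ} (h : n ≤ n') :
    act τ H q n ⊆ act τ H q n' := by
  intro i hi
  obtain ⟨h1, h2⟩ := mem_filter.1 hi
  exact mem_filter.2 ⟨h1, by omega⟩

open Classical in
/-- the factor of the prime `q` -/
noncomputable def phi (τ : ℕ → ℕ) (H : Finset ℕ) (q n r : ℕ) : ℝ :=
  if ∃ i ∈ act τ H q n, (n + i) % q = r then 0 else 1 / (1 - (nu (act τ H q n) q : ℝ) / q)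

/-- the normalised indicator function -/
noncomputable def XX (τ : ℕ → ℕ) (H : Finset ℕ) (l : List ℕ) (a : ℕ → ℕ) (n : ℕ) : ℝ :=
  (l.map (fun q => phi τ H q n (a q))).prod

/-- the deviation -/
noncomputable def dev (τ : ℕ → ℕ) (H : Finset ℕ) (l : List ℕ) (a : ℕ → ℕ) (b D U : ℕ) : ℝ :=
  ∑ t ∈ range U, (XX τ H l a (b + D * t) - 1)

/-- the maximal weight -/
noncomputable def Tl (K : ℕ) (l : List ℕ) : ℝ := (l.map (fun q : ℕ => 1 / (1 - (K : ℝ) / q))).prod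

lemma nu_half {K q : ℕ} {S : Finset ℕ} (hK : 1 ≤ K) (hS : S.card ≤ K) (hq : 2 * K ≤ q) :
    0 ≤ (nu S q : ℝ) / q ∧ (nu S q : ℝ) / q ≤ (K : ℝ) / q ∧ (K : ℝ) / q ≤ 1 / 2 := by
  have hq0 : (0 : ℝ) < q := by
    have : 0 < q := by omega
    exact_mod_cast this
  have h1 : (nu S q : ℝ) ≤ K := by exact_mod_cast (nu_le S q).trans hS
  have h2 : (2 * K : ℝ) ≤ q := by exact_mod_cast hq
  refine ⟨by positivity, by gcongr, ?_⟩
  rw [div_le_iff₀ hq0]
  linarith

section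
variable {K : ℕ} (hK : 1 ≤ K) (τ : ℕ → ℕ) {H : Finset ℕ} (hH : H.card ≤ K)
include hK hH

omit hK in
lemma act_card (q n : ℕ) : (act τ H q n).card ≤ K := (card_le_card (act_sub τ H q n)).trans hH

omit hK in
lemma phi_nonneg (hK : 1 ≤ K) {q : ℕ} (hq : 2 * K ≤ q) (n r : ℕ) : 0 ≤ phi τ H q n r := by
  obtain ⟨h1, h2, h3⟩ := nu_half hK (act_card τ hH q n) hq
  unfold phi
  split_ifs
  · exact le_rfl
  · have : 0 < 1 - (nu (act τ H q n) q : ℝ) / q := by linarith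
    positivity

lemma phi_le {q : ℕ} (hq : 2 * K ≤ q) (n r : ℕ) : phi τ H q n r ≤ 1 / (1 - (K : ℝ) / q) := by
  obtain ⟨h1, h2, h3⟩ := nu_half hK (act_card τ hH q n) hq
  have h4 : 0 < 1 - (K : ℝ) / q := by linarith
  unfold phi
  split_ifs
  · positivity
  · gcongr

/-- the mean of the factor is one -/
lemma sum_phi {q : ℕ} (hq : 2 * K ≤ q) (n : ℕ) : ∑ r ∈ range q, phi τ H q n r = q := by
  classical
  obtain ⟨h1, h2, h3⟩ := nu_half hK (act_card τ hH q n) hq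
  have hq0 : 0 < q := by omega
  have hq0' : (0 : ℝ) < q := by exact_mod_cast hq0
  set S := act τ H q n with hS
  set g : ℝ := 1 / (1 - (nu S q : ℝ) / q) with hg
  have h4 : 0 < 1 - (nu S q : ℝ) / q := by linarith
  have h5 : ∀ r ∈ range q, phi τ H q n r = g - (if r ∈ OmD S n q then g else 0) := by
    intro r _
    unfold phi OmD
    rw [← hS]
    by_cases h6 : ∃ i ∈ S, (n + i) % q = r
    · rw [if_pos h6, if_pos (mem_image.2 h6), sub_self]
    · rw [if_neg h6, if_neg (fun h7 => h6 (mem_image.1 h7)), sub_zero]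
  rw [sum_congr rfl h5, sum_sub_distrib, sum_const, card_range, nsmul_eq_mul, ← sum_filter]
  have h6 : (range q).filter (fun r => r ∈ OmD S n q) = OmD S n q := by
    ext r
    simp only [mem_filter, and_iff_right_iff_imp]
    exact fun h => OmD_subset S n q hq0 h
  rw [h6, sum_const, nsmul_eq_mul, OmD_card', hg]
  have h7 : (nu S q : ℝ) < q := by
    have : (nu S q : ℝ) / q < 1 := by linarith
    rwa [div_lt_one hq0'] at this
  have h8 : (q : ℝ) - nu S q ≠ 0 := by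
    have : 0 < (q : ℝ) - nu S q := by linarith
    exact this.ne'
  have h9 : 1 - (nu S q : ℝ) / q = (q - nu S q) / q := by field_simp
  rw [h9]
  field_simp

/-- the size of the increments -/
lemma abs_phi_le {q : ℕ} (hq : 2 * K ≤ q) (n r : ℕ) [Decidable (∃ i ∈ act τ H q n, (n + i) % q = r)] :
    |phi τ H q n r - 1| ≤ 2 * ((K : ℝ) / q + (if ∃ i ∈ act τ H q n, (n + i) % q = r then 1 else 0)) := by
  obtain ⟨h1, h2, h3⟩ := nu_half hK (act_card τ hH q n) hq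
  have hq0' : (0 : ℝ) < q := by
    have : 0 < q := by omega
    exact_mod_cast this
  unfold phi
  split_ifs
  · rw [zero_sub, abs_neg, abs_one]
    linarith
  · set x : ℝ := (nu (act τ H q n) q : ℝ) / q with hx
    have h4 : 0 < 1 - x := by linarith
    have h5 : 1 / (1 - x) - 1 = x / (1 - x) := by field_simp; ring
    rw [h5, abs_of_nonneg (by positivity), div_le_iff₀ h4]
    nlinarith

end

lemma XX_nil (τ : ℕ → ℕ) (H : Finset ℕ) (a : ℕ → ℕ) (n : ℕ) : XX τ H [] a n = 1 := rfl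

lemma XX_cons (τ : ℕ → ℕ) (H : Finset ℕ) (q : ℕ) (l : List ℕ) (a : ℕ → ℕ) (n : ℕ) :
    XX τ H (q :: l) a n = phi τ H q n (a q) * XX τ H l a n := by
  unfold XX
  rw [List.map_cons, List.prod_cons]

lemma XX_update (τ : ℕ → ℕ) (H : Finset ℕ) (q r : ℕ) (l : List ℕ) (hq : q ∉ l) (a : ℕ → ℕ) (n : ℕ) :
    XX τ H l (update a q r) n = XX τ H l a n := by
  unfold XX
  congr 1
  refine List.map_congr_left fun p hp => ?_
  have hne : p ≠ q := by
    rintro rfl
    exact hq hp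
  rw [update_of_ne hne]

lemma Tl_ge_one {K : ℕ} (hK : 1 ≤ K) (l : List ℕ) (hl : ∀ q ∈ l, 2 * K ≤ q) : 1 ≤ Tl K l := by
  unfold Tl
  induction l with
  | nil => simp
  | cons q l ih =>
    rw [List.map_cons, List.prod_cons]
    have h1 := ih fun q hq => hl q (by simp [hq])
    have hq : 2 * K ≤ q := hl q (by simp)
    obtain ⟨h0, h2, h3⟩ := nu_half hK (S := ∅) (by simp) hq
    have h4 : 0 ≤ (K : ℝ) / q := h0.trans h2
    have h5 : 1 ≤ 1 / (1 - (K : ℝ) / q) := by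
      rw [le_div_iff₀ (by linarith)]; linarith
    nlinarith

lemma Tl_cons_le {K : ℕ} (hK : 1 ≤ K) {q : ℕ} {l : List ℕ} (hq : 2 * K ≤ q)
    (hl : ∀ q ∈ l, 2 * K ≤ q) : Tl K l ≤ Tl K (q :: l) := by
  have h1 := Tl_ge_one hK l hl
  have e : Tl K (q :: l) = 1 / (1 - (K : ℝ) / q) * Tl K l := by
    unfold Tl; rw [List.map_cons, List.prod_cons]
  rw [e]
  obtain ⟨h0, h2, h3⟩ := nu_half hK (S := ∅) (by simp) hq
  have h4 : 0 ≤ (K : ℝ) / q := h0.trans h2
  have h5 : 1 ≤ 1 / (1 - (K : ℝ) / q) := by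
    rw [le_div_iff₀ (by linarith)]; linarith
  nlinarith

lemma XX_bounds {K : ℕ} (hK : 1 ≤ K) (τ : ℕ → ℕ) {H : Finset ℕ} (hH : H.card ≤ K) (l : List ℕ)
    (hl : ∀ q ∈ l, 2 * K ≤ q) (a : ℕ → ℕ) (n : ℕ) : 0 ≤ XX τ H l a n ∧ XX τ H l a n ≤ Tl K l := by
  induction l with
  | nil => exact ⟨by simp [XX_nil], by simp [XX_nil, Tl]⟩
  | cons q l ih =>
    obtain ⟨h1, h2⟩ := ih fun q hq => hl q (by simp [hq])
    have hq : 2 * K ≤ q := hl q (by simp)
    rw [XX_cons]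
    have e : Tl K (q :: l) = 1 / (1 - (K : ℝ) / q) * Tl K l := by
      unfold Tl; rw [List.map_cons, List.prod_cons]
    rw [e]
    have h3 := phi_nonneg τ hH hK hq n (a q)
    have h4 := phi_le hK τ hH hq n (a q)
    have h5 : 0 ≤ 1 / (1 - (K : ℝ) / q) := h3.trans h4
    exact ⟨mul_nonneg h3 h1, mul_le_mul h4 h2 h1 h5⟩

/-- the increment for the class `r` -/
noncomputable def yr (τ : ℕ → ℕ) (H : Finset ℕ) (l : List ℕ) (a : ℕ → ℕ) (b D U q r : ℕ) : ℝ :=
  ∑ t ∈ range U, XX τ H l a (b + D * t) * (phi τ H q (b + D * t) r - 1)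

lemma dev_cons (τ : ℕ → ℕ) (H : Finset ℕ) {q : ℕ} {l : List ℕ} (hq : q ∉ l) (a : ℕ → ℕ)
    (b D U r : ℕ) : dev τ H (q :: l) (update a q r) b D U =
      dev τ H l a b D U + yr τ H l a b D U q r := by
  unfold dev yr
  rw [← sum_add_distrib]
  refine sum_congr rfl fun t _ => ?_
  rw [XX_cons, XX_update τ H q r l hq, update_self]
  ring

lemma sum_yr {K : ℕ} (hK : 1 ≤ K) (τ : ℕ → ℕ) {H : Finset ℕ} (hH : H.card ≤ K) {q : ℕ}
    (hq : 2 * K ≤ q) (l : List ℕ) (a : ℕ → ℕ) (b D U : ℕ) :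
    ∑ r ∈ range q, yr τ H l a b D U q r = 0 := by
  unfold yr
  rw [sum_comm]
  refine sum_eq_zero fun t _ => ?_
  rw [← mul_sum, sum_sub_distrib, sum_phi hK τ hH hq, sum_const, card_range, nsmul_eq_mul, mul_one,
    sub_self, mul_zero]

end Pool.Agent.H532.SR
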