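import Mathlib
import Pool.Agent.H532.SR.Rec

/-!
The combinatorics of the increments.
-/

namespace Pool.Agent.H532.SR

open Finset Function Pool.Agent.H532.RM
open Pool.Agent.H532.UT (nu nu_le nu_le_self OmD_card' NgH mem_NgH card_NgH NgH_subset)
open Pool.Agent.H532.UN (nt nt_iff nt_le le_nt)

/-- a convex set of indices is an interval -/
lemma conv_filter (U : ℕ) (p : ℕ → Prop) [DecidablePred p]
    (h : ∀ t1 t t2, t1 ≤ t → t ≤ t2 → p t1 → p t2 → p t) :
    ∃ t1 U1, t1 + U1 ≤ U ∧ (range U).filter p = Ico t1 (t1 + U1) := by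
  rcases ((range U).filter p).eq_empty_or_nonempty with h0 | h0
  · exact ⟨0, 0, by omega, by rw [h0]; simp⟩
  · set a := ((range U).filter p).min' h0 with ha
    set b := ((range U).filter p).max' h0 with hb
    have h1 := mem_filter.1 (min'_mem _ h0)
    have h2 := mem_filter.1 (max'_mem _ h0)
    rw [← ha] at h1
    rw [← hb] at h2
    have h3 := mem_range.1 h1.1
    have h4 := mem_range.1 h2.1
    have h5 : a ≤ b := min'_le_max' _ h0
    refine ⟨a, b + 1 - a, by omega, ?_⟩
    ext t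
    simp only [mem_Ico]
    constructor
    · intro ht
      have h6 := min'_le _ _ ht
      have h7 := le_max' _ _ ht
      rw [← ha] at h6
      rw [← hb] at h7
      omega
    · intro ht
      refine mem_filter.2 ⟨mem_range.2 (by omega), h a t b (by omega) (by omega) h1.2 h2.2⟩

/-- a progression modulo `q` -/
lemma class_eq {q D : ℕ} (hq : 0 < q) (hD : Nat.Coprime D q) (b c : ℕ) (hc : c < q) :
    ∃ s0, s0 < q ∧ ∀ s, (b + D * s) % q = c ↔ s % q = s0 := by
  have hinj : ∀ t t', (b + D * t) % q = (b + D * t') % q → t % q = t' % q := by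
    intro t t' h
    have h1 : b + D * t ≡ b + D * t' [MOD q] := h
    have h2 := Nat.ModEq.add_left_cancel' _ h1
    exact Nat.ModEq.cancel_left_of_coprime (by rw [Nat.coprime_comm] at hD; exact hD) h2
  have him : (range q).image (fun t => (b + D * t) % q) = range q := by
    refine eq_of_subset_of_card_le ?_ ?_
    · intro r hr
      obtain ⟨t, _, rfl⟩ := mem_image.1 hr
      exact mem_range.2 (Nat.mod_lt _ hq)
    · rw [card_image_of_injOn]
      intro t ht t' ht' h
      have := hinj t t' h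
      rwa [Nat.mod_eq_of_lt (mem_range.1 (mem_coe.1 ht)),
        Nat.mod_eq_of_lt (mem_range.1 (mem_coe.1 ht'))] at this
  have hc' : c ∈ (range q).image (fun t => (b + D * t) % q) := by rw [him]; exact mem_range.2 hc
  obtain ⟨s0, hs0, h0⟩ := mem_image.1 hc'
  have hs0' := mem_range.1 hs0
  refine ⟨s0, hs0', fun s => ⟨fun h => ?_, fun h => ?_⟩⟩
  · have := hinj s s0 (by rw [h, h0])
    rwa [Nat.mod_eq_of_lt hs0'] at this
  · rw [← h0]
    have h1 : s ≡ s0 [MOD q] := by
      show s % q = s0 % q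
      rw [h, Nat.mod_eq_of_lt hs0']
    exact (h1.mul_left D).add_left b

lemma class_sum' {q D : ℕ} (hq : 0 < q) (hD : Nat.Coprime D q) (b U c : ℕ) (hc : c < q) :
    ∃ b' U' : ℕ, (U' : ℝ) ≤ U / q + 1 ∧ (U : ℝ) / q - 1 ≤ U' ∧ ∀ g : ℕ → ℝ,
      ∑ s ∈ (range U).filter (fun s => (b + D * s) % q = c), g (b + D * s) =
        ∑ s ∈ range U', g (b' + D * q * s) := by
  obtain ⟨s0, hs0, h⟩ := class_eq hq hD b c hc
  refine ⟨b + D * s0, nt U s0 q, nt_le U s0 q hs0, le_nt U s0 q hs0, fun g => ?_⟩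
  refine sum_nbij' (fun s => s / q) (fun t => s0 + q * t) ?_ ?_ ?_ ?_ ?_
  · intro s hs
    obtain ⟨h1, h2⟩ := mem_filter.1 hs
    rw [h] at h2
    refine mem_range.2 ((nt_iff hs0).2 ?_)
    have h3 := Nat.mod_add_div s q
    rw [h2] at h3
    rw [h3]
    exact mem_range.1 h1
  · intro t ht
    have h1 := (nt_iff hs0).1 (mem_range.1 ht)
    refine mem_filter.2 ⟨mem_range.2 h1, ?_⟩
    rw [h]
    simp [Nat.mod_eq_of_lt hs0]
  · intro s hs
    obtain ⟨h1, h2⟩ := mem_filter.1 hs
    rw [h] at h2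
    have h3 := Nat.mod_add_div s q
    rw [h2] at h3
    exact h3
  · intro t ht
    rw [Nat.add_mul_div_left _ _ hq, Nat.div_eq_of_lt hs0, zero_add]
  · intro s hs
    obtain ⟨h1, h2⟩ := mem_filter.1 hs
    rw [h] at h2
    have h3 := Nat.mod_add_div s q
    rw [h2] at h3
    congr 1
    calc b + D * s = b + D * (s0 + q * (s / q)) := by rw [h3]
      _ = _ := by ring

/-- the factor on the block where the active shifts are `S` -/
lemma phi_block (τ : ℕ → ℕ) (H : Finset ℕ) {q n r : ℕ} (hr : r < q) {S : Finset ℕ}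
    (hS : act τ H q n = S) : phi τ H q n r =
      1 / (1 - (nu S q : ℝ) / q) * (1 - ∑ c ∈ NgH S (fun _ => r) q, if n % q = c then (1 : ℝ) else 0) := by
  classical
  have hq : 0 < q := by omega
  unfold phi
  rw [hS]
  have h1 : (n % q ∈ NgH S (fun _ => r) q) ↔ ∃ i ∈ S, (n + i) % q = r := by
    rw [mem_NgH S (fun _ => r) hq n]
    simp only [Nat.mod_eq_of_lt hr]
  rw [sum_ite_eq]
  by_cases h2 : ∃ i ∈ S, (n + i) % q = r
  · rw [if_pos h2, if_pos (h1.2 h2)]; ring
  · rw [if_neg h2, if_neg (fun h3 => h2 (h1.1 h3))]; ring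

end Pool.Agent.H532.SR
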