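import Mathlib
import Pool.Agent.H532.SR.Geo

/-!
The moments of the increments, small moduli.
-/

namespace Pool.Agent.H532.SR

open Finset Function Pool.Agent.H532.RM
open Pool.Agent.H532.UT (nu nu_le nu_le_self OmD_card' NgH mem_NgH card_NgH NgH_subset)
open Pool.Agent.H532.UN (nt nt_iff nt_le le_nt)

/-- the part of the increment on the block of `S` -/
noncomputable def zS (τ : ℕ → ℕ) (H : Finset ℕ) (l : List ℕ) (a : ℕ → ℕ) (b D U q r : ℕ)
    (S : Finset ℕ) : ℝ :=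
  ∑ t ∈ (range U).filter (fun t => act τ H q (b + D * t) = S),
    XX τ H l a (b + D * t) * (phi τ H q (b + D * t) r - 1)

lemma yr_eq_zS (τ : ℕ → ℕ) (H : Finset ℕ) (l : List ℕ) (a : ℕ → ℕ) (b D U q r : ℕ) :
    yr τ H l a b D U q r = ∑ S ∈ H.powerset, zS τ H l a b D U q r S := by
  unfold yr zS
  exact (sum_fiberwise_of_maps_to (fun t _ => mem_powerset.2 (act_sub τ H q (b + D * t))) _).symm

/-- the structure of the block sums -/
lemma zS_bound {K : ℕ} (hK : 1 ≤ K) (τ : ℕ → ℕ) {H : Finset ℕ} {q : ℕ} (hq : 2 * K ≤ q)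
    {D : ℕ} (hD : Nat.Coprime D q) (b U r : ℕ) (hr : r < q) {S : Finset ℕ} (hS : S.card ≤ K) :
    ∃ b1 U1 : ℕ, U1 ≤ U ∧ ∃ bc Uc : ℕ → ℕ, (∀ c, (Uc c : ℝ) ≤ U / q + 1) ∧
      ∀ (l : List ℕ) (a : ℕ → ℕ), |zS τ H l a b D U q r S| ≤
        2 * ((K : ℝ) / q * |dev τ H l a b1 D U1| +
          ∑ c ∈ NgH S (fun _ => r) q, |dev τ H l a (bc c) (D * q) (Uc c)| + K) := by
  classical
  have hq0 : 0 < q := by omega
  have hq0' : (0 : ℝ) < q := by exact_mod_cast hq0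
  obtain ⟨h1, h2, h3⟩ := nu_half hK hS hq
  obtain ⟨t1, U1, hU1, hJ⟩ := conv_filter U (fun t => act τ H q (b + D * t) = S) (by
    intro t1 t t2 h12 h23 hp1 hp2
    refine Subset.antisymm ?_ ?_
    · rw [← hp2]
      exact act_mono τ H q (by gcongr)
    · rw [← hp1]
      exact act_mono τ H q (by gcongr))
  set b1 := b + D * t1 with hb1
  have hcl : ∀ c : ℕ, ∃ b' U' : ℕ, c < q → ((U' : ℝ) ≤ U1 / q + 1 ∧ (U1 : ℝ) / q - 1 ≤ U' ∧
      ∀ g : ℕ → ℝ, ∑ s ∈ (range U1).filter (fun s => (b1 + D * s) % q = c), g (b1 + D * s) =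
        ∑ s ∈ range U', g (b' + D * q * s)) := by
    intro c
    by_cases hc : c < q
    · obtain ⟨b', U', h⟩ := class_sum' hq0 hD b1 U1 c hc
      exact ⟨b', U', fun _ => h⟩
    · exact ⟨0, 0, fun h => absurd h hc⟩
  choose bc Uc' hbc using hcl
  set Uc : ℕ → ℕ := fun c => if c < q then Uc' c else 0 with hUc
  have hUcle : ∀ c, (Uc c : ℝ) ≤ U / q + 1 := by
    intro c
    rw [hUc]
    simp only
    split_ifs with hc
    · have h4 := (hbc c hc).1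
      have h5 : (U1 : ℝ) ≤ U := by
        have : U1 ≤ U := by omega
        exact_mod_cast this
      have h6 : (U1 : ℝ) / q ≤ U / q := by gcongr
      linarith
    · simp only [Nat.cast_zero]; positivity
  refine ⟨b1, U1, by omega, bc, Uc, hUcle, fun l a => ?_⟩
  set g : ℝ := 1 / (1 - (nu S q : ℝ) / q) with hg
  have hpos : 0 < 1 - (nu S q : ℝ) / q := by linarith
  have hg0 : 0 ≤ g := by rw [hg]; positivity
  have hg1 : g ≤ 2 := by
    rw [hg, div_le_iff₀ hpos]; linarith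
  have hgm : g - 1 = g * ((nu S q : ℝ) / q) := by
    have hne : 1 - (nu S q : ℝ) / q ≠ 0 := hpos.ne'
    rw [hg, div_mul_eq_mul_div, one_mul, eq_div_iff hne, sub_mul, one_div, inv_mul_cancel₀ hne]
    ring
  set N := NgH S (fun _ => r) q with hN
  have hNc : (N.card : ℝ) = nu S q := by rw [hN, card_NgH S _ hq0]
  have hNlt : ∀ c ∈ N, c < q := fun c hc => mem_range.1 (NgH_subset S _ hq0 hc)
  have hNK : (N.card : ℝ) ≤ K := by
    rw [hNc]; exact_mod_cast (nu_le S q).trans hS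
  set f : ℕ → ℝ := fun n => XX τ H l a n with hf
  -- the total
  have e1 : zS τ H l a b D U q r S = (g - 1) * ∑ s ∈ range U1, f (b1 + D * s) -
      g * ∑ c ∈ N, ∑ s ∈ (range U1).filter (fun s => (b1 + D * s) % q = c), f (b1 + D * s) := by
    unfold zS
    have e2 : ∑ t ∈ (range U).filter (fun t => act τ H q (b + D * t) = S),
        XX τ H l a (b + D * t) * (phi τ H q (b + D * t) r - 1) =
        ∑ t ∈ (range U).filter (fun t => act τ H q (b + D * t) = S),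
        ((g - 1) * f (b + D * t) - g * ∑ c ∈ N, if (b + D * t) % q = c then f (b + D * t) else 0) := by
      refine sum_congr rfl fun t ht => ?_
      rw [phi_block τ H hr (mem_filter.1 ht).2, ← hg, ← hN]
      have e3 : ∑ c ∈ N, (if (b + D * t) % q = c then f (b + D * t) else 0) =
          f (b + D * t) * ∑ c ∈ N, (if (b + D * t) % q = c then (1 : ℝ) else 0) := by
        rw [mul_sum]
        refine sum_congr rfl fun c _ => ?_
        split_ifs <;> ring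
      rw [e3]
      ring
    rw [e2, hJ, sum_Ico_eq_sum_range]
    have e4 : t1 + U1 - t1 = U1 := by omega
    rw [e4]
    have e5 : ∀ s, b + D * (t1 + s) = b1 + D * s := fun s => by rw [hb1]; ring
    simp only [e5]
    rw [sum_sub_distrib, ← mul_sum, ← mul_sum, sum_comm]
    congr 2
    refine sum_congr rfl fun c _ => ?_
    rw [sum_filter]
  have e6 : ∑ s ∈ range U1, f (b1 + D * s) = dev τ H l a b1 D U1 + U1 := by
    unfold dev
    rw [sum_sub_distrib, sum_const, card_range, nsmul_eq_mul, mul_one]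
    ring
  have e7 : ∑ c ∈ N, ∑ s ∈ (range U1).filter (fun s => (b1 + D * s) % q = c), f (b1 + D * s) =
      ∑ c ∈ N, (dev τ H l a (bc c) (D * q) (Uc c) + Uc c) := by
    refine sum_congr rfl fun c hc => ?_
    have hc' := hNlt c hc
    have e8 : Uc c = Uc' c := by rw [hUc]; simp only; rw [if_pos hc']
    rw [(hbc c hc').2.2 f, e8]
    unfold dev
    rw [sum_sub_distrib, sum_const, card_range, nsmul_eq_mul, mul_one]
    ring
  rw [e1, e6, e7, sum_add_distrib, hgm]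
  have e9 : g * ((nu S q : ℝ) / q) * (dev τ H l a b1 D U1 + U1) -
      g * (∑ c ∈ N, dev τ H l a (bc c) (D * q) (Uc c) + ∑ c ∈ N, (Uc c : ℝ)) =
      g * (((nu S q : ℝ) / q) * dev τ H l a b1 D U1 - ∑ c ∈ N, dev τ H l a (bc c) (D * q) (Uc c) +
        ∑ c ∈ N, ((U1 : ℝ) / q - Uc c)) := by
    rw [sum_sub_distrib, sum_const, nsmul_eq_mul, hNc]
    ring
  rw [e9, abs_mul, abs_of_nonneg hg0]
  have h10 : |∑ c ∈ N, ((U1 : ℝ) / q - Uc c)| ≤ K := by
    refine (abs_sum_le_sum_abs _ _).trans ?_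
    calc ∑ c ∈ N, |(U1 : ℝ) / q - Uc c| ≤ ∑ c ∈ N, (1 : ℝ) := by
          refine sum_le_sum fun c hc => ?_
          have hc' := hNlt c hc
          have e8 : Uc c = Uc' c := by rw [hUc]; simp only; rw [if_pos hc']
          obtain ⟨h11, h12, _⟩ := hbc c hc'
          rw [e8, abs_le]
          constructor <;> linarith
      _ = N.card := by rw [sum_const, nsmul_eq_mul, mul_one]
      _ ≤ K := hNK
  have h11 : |∑ c ∈ N, dev τ H l a (bc c) (D * q) (Uc c)| ≤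
      ∑ c ∈ N, |dev τ H l a (bc c) (D * q) (Uc c)| := abs_sum_le_sum_abs _ _
  have h12 : |((nu S q : ℝ) / q) * dev τ H l a b1 D U1| ≤ (K : ℝ) / q * |dev τ H l a b1 D U1| := by
    rw [abs_mul, abs_of_nonneg h1]
    gcongr
  have h13 : |((nu S q : ℝ) / q) * dev τ H l a b1 D U1 - ∑ c ∈ N, dev τ H l a (bc c) (D * q) (Uc c) +
        ∑ c ∈ N, ((U1 : ℝ) / q - Uc c)| ≤ (K : ℝ) / q * |dev τ H l a b1 D U1| +
          ∑ c ∈ N, |dev τ H l a (bc c) (D * q) (Uc c)| + K := by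
    refine (abs_add_le _ _).trans ?_
    have := abs_sub (((nu S q : ℝ) / q) * dev τ H l a b1 D U1)
      (∑ c ∈ N, dev τ H l a (bc c) (D * q) (Uc c))
    linarith
  exact mul_le_mul hg1 h13 (abs_nonneg _) (by norm_num)

/-- three terms -/
lemma three_pow (n : ℕ) {x y z : ℝ} (hx : 0 ≤ x) (hy : 0 ≤ y) (hz : 0 ≤ z) :
    (x + y + z) ^ (n + 1) ≤ 3 ^ n * (x ^ (n + 1) + y ^ (n + 1) + z ^ (n + 1)) := by
  have := sum_pow_le (Finset.univ : Finset (Fin 3)) ![x, y, z] (by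
    intro i _
    fin_cases i
    · exact hx
    · exact hy
    · exact hz) n 3 (by simp)
  simpa [Fin.sum_univ_three] using this

/-- the hypothesis of the induction -/
def Good (τ : ℕ → ℕ) (H : Finset ℕ) (l : List ℕ) (x : ℕ → ℕ) (k : ℕ) (F : ℝ) : Prop :=
  ∀ b D U : ℕ, (∀ p ∈ l, Nat.Coprime D p) →
    Ev l (fun a => dev τ H l a b D U ^ (2 * k + 2)) x ≤ F * (1 + U : ℝ) ^ (k + 1)

lemma even_abs (k : ℕ) (t : ℝ) : |t| ^ (2 * k + 2) = t ^ (2 * k + 2) := by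
  rw [pow_add, pow_add, pow_mul, pow_mul, sq_abs]

lemma zS_moment {K k : ℕ} (hK : 1 ≤ K) (τ : ℕ → ℕ) {H : Finset ℕ} {q : ℕ} (hq : 2 * K ≤ q)
    (l : List ℕ) (x : ℕ → ℕ) {F : ℝ} (hF : 1 ≤ F) (hl0 : ∀ p ∈ l, 0 < p)
    (hl : ∀ p ∈ l, Nat.Coprime q p) (hG : Good τ H l x k F)
    {D : ℕ} (hD : Nat.Coprime D q) (hDl : ∀ p ∈ l, Nat.Coprime D p) (b U r : ℕ) (hqU : q ≤ U)
    (hr : r < q) {S : Finset ℕ} (hS : S.card ≤ K) :
    Ev l (fun a => zS τ H l a b D U q r S ^ (2 * k + 2)) x ≤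
      (6 * K : ℝ) ^ (2 * k + 2) * 3 ^ (k + 2) * F * ((U : ℝ) / q) ^ (k + 1) := by
  obtain ⟨b1, U1, hU1, bc, Uc, hUc, h⟩ := zS_bound hK τ (H := H) hq hD b U r hr hS
  have hq0 : 0 < q := by omega
  have hq0' : (0 : ℝ) < q := by exact_mod_cast hq0
  have hK' : (1 : ℝ) ≤ K := by exact_mod_cast hK
  set N := NgH S (fun _ => r) q with hN
  have hNK : (N.card : ℝ) ≤ K := by
    rw [hN, card_NgH S _ hq0]; exact_mod_cast (nu_le S q).trans hS
  set w : ℝ := (U : ℝ) / q with hw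
  have hw1 : 1 ≤ w := by
    rw [hw, le_div_iff₀ hq0', one_mul]; exact_mod_cast hqU
  have hw0 : 0 ≤ w := by linarith
  have hwF : 1 ≤ F * w ^ (k + 1) := by
    have : 1 ≤ w ^ (k + 1) := one_le_pow₀ hw1
    nlinarith
  -- the pointwise bound
  have h1 : ∀ a, zS τ H l a b D U q r S ^ (2 * k + 2) ≤
      (2 : ℝ) ^ (2 * k + 2) * 3 ^ (2 * k + 1) *
        (((K : ℝ) / q) ^ (2 * k + 2) * dev τ H l a b1 D U1 ^ (2 * k + 2) +
          (K : ℝ) ^ (2 * k + 1) * ∑ c ∈ N, dev τ H l a (bc c) (D * q) (Uc c) ^ (2 * k + 2) +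
          (K : ℝ) ^ (2 * k + 2)) := by
    intro a
    have h2 := h l a
    have h3 : |zS τ H l a b D U q r S| ^ (2 * k + 2) ≤ (2 * ((K : ℝ) / q * |dev τ H l a b1 D U1| +
          ∑ c ∈ N, |dev τ H l a (bc c) (D * q) (Uc c)| + K)) ^ (2 * k + 2) :=
      pow_le_pow_left₀ (abs_nonneg _) h2 _
    rw [even_abs, mul_pow] at h3
    have h4 := three_pow (2 * k + 1) (x := (K : ℝ) / q * |dev τ H l a b1 D U1|)
      (y := ∑ c ∈ N, |dev τ H l a (bc c) (D * q) (Uc c)|) (z := (K : ℝ)) (by positivity)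
      (sum_nonneg fun c _ => abs_nonneg _) (by positivity)
    have h5 := sum_pow_le N (fun c => |dev τ H l a (bc c) (D * q) (Uc c)|)
      (fun c _ => abs_nonneg _) (2 * k + 1) K hNK
    have e1 : 2 * k + 1 + 1 = 2 * k + 2 := by ring
    rw [e1] at h4 h5
    simp only [even_abs] at h5
    rw [mul_pow, even_abs] at h4
    calc zS τ H l a b D U q r S ^ (2 * k + 2) ≤ _ := h3
      _ ≤ (2 : ℝ) ^ (2 * k + 2) * (3 ^ (2 * k + 1) *
          (((K : ℝ) / q) ^ (2 * k + 2) * dev τ H l a b1 D U1 ^ (2 * k + 2) +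
          (∑ c ∈ N, |dev τ H l a (bc c) (D * q) (Uc c)|) ^ (2 * k + 2) + (K : ℝ) ^ (2 * k + 2))) := by
          gcongr
      _ ≤ (2 : ℝ) ^ (2 * k + 2) * (3 ^ (2 * k + 1) *
          (((K : ℝ) / q) ^ (2 * k + 2) * dev τ H l a b1 D U1 ^ (2 * k + 2) +
          (K : ℝ) ^ (2 * k + 1) * ∑ c ∈ N, dev τ H l a (bc c) (D * q) (Uc c) ^ (2 * k + 2) +
          (K : ℝ) ^ (2 * k + 2))) := by gcongr
      _ = _ := by ring
  refine (Ev_mono l h1 x).trans ?_
  rw [Ev_mul, Ev_add, Ev_add, Ev_mul, Ev_mul, Ev_sum, Ev_const l hl0]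
  -- the three terms
  have t1 : ((K : ℝ) / q) ^ (2 * k + 2) * Ev l (fun a => dev τ H l a b1 D U1 ^ (2 * k + 2)) x ≤
      (K : ℝ) ^ (2 * k + 2) * (3 ^ (k + 1) * (F * w ^ (k + 1))) := by
    have h2 := hG b1 D U1 hDl
    have hqge : (1 : ℝ) ≤ q := by exact_mod_cast hq0
    have h3 : (1 + U1 : ℝ) ≤ 3 * (w * q) := by
      rw [hw, div_mul_cancel₀ _ hq0'.ne']
      have h4 : (U1 : ℝ) ≤ U := by exact_mod_cast hU1
      have h5 : (1 : ℝ) ≤ U := hqge.trans (by exact_mod_cast hqU)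
      linarith
    have h6 : F * (1 + U1 : ℝ) ^ (k + 1) ≤ F * (3 * (w * q)) ^ (k + 1) := by gcongr
    have h7 : ((K : ℝ) / q) ^ (2 * k + 2) * (F * (3 * (w * q)) ^ (k + 1)) =
        (K : ℝ) ^ (2 * k + 2) * (3 ^ (k + 1) * (F * w ^ (k + 1))) * (1 / (q : ℝ) ^ (k + 1)) := by
      have : 2 * k + 2 = (k + 1) + (k + 1) := by ring
      rw [div_pow, mul_pow, mul_pow, this, pow_add (q : ℝ)]
      field_simp
    have h8 : 1 / (q : ℝ) ^ (k + 1) ≤ 1 := by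
      rw [div_le_one (by positivity)]
      exact one_le_pow₀ hqge
    calc ((K : ℝ) / q) ^ (2 * k + 2) * Ev l (fun a => dev τ H l a b1 D U1 ^ (2 * k + 2)) x ≤
        ((K : ℝ) / q) ^ (2 * k + 2) * (F * (3 * (w * q)) ^ (k + 1)) := by gcongr; exact h2.trans h6
      _ = _ := h7
      _ ≤ (K : ℝ) ^ (2 * k + 2) * (3 ^ (k + 1) * (F * w ^ (k + 1))) * 1 := by gcongr
      _ = _ := mul_one _
  have t2 : (K : ℝ) ^ (2 * k + 1) *
      ∑ c ∈ N, Ev l (fun a => dev τ H l a (bc c) (D * q) (Uc c) ^ (2 * k + 2)) x ≤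
      (K : ℝ) ^ (2 * k + 2) * (3 ^ (k + 1) * (F * w ^ (k + 1))) := by
    have h2 : ∀ c ∈ N, Ev l (fun a => dev τ H l a (bc c) (D * q) (Uc c) ^ (2 * k + 2)) x ≤
        3 ^ (k + 1) * (F * w ^ (k + 1)) := by
      intro c _
      have h3 := hG (bc c) (D * q) (Uc c) (fun p hp => Nat.Coprime.mul_left (hDl p hp) (hl p hp))
      have h4 : (1 + Uc c : ℝ) ≤ 3 * w := by
        have := hUc c
        linarith
      calc _ ≤ _ := h3
        _ ≤ F * (3 * w) ^ (k + 1) := by gcongr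
        _ = _ := by rw [mul_pow]; ring
    calc (K : ℝ) ^ (2 * k + 1) *
        ∑ c ∈ N, Ev l (fun a => dev τ H l a (bc c) (D * q) (Uc c) ^ (2 * k + 2)) x ≤
        (K : ℝ) ^ (2 * k + 1) * ∑ c ∈ N, (3 ^ (k + 1) * (F * w ^ (k + 1))) := by
          gcongr with c hc; exact h2 c hc
      _ = (K : ℝ) ^ (2 * k + 1) * N.card * (3 ^ (k + 1) * (F * w ^ (k + 1))) := by
          rw [sum_const, nsmul_eq_mul]; ring
      _ ≤ (K : ℝ) ^ (2 * k + 1) * K * (3 ^ (k + 1) * (F * w ^ (k + 1))) := by gcongr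
      _ = _ := by ring
  have t3 : (K : ℝ) ^ (2 * k + 2) ≤ (K : ℝ) ^ (2 * k + 2) * (3 ^ (k + 1) * (F * w ^ (k + 1))) := by
    have h3 : (1 : ℝ) ≤ 3 ^ (k + 1) := one_le_pow₀ (by norm_num)
    have h4 : 1 ≤ 3 ^ (k + 1) * (F * w ^ (k + 1)) := by nlinarith
    have h5 : 0 ≤ (K : ℝ) ^ (2 * k + 2) := by positivity
    nlinarith
  calc (2 : ℝ) ^ (2 * k + 2) * 3 ^ (2 * k + 1) *
        (((K : ℝ) / q) ^ (2 * k + 2) * Ev l (fun a => dev τ H l a b1 D U1 ^ (2 * k + 2)) x +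
          (K : ℝ) ^ (2 * k + 1) *
            ∑ c ∈ N, Ev l (fun a => dev τ H l a (bc c) (D * q) (Uc c) ^ (2 * k + 2)) x +
          (K : ℝ) ^ (2 * k + 2)) ≤
      (2 : ℝ) ^ (2 * k + 2) * 3 ^ (2 * k + 1) *
        ((K : ℝ) ^ (2 * k + 2) * (3 ^ (k + 1) * (F * w ^ (k + 1))) +
        (K : ℝ) ^ (2 * k + 2) * (3 ^ (k + 1) * (F * w ^ (k + 1))) +
        (K : ℝ) ^ (2 * k + 2) * (3 ^ (k + 1) * (F * w ^ (k + 1)))) := by gcongr
    _ = (2 : ℝ) ^ (2 * k + 2) * 3 ^ (2 * k + 2) * (K : ℝ) ^ (2 * k + 2) * 3 ^ (k + 1) *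
        F * w ^ (k + 1) := by ring
    _ = (6 * K : ℝ) ^ (2 * k + 2) * 3 ^ (k + 1) * F * w ^ (k + 1) := by
        rw [← mul_pow, ← mul_pow]; ring_nf
    _ ≤ (6 * K : ℝ) ^ (2 * k + 2) * 3 ^ (k + 2) * F * w ^ (k + 1) := by
        gcongr
        · norm_num
        · omega

lemma yr_moment {K k : ℕ} (hK : 1 ≤ K) (τ : ℕ → ℕ) {H : Finset ℕ} (hH : H.card ≤ K) {q : ℕ}
    (hq : 2 * K ≤ q) (l : List ℕ) (x : ℕ → ℕ) {F : ℝ} (hF : 1 ≤ F) (hl0 : ∀ p ∈ l, 0 < p)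
    (hl : ∀ p ∈ l, Nat.Coprime q p) (hG : Good τ H l x k F)
    {D : ℕ} (hD : Nat.Coprime D q) (hDl : ∀ p ∈ l, Nat.Coprime D p) (b U r : ℕ) (hqU : q ≤ U)
    (hr : r < q) :
    Ev l (fun a => yr τ H l a b D U q r ^ (2 * k + 2)) x ≤
      (2 : ℝ) ^ (K * (2 * k + 2)) * ((6 * K : ℝ) ^ (2 * k + 2) * 3 ^ (k + 2)) * F *
        ((U : ℝ) / q) ^ (k + 1) := by
  have hcard : (H.powerset.card : ℝ) ≤ 2 ^ K := by
    rw [card_powerset]
    push_cast
    exact pow_le_pow_right₀ (by norm_num) hH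
  have h1 : ∀ a, yr τ H l a b D U q r ^ (2 * k + 2) ≤ ((2 : ℝ) ^ K) ^ (2 * k + 1) *
      ∑ S ∈ H.powerset, zS τ H l a b D U q r S ^ (2 * k + 2) := by
    intro a
    have h2 := sum_pow_le H.powerset (fun S => |zS τ H l a b D U q r S|)
      (fun c _ => abs_nonneg _) (2 * k + 1) (2 ^ K) hcard
    have e1 : 2 * k + 1 + 1 = 2 * k + 2 := by ring
    rw [e1] at h2
    simp only [even_abs] at h2
    have h3 : |yr τ H l a b D U q r| ≤ ∑ S ∈ H.powerset, |zS τ H l a b D U q r S| := by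
      rw [yr_eq_zS]; exact abs_sum_le_sum_abs _ _
    have h4 := pow_le_pow_left₀ (abs_nonneg _) h3 (2 * k + 2)
    rw [even_abs] at h4
    exact h4.trans h2
  refine (Ev_mono l h1 x).trans ?_
  rw [Ev_mul, Ev_sum]
  set B : ℝ := (6 * K : ℝ) ^ (2 * k + 2) * 3 ^ (k + 2) * F * ((U : ℝ) / q) ^ (k + 1) with hB
  have hB0 : 0 ≤ B := by rw [hB]; positivity
  calc ((2 : ℝ) ^ K) ^ (2 * k + 1) *
      ∑ S ∈ H.powerset, Ev l (fun a => zS τ H l a b D U q r S ^ (2 * k + 2)) x ≤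
      ((2 : ℝ) ^ K) ^ (2 * k + 1) * ∑ S ∈ H.powerset, B := by
        gcongr with S hS
        exact zS_moment hK τ hq l x hF hl0 hl hG hD hDl b U r hqU hr
          ((card_le_card (mem_powerset.1 hS)).trans hH)
    _ = ((2 : ℝ) ^ K) ^ (2 * k + 1) * H.powerset.card * B := by
        rw [sum_const, nsmul_eq_mul]; ring
    _ ≤ ((2 : ℝ) ^ K) ^ (2 * k + 1) * 2 ^ K * B := by gcongr
    _ = (2 : ℝ) ^ (K * (2 * k + 2)) * B := by
        rw [← pow_succ, ← pow_mul]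
    _ = _ := by rw [hB]; ring

end Pool.Agent.H532.SR
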