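import Mathlib
import Pool.Agent.H532.SR.StepA

/-!
The moments of the increments, large moduli, and the recursion.
-/

namespace Pool.Agent.H532.SR

open Finset Function Pool.Agent.H532.RM
open Pool.Agent.H532.UT (nu nu_le nu_le_self OmD_card' NgH mem_NgH card_NgH NgH_subset)
open Pool.Agent.H532.UN (nt nt_iff nt_le le_nt)

open Classical in
/-- the number of hits -/
noncomputable def Nr (τ : ℕ → ℕ) (H : Finset ℕ) (b D U q r : ℕ) : ℕ :=
  ((range U).filter (fun t => ∃ i ∈ act τ H q (b + D * t), (b + D * t + i) % q = r)).card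

lemma Nr_le {K : ℕ} (τ : ℕ → ℕ) {H : Finset ℕ} (hH : H.card ≤ K) {q D : ℕ} (hq : 0 < q)
    (hD : Nat.Coprime D q) (b U r : ℕ) (hU : U ≤ q) : Nr τ H b D U q r ≤ K := by
  classical
  unfold Nr
  refine le_trans ?_ hH
  have h1 : (range U).filter (fun t => ∃ i ∈ act τ H q (b + D * t), (b + D * t + i) % q = r) ⊆
      H.biUnion (fun i => (range U).filter (fun t => (b + D * t + i) % q = r)) := by
    intro t ht
    obtain ⟨h2, i, hi, h3⟩ := mem_filter.1 ht
    exact mem_biUnion.2 ⟨i, act_sub τ H q _ hi, mem_filter.2 ⟨h2, h3⟩⟩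
  refine (card_le_card h1).trans ?_
  refine card_biUnion_le.trans ?_
  rw [card_eq_sum_ones]
  refine sum_le_sum fun i _ => ?_
  rw [card_le_one]
  intro t ht t' ht'
  obtain ⟨h2, h3⟩ := mem_filter.1 ht
  obtain ⟨h2', h3'⟩ := mem_filter.1 ht'
  have h4 : b + D * t + i ≡ b + D * t' + i [MOD q] := h3.trans h3'.symm
  have h5 := Nat.ModEq.add_right_cancel' _ h4
  have h6 := Nat.ModEq.add_left_cancel' _ h5
  have h7 := Nat.ModEq.cancel_left_of_coprime (by rw [Nat.coprime_comm] at hD; exact hD) h6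
  have := mem_range.1 h2
  have := mem_range.1 h2'
  exact Nat.ModEq.eq_of_lt_of_lt h7 (by omega) (by omega)

lemma sum_Nr {K : ℕ} (τ : ℕ → ℕ) {H : Finset ℕ} (hH : H.card ≤ K) {q D : ℕ} (hq : 0 < q)
    (b U : ℕ) : ∑ r ∈ range q, (Nr τ H b D U q r : ℝ) ≤ K * U := by
  classical
  have h1 : ∑ r ∈ range q, Nr τ H b D U q r ≤ K * U := by
    unfold Nr
    simp only [card_filter]
    rw [sum_comm]
    calc ∑ t ∈ range U, ∑ r ∈ range q,
          (if ∃ i ∈ act τ H q (b + D * t), (b + D * t + i) % q = r then 1 else 0) ≤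
        ∑ t ∈ range U, K := by
          refine sum_le_sum fun t _ => ?_
          rw [← card_filter]
          have h2 : (range q).filter (fun r => ∃ i ∈ act τ H q (b + D * t), (b + D * t + i) % q = r) ⊆
              (act τ H q (b + D * t)).image (fun i => (b + D * t + i) % q) := by
            intro r hr
            obtain ⟨_, i, hi, h3⟩ := mem_filter.1 hr
            exact mem_image.2 ⟨i, hi, h3⟩
          exact (card_le_card h2).trans (card_image_le.trans (act_card τ hH q _))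
      _ = K * U := by rw [sum_const, card_range, smul_eq_mul, mul_comm]
  exact_mod_cast h1

lemma yr_le {K : ℕ} (hK : 1 ≤ K) (τ : ℕ → ℕ) {H : Finset ℕ} (hH : H.card ≤ K) {q : ℕ}
    (hq : 2 * K ≤ q) (l : List ℕ) (hl : ∀ p ∈ l, 2 * K ≤ p) {T : ℝ} (hT : Tl K l ≤ T)
    (a : ℕ → ℕ) (b D U r : ℕ) :
    |yr τ H l a b D U q r| ≤ 2 * T * ((K : ℝ) * U / q + Nr τ H b D U q r) := by
  classical
  unfold yr
  refine (abs_sum_le_sum_abs _ _).trans ?_
  have hT0 : 0 ≤ T := le_trans (by linarith [Tl_ge_one hK l hl]) hT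
  calc ∑ t ∈ range U, |XX τ H l a (b + D * t) * (phi τ H q (b + D * t) r - 1)| ≤
      ∑ t ∈ range U, T * (2 * ((K : ℝ) / q +
        (if ∃ i ∈ act τ H q (b + D * t), (b + D * t + i) % q = r then 1 else 0))) := by
        refine sum_le_sum fun t _ => ?_
        obtain ⟨h1, h2⟩ := XX_bounds hK τ hH l hl a (b + D * t)
        rw [abs_mul, abs_of_nonneg h1]
        exact mul_le_mul (h2.trans hT) (abs_phi_le hK τ hH hq _ _) (abs_nonneg _) hT0
    _ = 2 * T * ((K : ℝ) * U / q + Nr τ H b D U q r) := by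
        rw [← mul_sum, ← mul_sum, sum_add_distrib, sum_const, card_range, nsmul_eq_mul]
        unfold Nr
        rw [card_filter]
        push_cast
        ring

/-- the averages of the powers of the increments -/
lemma avg_yr {K n : ℕ} (hK : 1 ≤ K) (τ : ℕ → ℕ) {H : Finset ℕ} (hH : H.card ≤ K) {q : ℕ}
    (hq : 2 * K ≤ q) (l : List ℕ) (hl : ∀ p ∈ l, 2 * K ≤ p) {T : ℝ} (hT : Tl K l ≤ T)
    (a : ℕ → ℕ) (b D U : ℕ) (hD : Nat.Coprime D q) (hU : U ≤ q) :
    (1 / (q : ℝ)) * ∑ r ∈ range q, |yr τ H l a b D U q r| ^ (n + 1) ≤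
      2 * (8 * K : ℝ) ^ (n + 1) * T ^ (n + 1) * U / q := by
  have hq0 : 0 < q := by omega
  have hq0' : (0 : ℝ) < q := by exact_mod_cast hq0
  have hT0 : 0 ≤ T := le_trans (by linarith [Tl_ge_one hK l hl]) hT
  have hK' : (1 : ℝ) ≤ K := by exact_mod_cast hK
  set w : ℝ := (U : ℝ) / q with hw
  have hw0 : 0 ≤ w := by positivity
  have hw1 : w ≤ 1 := by
    rw [hw, div_le_one hq0']; exact_mod_cast hU
  have h1 : ∀ r, |yr τ H l a b D U q r| ^ (n + 1) ≤
      (2 * T) ^ (n + 1) * (2 ^ n * ((K : ℝ) ^ (n + 1) * w + K ^ n * Nr τ H b D U q r)) := by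
    intro r
    have h2 := pow_le_pow_left₀ (abs_nonneg _) (yr_le hK τ hH hq l hl hT a b D U r) (n + 1)
    rw [mul_pow] at h2
    have h3 : ((K : ℝ) * U / q + Nr τ H b D U q r) ^ (n + 1) ≤
        2 ^ n * (((K : ℝ) * U / q) ^ (n + 1) + (Nr τ H b D U q r : ℝ) ^ (n + 1)) := by
      have := sum_pow_le (Finset.univ : Finset (Fin 2)) ![(K : ℝ) * U / q, (Nr τ H b D U q r : ℝ)] (by
        intro i _
        fin_cases i
        · show (0 : ℝ) ≤ (K : ℝ) * U / q
          positivity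
        · show (0 : ℝ) ≤ (Nr τ H b D U q r : ℝ)
          positivity) n 2 (by simp)
      simpa [Fin.sum_univ_two] using this
    have h4 : ((K : ℝ) * U / q) ^ (n + 1) ≤ (K : ℝ) ^ (n + 1) * w := by
      have e : (K : ℝ) * U / q = K * w := by rw [hw]; ring
      rw [e, mul_pow]
      have : w ^ (n + 1) ≤ w := by
        rw [pow_succ]
        have : w ^ n ≤ 1 := pow_le_one₀ hw0 hw1
        nlinarith
      gcongr
    have h5 : (Nr τ H b D U q r : ℝ) ^ (n + 1) ≤ K ^ n * Nr τ H b D U q r := by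
      rw [pow_succ]
      have : (Nr τ H b D U q r : ℝ) ≤ K := by exact_mod_cast Nr_le τ hH hq0 hD b U r hU
      gcongr
    calc |yr τ H l a b D U q r| ^ (n + 1) ≤ _ := h2
      _ ≤ (2 * T) ^ (n + 1) *
        (2 ^ n * (((K : ℝ) * U / q) ^ (n + 1) + (Nr τ H b D U q r : ℝ) ^ (n + 1))) := by gcongr
      _ ≤ _ := by gcongr
  calc (1 / (q : ℝ)) * ∑ r ∈ range q, |yr τ H l a b D U q r| ^ (n + 1) ≤
      (1 / (q : ℝ)) * ∑ r ∈ range q,
        ((2 * T) ^ (n + 1) * (2 ^ n * ((K : ℝ) ^ (n + 1) * w + K ^ n * Nr τ H b D U q r))) := by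
        gcongr with r _; exact h1 r
    _ = (2 * T) ^ (n + 1) * (2 ^ n * ((K : ℝ) ^ (n + 1) * w +
        K ^ n * ((∑ r ∈ range q, (Nr τ H b D U q r : ℝ)) / q))) := by
        rw [← mul_sum, ← mul_sum, sum_add_distrib, sum_const, card_range, nsmul_eq_mul, ← mul_sum]
        field_simp
    _ ≤ (2 * T) ^ (n + 1) * (2 ^ n * ((K : ℝ) ^ (n + 1) * w + K ^ n * (K * U / q))) := by
        gcongr
        exact sum_Nr τ hH hq0 b U
    _ = (4 : ℝ) ^ (n + 1) * ((K : ℝ) ^ (n + 1) * (T ^ (n + 1) * w)) := by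
        have e : (4 : ℝ) ^ (n + 1) = (2) ^ (n + 1) * (2 * 2 ^ n) := by
          rw [← pow_succ', ← mul_pow]; norm_num
        rw [e, mul_pow, hw]; ring
    _ ≤ 2 * 8 ^ (n + 1) * ((K : ℝ) ^ (n + 1) * (T ^ (n + 1) * w)) := by
        gcongr
        have : (4 : ℝ) ^ (n + 1) ≤ 8 ^ (n + 1) := by gcongr; norm_num
        have h8 : (0 : ℝ) ≤ 8 ^ (n + 1) := by positivity
        linarith
    _ = _ := by rw [mul_pow, hw]; ring

end Pool.Agent.H532.SR
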