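import Mathlib
import Pool.Agent.H532.SR.StepB

/-!
The recursion for the moments.
-/

namespace Pool.Agent.H532.SR

open Finset Function Pool.Agent.H532.RM
open Pool.Agent.H532.UT (nu nu_le nu_le_self OmD_card' NgH mem_NgH card_NgH NgH_subset)

lemma prod_ge_one (C : ℝ) (hC : 0 ≤ C) (l : List ℕ) :
    1 ≤ (l.map (fun q : ℕ => 1 + C / (q : ℝ))).prod := by
  induction l with
  | nil => simp
  | cons q l ih =>
    rw [List.map_cons, List.prod_cons]
    have h1 : 0 ≤ C / (q : ℝ) := by positivity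
    nlinarith

/-- all even moments of the deviations -/
theorem rcs {K : ℕ} (k : ℕ) (hK : 1 ≤ K) : ∃ C : ℝ, 0 ≤ C ∧ ∀ (τ : ℕ → ℕ) (H : Finset ℕ),
    H.card ≤ K → ∀ T : ℝ, 1 ≤ T → ∀ (x : ℕ → ℕ) (l : List ℕ), l.Nodup →
    (∀ q ∈ l, q.Prime ∧ 2 * K ≤ q) → Tl K l ≤ T →
    Good τ H l x k (T ^ (2 * k + 2) * (l.map (fun q : ℕ => 1 + C / (q : ℝ))).prod) := by
  obtain ⟨c, hc1, hc⟩ := avg_pow k
  set C2 : ℝ := (2 : ℝ) ^ (K * (2 * k + 2)) * ((6 * K : ℝ) ^ (2 * k + 2) * 3 ^ (k + 2)) with hC2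
  set E2 : ℝ := 2 * (8 * K : ℝ) ^ 2 with hE2
  set Em : ℝ := 2 * (8 * K : ℝ) ^ (2 * k + 2) with hEm
  have hC20 : 0 ≤ C2 := by rw [hC2]; positivity
  have hE20 : 0 ≤ E2 := by rw [hE2]; positivity
  have hEm0 : 0 ≤ Em := by rw [hEm]; positivity
  have hc0 : 0 ≤ c := by linarith
  set C : ℝ := c + 2 * c * C2 + c * (2 * E2 + Em) with hC
  have hC0 : 0 ≤ C := by rw [hC]; positivity
  refine ⟨C, hC0, fun τ H hH T hT x l hnd hl hTl => ?_⟩
  induction l with
  | nil =>
    intro b D U _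
    rw [Ev_nil]
    have : dev τ H [] x b D U = 0 := by
      unfold dev
      simp [XX_nil]
    rw [this, zero_pow (by omega)]
    simp only [List.map_nil, List.prod_nil, mul_one]
    positivity
  | cons q l ih =>
    have hql : q ∉ l := (List.nodup_cons.1 hnd).1
    have hnd' := (List.nodup_cons.1 hnd).2
    have hq : q.Prime ∧ 2 * K ≤ q := hl q (by simp)
    have hl' : ∀ p ∈ l, p.Prime ∧ 2 * K ≤ p := fun p hp => hl p (by simp [hp])
    have hl4 : ∀ p ∈ l, 2 * K ≤ p := fun p hp => (hl' p hp).2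
    have hTl' : Tl K l ≤ T := (Tl_cons_le hK hq.2 hl4).trans hTl
    have hG := ih hnd' hl' hTl'
    set P : ℝ := (l.map (fun q : ℕ => 1 + C / (q : ℝ))).prod with hP
    have hP1 : 1 ≤ P := prod_ge_one C hC0 l
    have hT0 : 0 ≤ T := by linarith
    set F : ℝ := T ^ (2 * k + 2) * P with hF
    have hTm : 1 ≤ T ^ (2 * k + 2) := one_le_pow₀ hT
    have hTF : T ^ (2 * k + 2) ≤ F := by rw [hF]; nlinarith
    have hF1 : 1 ≤ F := hTm.trans hTF
    have hF0 : 0 ≤ F := by linarith
    have hq0 : 0 < q := hq.1.pos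
    have hq0' : (0 : ℝ) < q := by exact_mod_cast hq0
    intro b D U hD
    have hDq : Nat.Coprime D q := hD q (by simp)
    have hDl : ∀ p ∈ l, Nat.Coprime D p := fun p hp => hD p (by simp [hp])
    have hql' : ∀ p ∈ l, Nat.Coprime q p := fun p hp =>
      (Nat.coprime_primes hq.1 (hl' p hp).1).2 (by rintro rfl; exact hql hp)
    have hl0 : ∀ p ∈ l, 0 < p := fun p hp => (hl' p hp).1.pos
    have h0 := hG b D U hDl
    set A : ℝ := Ev l (fun a => dev τ H l a b D U ^ (2 * k + 2)) x with hA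
    have hU0 : (0 : ℝ) ≤ U := Nat.cast_nonneg U
    have hA0 : 0 ≤ A := by
      rw [hA]
      exact Ev_nonneg l (fun a => by rw [← even_abs]; positivity) x
    rw [Ev_swap q l hql]
    simp only [dev_cons τ H hql]
    have e0 : (List.map (fun q : ℕ => 1 + C / (q : ℝ)) (q :: l)).prod = (1 + C / q) * P := by
      rw [List.map_cons, List.prod_cons]
    rw [e0]
    set W : ℝ := (1 + U : ℝ) ^ (k + 1) with hW
    have hW1 : 1 ≤ W := one_le_pow₀ (by linarith)
    have hW0 : 0 ≤ W := by linarith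
    have hpt : ∀ a, (1 / (q : ℝ)) * ∑ r ∈ range q, (dev τ H l a b D U + yr τ H l a b D U q r) ^ (2 * k + 2) ≤
        dev τ H l a b D U ^ (2 * k + 2) + c * (dev τ H l a b D U ^ (2 * k) *
          ((1 / (q : ℝ)) * ∑ r ∈ range q, yr τ H l a b D U q r ^ 2) +
        (1 / (q : ℝ)) * ∑ r ∈ range q, yr τ H l a b D U q r ^ (2 * k + 2)) := fun a =>
      hc q _ (fun r => yr τ H l a b D U q r) hq0 (sum_yr hK τ hH hq.2 l a b D U)
    have hgoal : (F * W) * (1 + C / q) = T ^ (2 * k + 2) * ((1 + C / q) * P) * W := by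
      rw [hF]; ring
    rw [← hgoal]
    rcases le_or_gt q U with hqU | hqU
    · -- small moduli
      have hpt2 : ∀ a, dev τ H l a b D U ^ (2 * k + 2) + c * (dev τ H l a b D U ^ (2 * k) *
          ((1 / (q : ℝ)) * ∑ r ∈ range q, yr τ H l a b D U q r ^ 2) +
        (1 / (q : ℝ)) * ∑ r ∈ range q, yr τ H l a b D U q r ^ (2 * k + 2)) ≤
          (1 + c / q) * dev τ H l a b D U ^ (2 * k + 2) +
          (2 * c * (q : ℝ) ^ k / q) * ∑ r ∈ range q, yr τ H l a b D U q r ^ (2 * k + 2) := by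
        intro a
        have h1 : dev τ H l a b D U ^ (2 * k) * ((1 / (q : ℝ)) * ∑ r ∈ range q, yr τ H l a b D U q r ^ 2) ≤
            dev τ H l a b D U ^ (2 * k + 2) / q +
            (q : ℝ) ^ k / q * ∑ r ∈ range q, yr τ H l a b D U q r ^ (2 * k + 2) := by
          calc dev τ H l a b D U ^ (2 * k) * ((1 / (q : ℝ)) * ∑ r ∈ range q, yr τ H l a b D U q r ^ 2) =
              (1 / (q : ℝ)) * ∑ r ∈ range q, dev τ H l a b D U ^ (2 * k) * yr τ H l a b D U q r ^ 2 := by
                rw [← mul_sum]; ring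
            _ ≤ (1 / (q : ℝ)) * ∑ r ∈ range q, (dev τ H l a b D U ^ (2 * k + 2) / q +
                (q : ℝ) ^ k * yr τ H l a b D U q r ^ (2 * k + 2)) := by
                gcongr with r _; exact young1 k hq0'
            _ = _ := by
                rw [sum_add_distrib, sum_const, card_range, nsmul_eq_mul, ← mul_sum]
                field_simp
        have h2 : (1 / (q : ℝ)) * ∑ r ∈ range q, yr τ H l a b D U q r ^ (2 * k + 2) ≤
            (q : ℝ) ^ k / q * ∑ r ∈ range q, yr τ H l a b D U q r ^ (2 * k + 2) := by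
          have h3 : 0 ≤ ∑ r ∈ range q, yr τ H l a b D U q r ^ (2 * k + 2) :=
            sum_nonneg fun r _ => by rw [← even_abs]; positivity
          have h4 : (1 : ℝ) ≤ (q : ℝ) ^ k := one_le_pow₀ (by exact_mod_cast hq0)
          gcongr
        calc dev τ H l a b D U ^ (2 * k + 2) + c * (dev τ H l a b D U ^ (2 * k) *
          ((1 / (q : ℝ)) * ∑ r ∈ range q, yr τ H l a b D U q r ^ 2) +
          (1 / (q : ℝ)) * ∑ r ∈ range q, yr τ H l a b D U q r ^ (2 * k + 2)) ≤
          dev τ H l a b D U ^ (2 * k + 2) + c * ((dev τ H l a b D U ^ (2 * k + 2) / q +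
            (q : ℝ) ^ k / q * ∑ r ∈ range q, yr τ H l a b D U q r ^ (2 * k + 2)) +
            (q : ℝ) ^ k / q * ∑ r ∈ range q, yr τ H l a b D U q r ^ (2 * k + 2)) := by gcongr
          _ = _ := by ring
      refine (Ev_mono l (fun a => (hpt a).trans (hpt2 a)) x).trans ?_
      rw [Ev_add, Ev_mul, Ev_mul, Ev_sum]
      have h5 : ∀ r ∈ range q, Ev l (fun a => yr τ H l a b D U q r ^ (2 * k + 2)) x ≤
          C2 * F * ((U : ℝ) / q) ^ (k + 1) := fun r hr =>
        yr_moment hK τ hH hq.2 l x hF1 hl0 hql' hG hDq hDl b U r hqU (mem_range.1 hr)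
      have h6 : ∑ r ∈ range q, Ev l (fun a => yr τ H l a b D U q r ^ (2 * k + 2)) x ≤
          q * (C2 * F * ((U : ℝ) / q) ^ (k + 1)) := by
        refine (sum_le_sum h5).trans (le_of_eq ?_)
        rw [sum_const, card_range, nsmul_eq_mul]
      have h7 : (2 * c * (q : ℝ) ^ k / q) * (q * (C2 * F * ((U : ℝ) / q) ^ (k + 1))) =
          2 * c * C2 / q * (F * (U : ℝ) ^ (k + 1)) := by
        rw [div_pow, pow_succ (q : ℝ) k]
        field_simp
      have h8 : (U : ℝ) ^ (k + 1) ≤ W := by rw [hW]; gcongr; linarith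
      calc (1 + c / q) * A + (2 * c * (q : ℝ) ^ k / q) *
            ∑ r ∈ range q, Ev l (fun a => yr τ H l a b D U q r ^ (2 * k + 2)) x ≤
          (1 + c / q) * (F * W) + (2 * c * (q : ℝ) ^ k / q) * (q * (C2 * F * ((U : ℝ) / q) ^ (k + 1))) := by
            gcongr
        _ = (1 + c / q) * (F * W) + 2 * c * C2 / q * (F * (U : ℝ) ^ (k + 1)) := by rw [h7]
        _ ≤ (1 + c / q) * (F * W) + 2 * c * C2 / q * (F * W) := by gcongr
        _ = (F * W) * (1 + (c + 2 * c * C2) / q) := by ring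
        _ ≤ (F * W) * (1 + C / q) := by
            have : c + 2 * c * C2 ≤ C := by
              rw [hC]
              have : 0 ≤ c * (2 * E2 + Em) := by positivity
              linarith
            gcongr
    · -- large moduli
      have hU' : U ≤ q := hqU.le
      have hpt2 : ∀ a, dev τ H l a b D U ^ (2 * k + 2) + c * (dev τ H l a b D U ^ (2 * k) *
          ((1 / (q : ℝ)) * ∑ r ∈ range q, yr τ H l a b D U q r ^ 2) +
        (1 / (q : ℝ)) * ∑ r ∈ range q, yr τ H l a b D U q r ^ (2 * k + 2)) ≤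
          (1 + c * E2 / q) * dev τ H l a b D U ^ (2 * k + 2) +
          c * (E2 + Em) / q * (T ^ (2 * k + 2) * W) := by
        intro a
        have h1 : (1 / (q : ℝ)) * ∑ r ∈ range q, yr τ H l a b D U q r ^ 2 ≤ E2 * T ^ 2 * U / q := by
          have := avg_yr (n := 1) hK τ hH hq.2 l hl4 hTl' a b D U hDq hU'
          simpa [sq_abs] using this
        have h2 : (1 / (q : ℝ)) * ∑ r ∈ range q, yr τ H l a b D U q r ^ (2 * k + 2) ≤
            Em * T ^ (2 * k + 2) * U / q := by
          have := avg_yr (n := 2 * k + 1) hK τ hH hq.2 l hl4 hTl' a b D U hDq hU'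
          have e1 : 2 * k + 1 + 1 = 2 * k + 2 := by ring
          rw [e1] at this
          simpa [even_abs] using this
        set d : ℝ := dev τ H l a b D U with hd
        have hd0 : 0 ≤ d ^ (2 * k) := by rw [pow_mul]; positivity
        have hdm : 0 ≤ d ^ (2 * k + 2) := by rw [← even_abs]; positivity
        have hM : 0 < T ^ 2 * (1 + U : ℝ) := by positivity
        have h3 := young2 k (x := d) hM
        have h4 : d ^ (2 * k) * (E2 * T ^ 2 * U / q) ≤
            E2 / q * (d ^ (2 * k + 2) + T ^ (2 * k + 2) * W) := by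
          have h5 : d ^ (2 * k) * (E2 * T ^ 2 * U / q) ≤
              (d ^ (2 * k + 2) / (T ^ 2 * (1 + U : ℝ)) + (T ^ 2 * (1 + U : ℝ)) ^ k) *
                (E2 * T ^ 2 * (1 + U) / q) := by
            gcongr
            linarith
          have h6 : (d ^ (2 * k + 2) / (T ^ 2 * (1 + U : ℝ)) + (T ^ 2 * (1 + U : ℝ)) ^ k) *
                (E2 * T ^ 2 * (1 + U) / q) = E2 / q * (d ^ (2 * k + 2) + T ^ (2 * k + 2) * W) := by
            have hT' : T ≠ 0 := by linarith
            have h1U : (1 + U : ℝ) ≠ 0 := by positivity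
            have e1 : (T ^ 2 * (1 + U : ℝ)) ^ k * (T ^ 2 * (1 + U)) = T ^ (2 * k + 2) * W := by
              rw [← pow_succ, mul_pow, ← pow_mul, hW]
              ring_nf
            calc (d ^ (2 * k + 2) / (T ^ 2 * (1 + U : ℝ)) + (T ^ 2 * (1 + U : ℝ)) ^ k) *
                (E2 * T ^ 2 * (1 + U) / q) = E2 / q * (d ^ (2 * k + 2) *
                ((T ^ 2 * (1 + U)) / (T ^ 2 * (1 + U : ℝ))) + (T ^ 2 * (1 + U : ℝ)) ^ k * (T ^ 2 * (1 + U))) := by
                  ring
              _ = _ := by rw [e1, div_self hM.ne', mul_one]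
          linarith
        have h7 : Em * T ^ (2 * k + 2) * U / q ≤ Em / q * (T ^ (2 * k + 2) * W) := by
          have h8 : (U : ℝ) ≤ W := by
            rw [hW]
            calc (U : ℝ) ≤ (1 + U) ^ 1 := by rw [pow_one]; linarith
              _ ≤ (1 + U : ℝ) ^ (k + 1) := pow_le_pow_right₀ (by linarith) (by omega)
          calc Em * T ^ (2 * k + 2) * U / q = Em / q * (T ^ (2 * k + 2) * U) := by ring
            _ ≤ _ := by gcongr
        calc d ^ (2 * k + 2) + c * (d ^ (2 * k) * ((1 / (q : ℝ)) * ∑ r ∈ range q, yr τ H l a b D U q r ^ 2) +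
            (1 / (q : ℝ)) * ∑ r ∈ range q, yr τ H l a b D U q r ^ (2 * k + 2)) ≤
            d ^ (2 * k + 2) + c * (d ^ (2 * k) * (E2 * T ^ 2 * U / q) + Em * T ^ (2 * k + 2) * U / q) := by
              gcongr
          _ ≤ d ^ (2 * k + 2) + c * (E2 / q * (d ^ (2 * k + 2) + T ^ (2 * k + 2) * W) +
              Em / q * (T ^ (2 * k + 2) * W)) := by gcongr
          _ = _ := by ring
      refine (Ev_mono l (fun a => (hpt a).trans (hpt2 a)) x).trans ?_
      rw [Ev_add, Ev_mul, Ev_const l hl0]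
      calc (1 + c * E2 / q) * A + c * (E2 + Em) / q * (T ^ (2 * k + 2) * W) ≤
          (1 + c * E2 / q) * (F * W) + c * (E2 + Em) / q * (F * W) := by gcongr
        _ = (F * W) * (1 + c * (2 * E2 + Em) / q) := by ring
        _ ≤ (F * W) * (1 + C / q) := by
            have : c * (2 * E2 + Em) ≤ C := by
              rw [hC]
              have : 0 ≤ c + 2 * c * C2 := by positivity
              linarith
            gcongr

end Pool.Agent.H532.SR
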