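import Mathlib
import Pool.Agent.H532.SR.Rcs
import Pool.Agent.H532.UT.Fam
import Pool.Agent.H532.UT.Lim

/-!
Almost sure bounds for the deviations.
-/

namespace Pool.Agent.H532.SR

open Finset Filter MeasureTheory Function Pool.Agent.H532.RM
open Pool.Agent.H532.UT (nu nu_le Hs mem_Hs card_Hs_le)
open Pool.Agent.H532.UN (ss ss_nonneg ss_le_log)
open scoped Topology ENNReal

lemma dep_dev (τ : ℕ → ℕ) (H : Finset ℕ) (s : Finset ℕ) (b D U : ℕ) :
    DepOn s (fun a => dev τ H s.toList a b D U) := by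
  intro a a' h
  show dev τ H s.toList a b D U = dev τ H s.toList a' b D U
  unfold dev
  refine sum_congr rfl fun t _ => ?_
  congr 1
  unfold XX
  congr 1
  refine List.map_congr_left fun p hp => ?_
  rw [h p (mem_toList.1 hp)]

section
variable {Ω : Type} [MeasurableSpace Ω] {μ : Measure Ω} [IsProbabilityMeasure μ]
  {A : ℕ → Ω → ℕ}

/-- the tail of one deviation -/
lemma markov (hA : RandomClasses μ A) {k : ℕ} (τ : ℕ → ℕ) {H s : Finset ℕ}
    (hs : ∀ p ∈ s, p.Prime) {F : ℝ} (hF : 0 ≤ F) (hG : ∀ x, Good τ H s.toList x k F) {b D U : ℕ}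
    (hD : ∀ p ∈ s, Nat.Coprime D p) {L : ℝ} (hL : 0 < L) :
    μ {ω | L ^ 2 * (1 + U : ℝ) < dev τ H s.toList (fun p => A p ω) b D U ^ 2} ≤
      ENNReal.ofReal (F / L ^ (2 * k + 2)) := by
  have hprob := fun p => law_prob hA p
  set f : (ℕ → ℕ) → ℝ := fun a => dev τ H s.toList a b D U ^ (2 * k + 2) with hf
  have hf0 : ∀ a, 0 ≤ f a := fun a => by rw [hf]; simp only; rw [← even_abs]; positivity
  have hdep : DepOn s f := by
    intro a a' h
    have := dep_dev τ H s b D U a a' h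
    simp only at this
    rw [hf]
    simp only
    rw [this]
  have hlm : ∀ x, lmarginal (law μ A) s (fun a => ENNReal.ofReal (f a)) x ≤
      ENNReal.ofReal (F * (1 + U : ℝ) ^ (k + 1)) := by
    intro x
    have h1 := lm_Ev (law μ A) s.toList s.nodup_toList
      (fun p hp => law_unif hA (hs p (mem_toList.1 hp)))
      (fun p hp => (hs p (mem_toList.1 hp)).pos) f hf0 s hdep x
    rw [toList_toFinset] at h1
    rw [h1]
    exact ENNReal.ofReal_le_ofReal (hG x b D U fun p hp => hD p (mem_toList.1 hp))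
  have h2 := lintegral_le_of_lmarginal hA s s hs (Subset.refl _) (fun a => ENNReal.ofReal (f a))
    (by
      intro a a' h
      simp only
      rw [hdep a a' h]) _ hlm
  have hmA : Measurable (fun ω (p : ℕ) => A p ω) := measurable_pi_lambda _ fun p => hA.meas p
  have hmf : Measurable (fun ω => ENNReal.ofReal (f (fun p => A p ω))) :=
    (ENNReal.measurable_ofReal.comp hdep.measurable).comp hmA
  have hpos : 0 < L ^ (2 * k + 2) * (1 + U : ℝ) ^ (k + 1) := by positivity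
  have h3 : {ω | L ^ 2 * (1 + U : ℝ) < dev τ H s.toList (fun p => A p ω) b D U ^ 2} ⊆
      {ω | ENNReal.ofReal (L ^ (2 * k + 2) * (1 + U : ℝ) ^ (k + 1)) ≤
        ENNReal.ofReal (f (fun p => A p ω))} := by
    intro ω hω
    refine ENNReal.ofReal_le_ofReal ?_
    have e1 : L ^ (2 * k + 2) * (1 + U : ℝ) ^ (k + 1) = (L ^ 2 * (1 + U : ℝ)) ^ (k + 1) := by
      rw [mul_pow, ← pow_mul]
      congr 2
    have e2 : f (fun p => A p ω) = (dev τ H s.toList (fun p => A p ω) b D U ^ 2) ^ (k + 1) := by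
      rw [hf, ← pow_mul]
      simp only
      congr 1
    rw [e1, e2]
    have h4 : L ^ 2 * (1 + U : ℝ) < dev τ H s.toList (fun p => A p ω) b D U ^ 2 := hω
    gcongr
  refine (measure_mono h3).trans ?_
  refine (meas_ge_le_lintegral_div hmf.aemeasurable (by
    rw [Ne, ENNReal.ofReal_eq_zero, not_le]; exact hpos) ENNReal.ofReal_ne_top).trans ?_
  calc (∫⁻ ω, ENNReal.ofReal (f (fun p => A p ω)) ∂μ) /
        ENNReal.ofReal (L ^ (2 * k + 2) * (1 + U : ℝ) ^ (k + 1)) ≤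
      ENNReal.ofReal (F * (1 + U : ℝ) ^ (k + 1)) /
        ENNReal.ofReal (L ^ (2 * k + 2) * (1 + U : ℝ) ^ (k + 1)) := by gcongr
    _ = ENNReal.ofReal (F * (1 + U : ℝ) ^ (k + 1) / (L ^ (2 * k + 2) * (1 + U : ℝ) ^ (k + 1))) :=
      (ENNReal.ofReal_div_of_pos hpos).symm
    _ = ENNReal.ofReal (F / L ^ (2 * k + 2)) := by
      congr 1
      rw [mul_div_mul_right]
      positivity

/-- the union over a family -/
lemma ae_family {ι : Type} (I : ℕ → Finset ι) (B : ℕ → ι → Set Ω) (p : ℕ → ℝ)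
    (h : ∀ᶠ j : ℕ in atTop, ∀ i ∈ I j, μ (B j i) ≤ ENNReal.ofReal (p j))
    (hp : ∀ᶠ j : ℕ in atTop, ((I j).card : ℝ) * p j ≤ 1 / (j : ℝ) ^ 2) :
    ∀ᵐ ω ∂μ, ∀ᶠ j : ℕ in atTop, ∀ i ∈ I j, ω ∉ B j i := by
  have hBC : ∀ᶠ j : ℕ in atTop, μ (⋃ i ∈ I j, B j i) ≤ ENNReal.ofReal (1 / (j : ℝ) ^ 2) := by
    filter_upwards [h, hp] with j h1 h2
    calc μ (⋃ i ∈ I j, B j i) ≤ ∑ i ∈ I j, μ (B j i) := measure_biUnion_finset_le _ _
      _ ≤ ∑ i ∈ I j, ENNReal.ofReal (p j) := sum_le_sum h1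
      _ = ENNReal.ofReal (((I j).card : ℝ) * p j) := by
        rw [sum_const, nsmul_eq_mul, ENNReal.ofReal_mul (Nat.cast_nonneg _), ENNReal.ofReal_natCast]
      _ ≤ _ := ENNReal.ofReal_le_ofReal h2
  filter_upwards [borel_cantelli_sq μ _ hBC] with ω hω
  filter_upwards [hω] with j hj i hi hcon
  exact hj (Set.mem_biUnion (mem_coe.2 hi) hcon)

end

/-- the primes `≤ Z` which are at least `2 K` and do not divide `D` -/
def pl (K Z D : ℕ) : Finset ℕ := (primesLe Z).filter (fun p => 2 * K ≤ p ∧ ¬ p ∣ D)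

lemma mem_pl {K Z D p : ℕ} : p ∈ pl K Z D ↔ (p ≤ Z ∧ p.Prime) ∧ 2 * K ≤ p ∧ ¬ p ∣ D := by
  unfold pl
  rw [mem_filter, mem_primesLe]

lemma ss_primesLe (Z : ℕ) : ss (primesLe Z) ≤ Real.log (1 / V Z) := by
  have h1 := ss_le_log (Nat.zero_le Z)
  have h2 : bigP 0 Z = primesLe Z := by
    ext p
    rw [mem_bigP, mem_primesLe]
    exact ⟨fun h => h.1, fun h => ⟨h, h.2.pos⟩⟩
  have h3 : V 0 = 1 := by
    unfold V
    refine prod_eq_one fun p hp => ?_
    obtain ⟨h4, h5⟩ := mem_primesLe.1 hp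
    have := h5.pos
    omega
  rw [h2, h3] at h1
  exact h1

lemma ss_mono {P Q : Finset ℕ} (h : P ⊆ Q) : ss P ≤ ss Q := by
  unfold ss
  exact sum_le_sum_of_subset_of_nonneg h fun p _ _ => by positivity

/-- the weights -/
lemma Tl_pl {K : ℕ} (hK : 1 ≤ K) (Z D : ℕ) :
    Tl K (pl K Z D).toList ≤ Real.exp (2 * K * ss (primesLe Z)) := by
  unfold Tl
  rw [prod_map_toList]
  have h1 : ∀ p ∈ pl K Z D, 1 / (1 - (K : ℝ) / p) ≤ Real.exp (2 * K * (1 / p)) := by
    intro p hp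
    have h2 := (mem_pl.1 hp).2.1
    obtain ⟨h3, h4, h5⟩ := nu_half hK (S := ∅) (by simp) h2
    have h6 : 0 ≤ (K : ℝ) / p := h3.trans h4
    have h7 := Pool.Agent.H532.UT.exp_le_one_sub h6 h5
    have h8 : (0 : ℝ) < 1 - K / p := by linarith
    rw [div_le_iff₀ h8]
    calc (1 : ℝ) = Real.exp (2 * K * (1 / p)) * Real.exp (-(2 * (K / p))) := by
          rw [← Real.exp_add]
          have : 2 * (K : ℝ) * (1 / p) + -(2 * (K / p)) = 0 := by ring
          rw [this, Real.exp_zero]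
      _ ≤ _ := by gcongr
  have h2 : ∀ p ∈ pl K Z D, 0 ≤ 1 / (1 - (K : ℝ) / p) := by
    intro p hp
    have h2 := (mem_pl.1 hp).2.1
    obtain ⟨h3, h4, h5⟩ := nu_half hK (S := ∅) (by simp) h2
    have h8 : (0 : ℝ) < 1 - K / p := by linarith
    positivity
  refine (prod_le_prod h2 h1).trans ?_
  rw [← Real.exp_sum]
  refine Real.exp_le_exp.2 ?_
  rw [← mul_sum]
  gcongr
  exact ss_mono (filter_subset _ _)

lemma prod_pl {C : ℝ} (hC : 0 ≤ C) (K Z D : ℕ) :
    ((pl K Z D).toList.map (fun q : ℕ => 1 + C / (q : ℝ))).prod ≤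
      Real.exp (C * ss (primesLe Z)) := by
  rw [prod_map_toList]
  have h1 : ∀ p ∈ pl K Z D, 1 + C / (p : ℝ) ≤ Real.exp (C * (1 / p)) := by
    intro p _
    have := Real.add_one_le_exp (C * (1 / (p : ℝ)))
    have e : C * (1 / (p : ℝ)) = C / p := by ring
    rw [e] at this ⊢
    linarith
  have h2 : ∀ p ∈ pl K Z D, 0 ≤ 1 + C / (p : ℝ) := fun p _ => by positivity
  refine (prod_le_prod h2 h1).trans ?_
  rw [← Real.exp_sum]
  refine Real.exp_le_exp.2 ?_
  rw [← mul_sum]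
  gcongr
  exact ss_mono (filter_subset _ _)

end Pool.Agent.H532.SR
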