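import Mathlib
import Pool.Agent.H532.SR.Prb

/-!
The square-root bound for all patterns, progressions and intervals, almost surely.
-/

namespace Pool.Agent.H532.SR

open Finset Filter MeasureTheory Function Pool.Agent.H532.RM
open Pool.Agent.H532.UT (nu nu_le Hs mem_Hs card_Hs_le)
open Pool.Agent.H532.UN (ss ss_nonneg ss_le_log)
open scoped Topology ENNReal

/-- sieving limits of the right order -/
def Lim1 (z : ℕ → ℕ) : Prop := Tendsto (fun n : ℕ => V (z n) * Real.log n) atTop (𝓝 1)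

lemma ss_ev {z : ℕ → ℕ} (hz : Lim1 z) : ∀ᶠ j : ℕ in atTop,
    ss (primesLe (z (2 ^ (j + 3)))) ≤ Real.log (8 * j) := by
  have h1 : Tendsto (fun j : ℕ => 2 ^ (j + 3)) atTop atTop := by
    refine (tendsto_pow_atTop_atTop_of_one_lt (r := 2) (by norm_num)).comp ?_
    exact tendsto_add_atTop_nat 3
  have h2 := hz.comp h1
  have h3 := h2.eventually (lt_mem_nhds (show (1 / 2 : ℝ) < 1 by norm_num))
  filter_upwards [h3, eventually_ge_atTop 3] with j hj hj3
  simp only [Function.comp] at hj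
  refine (ss_primesLe _).trans ?_
  have hV := V_pos (z (2 ^ (j + 3)))
  have hj3' : (3 : ℝ) ≤ j := by exact_mod_cast hj3
  refine Real.log_le_log (by positivity) ?_
  rw [div_le_iff₀ hV]
  have h4 : Real.log ((2 ^ (j + 3) : ℕ) : ℝ) ≤ 2 * j := by
    push_cast
    rw [Real.log_pow]
    have h5 := Real.log_two_lt_d9
    have h6 := Real.log_two_gt_d9
    push_cast
    nlinarith
  nlinarith

theorem ae_dev {Ω : Type} [MeasurableSpace Ω] {μ : Measure Ω} [IsProbabilityMeasure μ]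
    {A : ℕ → Ω → ℕ} (hA : RandomClasses μ A) {z : ℕ → ℕ} (hz : Lim1 z) {K : ℕ} (hK : 1 ≤ K)
    {ε : ℝ} (hε : 0 < ε) (τ : ℕ → ℕ) :
    ∀ᵐ ω ∂μ, ∀ᶠ j : ℕ in atTop, ∀ H : Finset ℕ, H.card ≤ K → (∀ i ∈ H, i < 2 ^ (j + 2)) →
      ∀ b D U : ℕ, b < 2 ^ (j + 3) → D < 2 ^ (j + 3) → U < 2 ^ (j + 3) →
      |dev τ H (pl K (z (2 ^ (j + 3))) D).toList (fun p => A p ω) b D U| ≤
        Real.exp (ε * j) * Real.sqrt (1 + U) := by
  set k : ℕ := ⌈(3 * K + 9) / ε⌉₊ with hk
  have hkε : (3 * K + 9 : ℝ) ≤ ε * (2 * k + 2 : ℕ) := by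
    have h1 : (3 * K + 9 : ℝ) / ε ≤ k := Nat.le_ceil _
    rw [div_le_iff₀ hε] at h1
    push_cast
    have h2 : (0 : ℝ) ≤ k := Nat.cast_nonneg k
    nlinarith
  obtain ⟨C, hC, hrcs⟩ := rcs k hK
  set B0 : ℝ := 2 * K * (2 * k + 2 : ℕ) + C with hB0
  have hB00 : 0 ≤ B0 := by rw [hB0]; positivity
  set I : ℕ → Finset (Finset ℕ × ℕ × ℕ × ℕ) := fun j =>
    (Hs K (2 ^ (j + 2))) ×ˢ (range (2 ^ (j + 3)) ×ˢ (range (2 ^ (j + 3)) ×ˢ range (2 ^ (j + 3)))) with hI
  set Bd : ℕ → (Finset ℕ × ℕ × ℕ × ℕ) → Set Ω := fun j i => {ω | Real.exp (ε * j) ^ 2 * (1 + (i.2.2.2 : ℕ) : ℝ) <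
    dev τ i.1 (pl K (z (2 ^ (j + 3))) i.2.2.1).toList (fun p => A p ω) i.2.1 i.2.2.1 i.2.2.2 ^ 2} with hBd
  set p : ℕ → ℝ := fun j => Real.exp (B0 * ss (primesLe (z (2 ^ (j + 3))))) /
    Real.exp (ε * j) ^ (2 * k + 2) with hp
  have hone : ∀ᶠ j : ℕ in atTop, ∀ i ∈ I j, μ (Bd j i) ≤ ENNReal.ofReal (p j) := by
    filter_upwards with j i hi
    obtain ⟨H, b, D, U⟩ := i
    simp only [hI, mem_product, mem_range] at hi
    obtain ⟨hH, hb, hD, hU⟩ := hi
    obtain ⟨hHc, hHi⟩ := mem_Hs.1 hH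
    simp only [hBd, hp]
    set Z := z (2 ^ (j + 3)) with hZ
    set s := pl K Z D with hs
    set S := ss (primesLe Z) with hS
    have hS0 : 0 ≤ S := ss_nonneg _
    have hF : ∀ x, Good τ H s.toList x k (Real.exp (B0 * S)) := by
      intro x b' D' U' hc
      have h1 := hrcs τ H hHc (Real.exp (2 * K * S)) (Real.one_le_exp (by positivity)) x s.toList
        s.nodup_toList (fun q hq => by
          have := mem_pl.1 (mem_toList.1 hq)
          exact ⟨this.1.2, this.2.1⟩) (Tl_pl hK Z _) b' D' U' hc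
      refine h1.trans ?_
      have h2 := prod_pl hC K Z D
      rw [← hs] at h2
      have h3 : Real.exp (B0 * S) = Real.exp (2 * K * S) ^ (2 * k + 2) * Real.exp (C * S) := by
        rw [← Real.exp_nat_mul, ← Real.exp_add, hB0]
        congr 1
        push_cast
        ring
      rw [h3]
      gcongr
    have h4 := markov hA τ (s := s) (fun q hq => (mem_pl.1 hq).1.2) (Real.exp_nonneg _) hF
      (b := b) (D := D) (U := U) (fun q hq => by
        have h5 := mem_pl.1 hq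
        rw [Nat.coprime_comm]
        exact (Nat.Prime.coprime_iff_not_dvd h5.1.2).2 h5.2.2) (Real.exp_pos (ε * j))
    exact h4
  have htot : ∀ᶠ j : ℕ in atTop, ((I j).card : ℝ) * p j ≤ 1 / (j : ℝ) ^ 2 := by
    have hr : Tendsto (fun j : ℕ => (j : ℝ)) atTop atTop := tendsto_natCast_atTop_atTop
    have hlog := (Real.isLittleO_log_id_atTop.comp_tendsto (hr.const_mul_atTop (show (0 : ℝ) < 8 by norm_num))).bound
      (show 0 < 1 / (8 * (B0 + 1)) by positivity)
    filter_upwards [ss_ev hz, hlog, hr.eventually_ge_atTop 3,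
      Pool.Agent.H532.UN.pow_le_exp 2 1 one_pos] with j h1 h2 h3 h4
    simp only [Function.comp, id, Real.norm_eq_abs] at h2
    rw [abs_of_nonneg (Real.log_nonneg (by linarith)), abs_of_nonneg (by linarith)] at h2
    have hjn : 3 ≤ j := by exact_mod_cast h3
    have hcard : ((I j).card : ℝ) ≤ Real.exp ((3 * K + 7) * j) := by
      have e1 : (I j).card = (Hs K (2 ^ (j + 2))).card * (2 ^ (j + 3) * (2 ^ (j + 3) * 2 ^ (j + 3))) := by
        simp only [hI, card_product, card_range]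
      have e2 : (Hs K (2 ^ (j + 2))).card ≤ (K + 1) * (2 ^ (j + 2)) ^ K :=
        card_Hs_le Nat.one_le_two_pow
      have e3 : (I j).card ≤ ((K + 1) * (2 ^ (j + 2)) ^ K) * (2 ^ (j + 3) * (2 ^ (j + 3) * 2 ^ (j + 3))) := by
        rw [e1]; gcongr
      have e4 : K + 1 ≤ 2 ^ (K * j) := by
        calc K + 1 ≤ 2 ^ K := Nat.lt_two_pow_self
          _ ≤ 2 ^ (K * j) := Nat.pow_le_pow_right (by norm_num) (by nlinarith)
      have e5 : (2 ^ (j + 2)) ^ K ≤ 2 ^ (2 * j * K) := by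
        rw [← pow_mul]
        exact Nat.pow_le_pow_right (by norm_num) (by nlinarith)
      have e6 : 2 ^ (j + 3) ≤ 2 ^ (2 * j) := Nat.pow_le_pow_right (by norm_num) (by omega)
      have e7 : (I j).card ≤ 2 ^ ((3 * K + 6) * j) := by
        calc (I j).card ≤ _ := e3
          _ ≤ (2 ^ (K * j) * 2 ^ (2 * j * K)) * (2 ^ (2 * j) * (2 ^ (2 * j) * 2 ^ (2 * j))) := by gcongr
          _ = 2 ^ ((3 * K + 6) * j) := by rw [← pow_add, ← pow_add, ← pow_add, ← pow_add]; ring_nf
      have h7 : (2 : ℝ) ≤ Real.exp 1 := by have := Real.exp_one_gt_d9; linarith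
      calc ((I j).card : ℝ) ≤ (2 : ℝ) ^ ((3 * K + 6) * j) := by exact_mod_cast e7
        _ ≤ Real.exp 1 ^ ((3 * K + 6) * j) := by gcongr
        _ = Real.exp ((3 * K + 6) * j) := by rw [← Real.exp_nat_mul]; congr 1; push_cast; ring
        _ ≤ _ := by
          refine Real.exp_le_exp.2 ?_
          gcongr
          norm_num
    have hp1 : p j ≤ Real.exp (1 * j) * Real.exp (-((3 * K + 9) * j)) := by
      have e1 : p j = Real.exp (B0 * ss (primesLe (z (2 ^ (j + 3))))) *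
          Real.exp (-(ε * (2 * k + 2 : ℕ) * j)) := by
        simp only [hp]
        rw [← Real.exp_nat_mul, div_eq_mul_inv, ← Real.exp_neg]
        congr 2
        ring
      rw [e1]
      have e2 : B0 * ss (primesLe (z (2 ^ (j + 3)))) ≤ 1 * j := by
        have e3 : B0 * ss (primesLe (z (2 ^ (j + 3)))) ≤ B0 * (1 / (8 * (B0 + 1)) * (8 * j)) := by
          gcongr
          exact h1.trans h2
        have e4 : B0 * (1 / (8 * (B0 + 1)) * (8 * j)) = B0 / (B0 + 1) * j := by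
          field_simp
        have e5 : B0 / (B0 + 1) ≤ 1 := by
          rw [div_le_one (by positivity)]; linarith
        have e6 : B0 / (B0 + 1) * j ≤ 1 * j := by gcongr
        linarith
      have e7 : (3 * K + 9) * (j : ℝ) ≤ ε * (2 * k + 2 : ℕ) * j := by gcongr
      gcongr
    have hp0 : 0 ≤ p j := by simp only [hp]; positivity
    rw [le_div_iff₀ (by positivity)]
    have h4' : (j : ℝ) ^ 2 ≤ Real.exp (1 * j) := h4
    calc ((I j).card : ℝ) * p j * (j : ℝ) ^ 2 ≤ Real.exp ((3 * K + 7) * j) *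
        (Real.exp (1 * j) * Real.exp (-((3 * K + 9) * j))) * Real.exp (1 * j) := by gcongr
      _ = Real.exp 0 := by
        rw [← Real.exp_add, ← Real.exp_add, ← Real.exp_add]
        congr 1
        ring
      _ = 1 := Real.exp_zero
  filter_upwards [ae_family I Bd p hone htot] with ω hω
  filter_upwards [hω] with j hj H hH hHi b D U hb hD hU
  have h1 := hj (H, b, D, U) (by
    simp only [hI, mem_product, mem_range]
    exact ⟨mem_Hs.2 ⟨hH, hHi⟩, hb, hD, hU⟩)
  simp only [hBd, Set.mem_setOf_eq, not_lt] at h1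
  refine abs_le_of_sq_le_sq ?_ (by positivity)
  rw [mul_pow, Real.sq_sqrt (by positivity)]
  exact h1

end Pool.Agent.H532.SR
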