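import Mathlib
import Pool.Agent.H532.SR.Fam
import Pool.Agent.H532.RM.AP5

/-!
The thresholds and the random sieve.
-/

namespace Pool.Agent.H532.SR

open Finset Filter MeasureTheory Function Pool.Agent.H532.RM
open Pool.Agent.H532.UT (nu nu_le)
open scoped Topology ENNReal

/-- the first integer which is sieved by `p` -/
noncomputable def thr (z : ℕ → ℕ) (p : ℕ) : ℕ := sInf {n | p ≤ z n}

lemma thr_le {z : ℕ → ℕ} (hz : Monotone z) (ht : Tendsto z atTop atTop) (p n : ℕ) :
    thr z p ≤ n ↔ p ≤ z n := by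
  have hne : {n | p ≤ z n}.Nonempty := by
    obtain ⟨N, hN⟩ := eventually_atTop.1 (ht.eventually_ge_atTop p)
    exact ⟨N, hN N le_rfl⟩
  constructor
  · intro h
    have h1 : p ≤ z (thr z p) := Nat.sInf_mem hne
    exact h1.trans (hz h)
  · intro h
    exact Nat.sInf_le h

lemma act_iff {z : ℕ → ℕ} (hz : Monotone z) (ht : Tendsto z atTop atTop) (H : Finset ℕ) (p n : ℕ) :
    act (thr z) H p n = H.filter (fun i => p ≤ z (n + i)) := by
  unfold act
  refine filter_congr fun i _ => ?_
  exact thr_le hz ht p (n + i)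

lemma Lim1.tendsto {z : ℕ → ℕ} (hz : Lim1 z) : Tendsto z atTop atTop := by
  refine tendsto_atTop.2 fun B => ?_
  have h1 := hz.eventually (gt_mem_nhds (show (1 : ℝ) < 2 by norm_num))
  have h2 : Tendsto (fun n : ℕ => V B * Real.log n) atTop atTop :=
    (Real.tendsto_log_atTop.comp tendsto_natCast_atTop_atTop).const_mul_atTop (V_pos B)
  filter_upwards [h1, h2.eventually_ge_atTop 2, eventually_ge_atTop 1] with n h3 h4 h5
  by_contra hcon
  push Not at hcon
  have h6 := V_anti hcon.le
  have h7 : (0 : ℝ) ≤ Real.log n := Real.log_natCast_nonneg n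
  have : V B * Real.log n ≤ V (z n) * Real.log n := by gcongr
  linarith

/-- the factor for the single shift `0` -/
lemma phi_zero {z : ℕ → ℕ} (hz : Monotone z) (ht : Tendsto z atTop atTop) (p n r : ℕ) :
    phi (thr z) {0} p n r = if p ≤ z n then (if n % p = r then 0 else 1 / (1 - 1 / (p : ℝ))) else 1 := by
  classical
  unfold phi
  rw [act_iff hz ht]
  by_cases h : p ≤ z n
  · have h1 : ({0} : Finset ℕ).filter (fun i => p ≤ z (n + i)) = {0} := by
      ext i
      simp only [mem_filter, mem_singleton]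
      constructor
      · exact fun h => h.1
      · rintro rfl; exact ⟨rfl, by simpa using h⟩
    rw [h1, if_pos h]
    have h2 : nu {0} p = 1 := by
      unfold nu
      rw [image_singleton, card_singleton]
    rw [h2]
    by_cases h3 : n % p = r
    · rw [if_pos h3, if_pos ⟨0, by simp, by simpa using h3⟩]
    · rw [if_neg h3, if_neg]
      · simp
      · rintro ⟨i, hi, h4⟩
        rw [mem_singleton] at hi
        subst hi
        exact h3 (by simpa using h4)
  · have h1 : ({0} : Finset ℕ).filter (fun i => p ≤ z (n + i)) = ∅ := by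
      ext i
      simp only [mem_filter, mem_singleton, notMem_empty, iff_false, not_and]
      rintro rfl
      simpa using h
    rw [h1, if_neg h]
    rw [if_neg]
    · have : nu ∅ p = 0 := by unfold nu; simp
      rw [this]; simp
    · rintro ⟨i, hi, _⟩
      exact absurd hi (notMem_empty i)

open Classical in
/-- the normalised indicator function for the single shift `0` -/
lemma XX_zero {z : ℕ → ℕ} (hz : Monotone z) (ht : Tendsto z atTop atTop) (q Z : ℕ) (a : ℕ → ℕ)
    (n : ℕ) (hn : z n ≤ Z) : Vq q (z n) * XX (thr z) {0} (pl 1 Z q).toList a n =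
      if ∀ p ∈ Qs q (z n), n % p ≠ a p then 1 else 0 := by
  have e0 : XX (thr z) {0} (pl 1 Z q).toList a n =
      ∏ p ∈ pl 1 Z q, phi (thr z) {0} p n (a p) := by
    unfold XX
    rw [prod_map_toList]
  have hsub : Qs q (z n) ⊆ pl 1 Z q := by
    intro p hp
    obtain ⟨⟨h1, h2⟩, h3⟩ := mem_Qs.1 hp
    exact mem_pl.2 ⟨⟨h1.trans hn, h2⟩, by have := h2.two_le; omega, h3⟩
  have e1 : ∏ p ∈ pl 1 Z q, phi (thr z) {0} p n (a p) =
      ∏ p ∈ Qs q (z n), (if n % p = a p then 0 else 1 / (1 - 1 / (p : ℝ))) := by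
    rw [← prod_subset hsub]
    · refine prod_congr rfl fun p hp => ?_
      rw [phi_zero hz ht, if_pos (mem_Qs.1 hp).1.1]
    · intro p hp hp2
      rw [phi_zero hz ht, if_neg]
      intro h3
      obtain ⟨⟨h4, h5⟩, _, h6⟩ := mem_pl.1 hp
      exact hp2 (mem_Qs.2 ⟨⟨h3, h5⟩, h6⟩)
  rw [e0, e1]
  unfold Vq
  rw [← prod_mul_distrib]
  by_cases h : ∀ p ∈ Qs q (z n), n % p ≠ a p
  · rw [if_pos h]
    refine prod_eq_one fun p hp => ?_
    rw [if_neg (h p hp), mul_one_div, div_self (fac_pos (mem_Qs.1 hp).1.2).ne']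
  · rw [if_neg h]
    push Not at h
    obtain ⟨p, hp, h1⟩ := h
    exact prod_eq_zero hp (by rw [if_pos h1, mul_zero])

/-- Abel's inequality, decreasing weights -/
lemma abel_anti (U : ℕ) (g e : ℕ → ℝ) (hg : ∀ t, g (t + 1) ≤ g t) (hg0 : ∀ t, 0 ≤ g t) (B : ℝ)
    (hB : ∀ U' ≤ U, |∑ t ∈ range U', e t| ≤ B) : |∑ t ∈ range U, g t * e t| ≤ g 0 * B := by
  have hB0 : 0 ≤ B := (abs_nonneg _).trans (hB 0 (Nat.zero_le U))
  have hanti : Antitone g := antitone_nat_of_succ_le hg
  rcases Nat.eq_zero_or_pos U with rfl | hU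
  · simp only [range_zero, sum_empty, abs_zero]
    exact mul_nonneg (hg0 0) hB0
  have h := sum_range_by_parts g e U
  simp only [smul_eq_mul] at h
  rw [h]
  have h1 : |g (U - 1) * ∑ t ∈ range U, e t| ≤ g (U - 1) * B := by
    rw [abs_mul, abs_of_nonneg (hg0 _)]
    exact mul_le_mul_of_nonneg_left (hB U le_rfl) (hg0 _)
  have h2 : |∑ i ∈ range (U - 1), (g (i + 1) - g i) * ∑ t ∈ range (i + 1), e t| ≤
      (g 0 - g (U - 1)) * B := by
    refine (abs_sum_le_sum_abs _ _).trans ?_
    calc ∑ i ∈ range (U - 1), |(g (i + 1) - g i) * ∑ t ∈ range (i + 1), e t| ≤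
        ∑ i ∈ range (U - 1), (g i - g (i + 1)) * B := by
          refine sum_le_sum fun i hi => ?_
          rw [abs_mul, abs_of_nonpos (by linarith [hg i]), neg_sub]
          exact mul_le_mul_of_nonneg_left (hB (i + 1) (by have := mem_range.1 hi; omega))
            (by linarith [hg i])
      _ = (g 0 - g (U - 1)) * B := by
          rw [← sum_mul, sum_range_sub']
  calc |g (U - 1) * ∑ t ∈ range U, e t - ∑ i ∈ range (U - 1), (g (i + 1) - g i) *
        ∑ t ∈ range (i + 1), e t| ≤ g (U - 1) * B + (g 0 - g (U - 1)) * B :=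
        (abs_sub _ _).trans (add_le_add h1 h2)
    _ = g 0 * B := by ring

/-- Abel's inequality, increasing weights -/
lemma abel_mono (U : ℕ) (g e : ℕ → ℝ) (hg : ∀ t, g t ≤ g (t + 1)) (M : ℝ) (hM : ∀ t < U, g t ≤ M)
    (hM0 : 0 ≤ M) (hg0 : ∀ t, 0 ≤ g t) (B : ℝ)
    (hB : ∀ U' ≤ U, |∑ t ∈ range U', e t| ≤ B) : |∑ t ∈ range U, g t * e t| ≤ 2 * M * B := by
  have hB0 : 0 ≤ B := (abs_nonneg _).trans (hB 0 (Nat.zero_le U))
  have hmono : Monotone g := monotone_nat_of_le_succ hg
  rcases Nat.eq_zero_or_pos U with rfl | hU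
  · simp only [range_zero, sum_empty, abs_zero]
    positivity
  have h := sum_range_by_parts g e U
  simp only [smul_eq_mul] at h
  rw [h]
  have h1 : |g (U - 1) * ∑ t ∈ range U, e t| ≤ g (U - 1) * B := by
    rw [abs_mul, abs_of_nonneg (hg0 _)]
    exact mul_le_mul_of_nonneg_left (hB U le_rfl) (hg0 _)
  have h2 : |∑ i ∈ range (U - 1), (g (i + 1) - g i) * ∑ t ∈ range (i + 1), e t| ≤
      (g (U - 1) - g 0) * B := by
    refine (abs_sum_le_sum_abs _ _).trans ?_
    calc ∑ i ∈ range (U - 1), |(g (i + 1) - g i) * ∑ t ∈ range (i + 1), e t| ≤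
        ∑ i ∈ range (U - 1), (g (i + 1) - g i) * B := by
          refine sum_le_sum fun i hi => ?_
          rw [abs_mul, abs_of_nonneg (by linarith [hg i])]
          exact mul_le_mul_of_nonneg_left (hB (i + 1) (by have := mem_range.1 hi; omega))
            (by linarith [hg i])
      _ = (g (U - 1) - g 0) * B := by
          rw [← sum_mul, sum_range_sub]
  have h3 := hM (U - 1) (by omega)
  have h4 := hg0 0
  calc |g (U - 1) * ∑ t ∈ range U, e t - ∑ i ∈ range (U - 1), (g (i + 1) - g i) *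
        ∑ t ∈ range (i + 1), e t| ≤ g (U - 1) * B + (g (U - 1) - g 0) * B :=
        (abs_sub _ _).trans (add_le_add h1 h2)
    _ ≤ M * B + M * B := by gcongr; linarith
    _ = 2 * M * B := by ring

end Pool.Agent.H532.SR
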