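import Mathlib
import Pool.Agent.H532.SR.Thr

/-!
The main terms for the progressions.
-/

namespace Pool.Agent.H532.SR

open Finset Filter MeasureTheory Function Pool.Agent.H532.RM
open Pool.Agent.H532.UT (nu nu_le)
open Pool.Agent.H532.UN (nt nt_iff nt_le le_nt)
open scoped Topology ENNReal

/-- sieving limits with a power saving -/
structure Rt (z : ℕ → ℕ) : Prop where
  mono : Monotone z
  rate : ∃ K : ℝ, ∀ᶠ n : ℕ in atTop, |V (z n) * Real.log n - 1| ≤ K / Real.sqrt n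

lemma sqrt_tendsto : Tendsto (fun n : ℕ => Real.sqrt n) atTop atTop :=
  Real.tendsto_sqrt_atTop.comp tendsto_natCast_atTop_atTop

lemma Rt.lim {z : ℕ → ℕ} (hz : Rt z) : Lim1 z := by
  obtain ⟨K, hK⟩ := hz.rate
  unfold Lim1
  rw [tendsto_iff_norm_sub_tendsto_zero]
  have h1 : Tendsto (fun n : ℕ => K / Real.sqrt n) atTop (𝓝 0) := sqrt_tendsto.const_div_atTop K
  refine squeeze_zero' (Eventually.of_forall fun n => norm_nonneg _) ?_ h1
  filter_upwards [hK] with n hn
  rwa [Real.norm_eq_abs]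

lemma natSqrt_tendsto : Tendsto Nat.sqrt atTop atTop := by
  refine tendsto_atTop.2 fun B => ?_
  filter_upwards [eventually_ge_atTop (B ^ 2)] with n hn
  exact Nat.le_sqrt'.2 hn

lemma Lim1.big {z : ℕ → ℕ} (hz : Lim1 z) : ∀ᶠ n : ℕ in atTop, Real.sqrt n ≤ z n := by
  have h1 : Tendsto (fun n : ℕ => V (Nat.sqrt n) * Real.log (Nat.sqrt n)) atTop
      (𝓝 (Real.exp (-Real.eulerMascheroniConstant))) := V_log.comp natSqrt_tendsto
  have hg : (1 : ℝ) / 2 < Real.exp (-Real.eulerMascheroniConstant) := by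
    have h2 := Real.eulerMascheroniConstant_lt_two_thirds
    have h3 := Real.log_two_gt_d9
    have h4 : Real.exp (-Real.log 2) = 1 / 2 := by
      rw [Real.exp_neg, Real.exp_log (by norm_num)]; norm_num
    rw [← h4]
    exact Real.exp_lt_exp.2 (by linarith)
  set g := Real.exp (-Real.eulerMascheroniConstant) with hgd
  set c : ℝ := (1 / 2 + g) / 2 with hc
  have hc1 : 1 / 2 < c := by rw [hc]; linarith
  have hc2 : c < g := by rw [hc]; linarith
  filter_upwards [h1.eventually (lt_mem_nhds hc2),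
    hz.eventually (gt_mem_nhds (show (1 : ℝ) < 2 * c by linarith)), eventually_ge_atTop 1]
    with n h2 h3 h4
  by_contra hcon
  push Not at hcon
  have h5 : z n ≤ Nat.sqrt n := by
    rw [Nat.le_sqrt']
    have h6 : (z n : ℝ) ^ 2 < n := by
      have h7 : (z n : ℝ) ^ 2 < Real.sqrt n ^ 2 := by gcongr
      rwa [Real.sq_sqrt (Nat.cast_nonneg n)] at h7
    exact_mod_cast h6.le
  have h6 := V_anti h5
  have h7 : 2 * Real.log (Nat.sqrt n) ≤ Real.log n := by
    have h8 : 1 ≤ Nat.sqrt n := by rw [Nat.le_sqrt']; simpa using h4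
    have h9 : ((Nat.sqrt n : ℕ) : ℝ) ^ 2 ≤ n := by exact_mod_cast Nat.sqrt_le' n
    have h10 : (1 : ℝ) ≤ Nat.sqrt n := by exact_mod_cast h8
    have h11 : (2 : ℝ) * Real.log (Nat.sqrt n) = Real.log ((Nat.sqrt n : ℝ) ^ 2) := by
      rw [Real.log_pow]; norm_num
    rw [h11]
    exact Real.log_le_log (by positivity) h9
  have h8 : (0 : ℝ) ≤ Real.log (Nat.sqrt n) := Real.log_natCast_nonneg _
  have hV := V_pos (Nat.sqrt n)
  have h9 : 2 * (V (Nat.sqrt n) * Real.log (Nat.sqrt n)) ≤ V (z n) * Real.log n := by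
    calc 2 * (V (Nat.sqrt n) * Real.log (Nat.sqrt n)) =
        V (Nat.sqrt n) * (2 * Real.log (Nat.sqrt n)) := by ring
      _ ≤ V (z n) * Real.log n := by
        have := V_pos (z n)
        gcongr
  linarith

/-- the main term of one integer -/
lemma main_bound {z : ℕ → ℕ} (hz : Rt z) : ∃ C : ℝ, 1 ≤ C ∧ ∀ j q n : ℕ, 1 ≤ j → 0 < q →
    q < 2 ^ (j + 3) → 1 ≤ n → n < 2 ^ (j + 3) →
    |Real.log n * Vq q (z n) * ((Nat.totient q : ℝ) / q) - 1| ≤
      C * ((j : ℝ) + 3) ^ 2 / Real.sqrt n := by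
  obtain ⟨K, hK⟩ := hz.rate
  obtain ⟨n0, hn0⟩ := eventually_atTop.1 (hK.and hz.lim.big)
  refine ⟨Real.sqrt n0 + 3 + |K|, by
    have := Real.sqrt_nonneg (n0 : ℝ)
    have := abs_nonneg K
    linarith, fun j q n hj hq hq2 hn hn2 => ?_⟩
  have hq0 : (0 : ℝ) < q := by exact_mod_cast hq
  have hn' : (1 : ℝ) ≤ n := by exact_mod_cast hn
  have hsn : 1 ≤ Real.sqrt n := by rw [Real.one_le_sqrt]; exact hn'
  have hs0 : 0 < Real.sqrt n := by linarith
  have hj' : (1 : ℝ) ≤ j := by exact_mod_cast hj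
  have hlog0 : 0 ≤ Real.log n := Real.log_natCast_nonneg n
  have hlog : Real.log n ≤ j + 3 := by
    have h1 : (n : ℝ) ≤ 2 ^ (j + 3) := by exact_mod_cast hn2.le
    have h2 : Real.log n ≤ Real.log ((2 : ℝ) ^ (j + 3)) := Real.log_le_log (by linarith) h1
    rw [Real.log_pow] at h2
    have h3 := Real.log_two_lt_d9
    push_cast at h2
    nlinarith
  have hφ0 : 0 ≤ (Nat.totient q : ℝ) / q := by positivity
  have hφ1 : (Nat.totient q : ℝ) / q ≤ 1 := by
    rw [div_le_one hq0]; exact_mod_cast Nat.totient_le q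
  have hV0 := (Vq_pos q (z n)).le
  have hV1 := Vq_le_one q (z n)
  set X : ℝ := Real.log n * Vq q (z n) * ((Nat.totient q : ℝ) / q) with hX
  have hX0 : 0 ≤ X := by rw [hX]; positivity
  have hX1 : X ≤ j + 3 := by
    rw [hX]
    calc Real.log n * Vq q (z n) * ((Nat.totient q : ℝ) / q) ≤ Real.log n * 1 * 1 := by gcongr
      _ ≤ j + 3 := by linarith
  have htriv : |X - 1| ≤ j + 3 := by
    rw [abs_le]
    constructor <;> linarith
  have hs1 := Real.sqrt_nonneg (n0 : ℝ)
  have hK0 := abs_nonneg K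
  have hJ2 : (j : ℝ) + 3 ≤ ((j : ℝ) + 3) ^ 2 := by nlinarith
  have hJ1 : (1 : ℝ) ≤ ((j : ℝ) + 3) ^ 2 := by nlinarith
  rw [le_div_iff₀ hs0]
  rcases lt_or_ge n n0 with h | h
  · have h1 : Real.sqrt n ≤ Real.sqrt n0 := Real.sqrt_le_sqrt (by exact_mod_cast h.le)
    calc |X - 1| * Real.sqrt n ≤ (j + 3) * Real.sqrt n0 := by gcongr
      _ ≤ ((j : ℝ) + 3) ^ 2 * Real.sqrt n0 := by gcongr
      _ ≤ (Real.sqrt n0 + 3 + |K|) * ((j : ℝ) + 3) ^ 2 := by nlinarith
  · obtain ⟨h1, h2⟩ := hn0 n h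
    rcases lt_or_ge (z n) (2 * (j + 3)) with h3 | h3
    · have h4 : (z n : ℝ) ≤ 2 * (j + 3) := by exact_mod_cast h3.le
      calc |X - 1| * Real.sqrt n ≤ (j + 3) * (2 * (j + 3)) := by
            gcongr
            exact h2.trans h4
        _ ≤ (Real.sqrt n0 + 3 + |K|) * ((j : ℝ) + 3) ^ 2 := by nlinarith
    · obtain ⟨h4, h5⟩ := Vq_totient q (z n) j hq hq2 h3 hj
      have h6 : (2 * ((j : ℝ) + 3)) ≤ z n := by exact_mod_cast h3
      have hz0 : (0 : ℝ) < z n := by linarith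
      set s : ℝ := ((j : ℝ) + 3) / z n with hs
      have hs0' : 0 ≤ s := by positivity
      have hs1' : s ≤ 1 / 2 := by rw [hs, div_le_iff₀ hz0]; linarith
      have hsle : s * Real.sqrt n ≤ j + 3 := by
        rw [hs, div_mul_eq_mul_div, div_le_iff₀ hz0]
        gcongr
      have h7 : |V (z n) * Real.log n - 1| * Real.sqrt n ≤ |K| := by
        calc |V (z n) * Real.log n - 1| * Real.sqrt n ≤ (K / Real.sqrt n) * Real.sqrt n := by gcongr
          _ = K := div_mul_cancel₀ _ hs0.ne'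
          _ ≤ |K| := le_abs_self K
      set v : ℝ := V (z n) * Real.log n with hv
      have h8 : X ≤ v := by
        rw [hX, hv]
        calc Real.log n * Vq q (z n) * ((Nat.totient q : ℝ) / q) =
            (Vq q (z n) * ((Nat.totient q : ℝ) / q)) * Real.log n := by ring
          _ ≤ V (z n) * Real.log n := by gcongr
      have h9 : (1 - s) * v ≤ X := by
        rw [hX, hv]
        calc (1 - s) * (V (z n) * Real.log n) = ((1 - s) * V (z n)) * Real.log n := by ring
          _ ≤ (Vq q (z n) * ((Nat.totient q : ℝ) / q)) * Real.log n := by gcongr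
          _ = _ := by ring
      have h10 : |X - 1| ≤ |v - 1| + s := by
        rw [abs_le]
        have h11 := neg_abs_le (v - 1)
        have h12 := le_abs_self (v - 1)
        constructor
        · nlinarith [abs_nonneg (v - 1)]
        · linarith
      calc |X - 1| * Real.sqrt n ≤ (|v - 1| + s) * Real.sqrt n := by gcongr
        _ = |v - 1| * Real.sqrt n + s * Real.sqrt n := by ring
        _ ≤ |K| * 1 + (j + 3) := by linarith
        _ ≤ |K| * ((j : ℝ) + 3) ^ 2 + ((j : ℝ) + 3) ^ 2 := by gcongr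
        _ ≤ (Real.sqrt n0 + 3 + |K|) * ((j : ℝ) + 3) ^ 2 := by nlinarith

/-- the elements of a residue class in an interval -/
lemma class_param (x y q a : ℕ) (hq : 0 < q) : ∃ n0 U : ℕ, x < n0 ∧ n0 ≤ x + q ∧
    n0 ≡ a [MOD q] ∧ (U : ℝ) ≤ y / q + 1 ∧ (y : ℝ) / q - 1 ≤ U ∧ (∀ t < U, n0 + q * t ≤ x + y) ∧
    ∀ f : ℕ → ℝ, ∑ n ∈ (Ioc x (x + y)).filter (fun n => n ≡ a [MOD q]), f n =
      ∑ t ∈ range U, f (n0 + q * t) := by
  set r : ℕ := (a + (q - 1) * (x + 1)) % q with hr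
  have hrq : r < q := Nat.mod_lt _ hq
  have hcong : x + 1 + r ≡ a [MOD q] := by
    have h1 : x + 1 + r ≡ x + 1 + (a + (q - 1) * (x + 1)) [MOD q] :=
      (Nat.mod_modEq _ q).add_left _
    have h2 : x + 1 + (a + (q - 1) * (x + 1)) = a + q * (x + 1) := by
      obtain ⟨q', rfl⟩ : ∃ q', q = q' + 1 := ⟨q - 1, by omega⟩
      simp only [Nat.add_sub_cancel]
      ring
    rw [h2] at h1
    refine h1.trans ?_
    show (a + q * (x + 1)) % q = a % q
    simp
  refine ⟨x + 1 + r, nt y r q, by omega, by omega, hcong, nt_le y r q hrq, le_nt y r q hrq, ?_, ?_⟩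
  · intro t ht
    have := (nt_iff hrq).1 ht
    omega
  · intro f
    refine sum_nbij' (fun n => (n - (x + 1)) / q) (fun t => x + 1 + r + q * t) ?_ ?_ ?_ ?_ ?_
    · intro n hn
      obtain ⟨h1, h2⟩ := mem_filter.1 hn
      obtain ⟨h3, h4⟩ := mem_Ioc.1 h1
      obtain ⟨s, rfl⟩ : ∃ s, n = x + 1 + s := ⟨n - (x + 1), by omega⟩
      have h5 : x + 1 + s ≡ x + 1 + r [MOD q] := h2.trans hcong.symm
      have h6 : s ≡ r [MOD q] := Nat.ModEq.add_left_cancel' _ h5
      have h7 : s % q = r := by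
        have : s % q = r % q := h6
        rwa [Nat.mod_eq_of_lt hrq] at this
      have h8 := Nat.mod_add_div s q
      rw [h7] at h8
      refine mem_range.2 ((nt_iff hrq).2 ?_)
      simp only [Nat.add_sub_cancel_left]
      omega
    · intro t ht
      have h1 := (nt_iff hrq).1 (mem_range.1 ht)
      refine mem_filter.2 ⟨mem_Ioc.2 ⟨by omega, by omega⟩, ?_⟩
      refine Nat.ModEq.trans ?_ hcong
      show (x + 1 + r + q * t) % q = (x + 1 + r) % q
      simp
    · intro n hn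
      obtain ⟨h1, h2⟩ := mem_filter.1 hn
      obtain ⟨h3, h4⟩ := mem_Ioc.1 h1
      obtain ⟨s, rfl⟩ : ∃ s, n = x + 1 + s := ⟨n - (x + 1), by omega⟩
      have h5 : x + 1 + s ≡ x + 1 + r [MOD q] := h2.trans hcong.symm
      have h6 : s ≡ r [MOD q] := Nat.ModEq.add_left_cancel' _ h5
      have h7 : s % q = r := by
        have : s % q = r % q := h6
        rwa [Nat.mod_eq_of_lt hrq] at this
      have h8 := Nat.mod_add_div s q
      rw [h7] at h8
      simp only [Nat.add_sub_cancel_left]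
      omega
    · intro t _
      have e : x + 1 + r + q * t - (x + 1) = r + q * t := by omega
      simp only [e]
      rw [Nat.add_mul_div_left _ _ hq, Nat.div_eq_of_lt hrq, zero_add]
    · intro n hn
      obtain ⟨h1, h2⟩ := mem_filter.1 hn
      obtain ⟨h3, h4⟩ := mem_Ioc.1 h1
      obtain ⟨s, rfl⟩ : ∃ s, n = x + 1 + s := ⟨n - (x + 1), by omega⟩
      have h5 : x + 1 + s ≡ x + 1 + r [MOD q] := h2.trans hcong.symm
      have h6 : s ≡ r [MOD q] := Nat.ModEq.add_left_cancel' _ h5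
      have h7 : s % q = r := by
        have : s % q = r % q := h6
        rwa [Nat.mod_eq_of_lt hrq] at this
      have h8 := Nat.mod_add_div s q
      rw [h7] at h8
      simp only [Nat.add_sub_cancel_left]
      congr 1
      omega

/-- the sum of the error terms -/
lemma sum_inv_sqrt (n0 q U : ℕ) (hn0 : 1 ≤ n0) (hq : 1 ≤ q) :
    ∑ t ∈ range U, 1 / Real.sqrt ((n0 + q * t : ℕ) : ℝ) ≤ 2 * Real.sqrt U := by
  induction U with
  | zero => simp
  | succ U ih =>
    rw [sum_range_succ]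
    have h1 : (U + 1 : ℝ) ≤ ((n0 + q * U : ℕ) : ℝ) := by
      have : U + 1 ≤ n0 + q * U := by nlinarith
      exact_mod_cast this
    have hs : 0 < Real.sqrt (U + 1 : ℝ) := Real.sqrt_pos.2 (by positivity)
    have h2 : 1 / Real.sqrt ((n0 + q * U : ℕ) : ℝ) ≤ 1 / Real.sqrt (U + 1) := by
      have := Real.sqrt_le_sqrt h1
      gcongr
    have h3 : 1 / Real.sqrt (U + 1 : ℝ) ≤ 2 * (Real.sqrt (U + 1) - Real.sqrt U) := by
      rw [div_le_iff₀ hs]
      have h4 : Real.sqrt (U + 1 : ℝ) ^ 2 = U + 1 := Real.sq_sqrt (by positivity)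
      have h5 : Real.sqrt (U : ℝ) ^ 2 = U := Real.sq_sqrt (by positivity)
      nlinarith [sq_nonneg (Real.sqrt (U + 1 : ℝ) - Real.sqrt U)]
    push_cast at h2 ih ⊢
    linarith

end Pool.Agent.H532.SR
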