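import Mathlib
import Pool.Agent.H532.SR.Mt

/-!
Montgomery's conjecture in the random sieve.
-/

namespace Pool.Agent.H532.SR

open Finset Filter MeasureTheory Function Pool.Agent.H532.RM
open Pool.Agent.H532.UT (nu nu_le)
open Pool.Agent.H532.UN (nt nt_iff nt_le le_nt)
open scoped Topology ENNReal

open Classical in
/-- the weighted count of the elements of `R` in a residue class -/
noncomputable def psiR (R : Set ℕ) (x y q b : ℕ) : ℝ :=
  ∑ n ∈ (Ioc x (x + y)).filter (fun n => n ≡ b [MOD q] ∧ n ∈ R), Real.log n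

/-- reduced classes -/
def Red (a : ℕ → ℕ) (q b : ℕ) : Prop := ∀ p : ℕ, p.Prime → p ∣ q → ¬ b ≡ a p [MOD p]

lemma mem_RB_iff {z : ℕ → ℕ} {a : ℕ → ℕ} (ha : ∀ p, p.Prime → a p < p) {q b n : ℕ}
    (hb : Red a q b) (hn : n ≡ b [MOD q]) :
    n ∈ RB z a ↔ ∀ p ∈ Qs q (z n), n % p ≠ a p := by
  constructor
  · intro h p hp h1
    obtain ⟨⟨h2, h3⟩, h4⟩ := mem_Qs.1 hp
    refine h p h3 h2 ?_
    show n % p = a p % p
    rw [h1, Nat.mod_eq_of_lt (ha p h3)]
  · intro h p hp hpz h1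
    by_cases h2 : p ∣ q
    · exact hb p hp h2 ((hn.of_dvd h2).symm.trans h1)
    · refine h p (mem_Qs.2 ⟨⟨hpz, hp⟩, h2⟩) ?_
      have h3 : n % p = a p % p := h1
      rwa [Nat.mod_eq_of_lt (ha p hp)] at h3

theorem mont_det {z : ℕ → ℕ} (hz : Rt z) {C : ℝ} (hC : ∀ j q n : ℕ, 1 ≤ j → 0 < q →
    q < 2 ^ (j + 3) → 1 ≤ n → n < 2 ^ (j + 3) →
    |Real.log n * Vq q (z n) * ((Nat.totient q : ℝ) / q) - 1| ≤
      C * ((j : ℝ) + 3) ^ 2 / Real.sqrt n) {j : ℕ} (hj : 1 ≤ j) {E : ℝ} (hE : 0 ≤ E)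
    {a : ℕ → ℕ} (ha : ∀ p, p.Prime → a p < p)
    (hdev : ∀ b D U : ℕ, b < 2 ^ (j + 3) → D < 2 ^ (j + 3) → U < 2 ^ (j + 3) →
      |dev (thr z) {0} (pl 1 (z (2 ^ (j + 3))) D).toList a b D U| ≤ E * Real.sqrt (1 + U))
    (x y q b : ℕ) (hxy : x + y < 2 ^ (j + 3)) (hq : 0 < q) (hq2 : q < 2 ^ (j + 3))
    (hb : Red a q b) :
    |psiR (RB z a) x y q b - y / Nat.totient q| ≤
      2 * ((j : ℝ) + 3) * (E * Real.sqrt (2 + y / q)) +
        q / Nat.totient q * (2 * C * ((j : ℝ) + 3) ^ 2 * Real.sqrt (2 + y / q) + 1) := by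
  classical
  have hzt := hz.lim.tendsto
  set Z := z (2 ^ (j + 3)) with hZ
  have hq0 : (0 : ℝ) < q := by exact_mod_cast hq
  have hφ : (0 : ℝ) < Nat.totient q := by exact_mod_cast Nat.totient_pos.2 hq
  obtain ⟨n0, U, h1, h2, h3, h4, h5, h6, h7⟩ := class_param x y q b hq
  have hsU : Real.sqrt (1 + U) ≤ Real.sqrt (2 + y / q) := Real.sqrt_le_sqrt (by linarith)
  have hsU' : Real.sqrt U ≤ Real.sqrt (2 + y / q) := Real.sqrt_le_sqrt (by linarith)
  have hC0 : 0 ≤ C := by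
    have := hC 1 1 1 le_rfl one_pos (by norm_num) le_rfl (by norm_num)
    have h8 := (abs_nonneg _).trans this
    simp only [Nat.cast_one, Real.sqrt_one, div_one] at h8
    nlinarith
  -- the count as a sum
  have e1 : psiR (RB z a) x y q b = ∑ t ∈ range U, Real.log ((n0 + q * t : ℕ) : ℝ) *
      (Vq q (z (n0 + q * t)) * XX (thr z) {0} (pl 1 Z q).toList a (n0 + q * t)) := by
    unfold psiR
    rw [← filter_filter, sum_filter, h7]
    refine sum_congr rfl fun t ht => ?_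
    have h8 := h6 t (mem_range.1 ht)
    have h9 : z (n0 + q * t) ≤ Z := hz.mono (by omega)
    rw [XX_zero hz.mono hzt q Z a _ h9]
    have h10 : n0 + q * t ≡ b [MOD q] := by
      refine Nat.ModEq.trans ?_ h3
      show (n0 + q * t) % q = n0 % q
      simp
    have h11 := mem_RB_iff (z := z) ha hb h10
    by_cases h12 : n0 + q * t ∈ RB z a
    · rw [if_pos h12, if_pos (h11.1 h12), mul_one]
    · rw [if_neg h12, if_neg (fun h13 => h12 (h11.2 h13)), mul_zero]
  rw [e1]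
  set g : ℕ → ℝ := fun t => Real.log ((n0 + q * t : ℕ) : ℝ) with hg
  set v : ℕ → ℝ := fun t => Vq q (z (n0 + q * t)) with hv
  set e : ℕ → ℝ := fun t => XX (thr z) {0} (pl 1 Z q).toList a (n0 + q * t) - 1 with he
  have e2 : ∑ t ∈ range U, Real.log ((n0 + q * t : ℕ) : ℝ) *
      (Vq q (z (n0 + q * t)) * XX (thr z) {0} (pl 1 Z q).toList a (n0 + q * t)) =
      ∑ t ∈ range U, g t * v t + ∑ t ∈ range U, g t * (v t * e t) := by
    rw [← sum_add_distrib]
    refine sum_congr rfl fun t _ => ?_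
    simp only [hg, hv, he]
    ring
  rw [e2]
  have hJ : (0 : ℝ) ≤ (j : ℝ) + 3 := by positivity
  have hn0 : ∀ t < U, 1 ≤ n0 + q * t ∧ n0 + q * t < 2 ^ (j + 3) := fun t ht => by
    have := h6 t ht
    omega
  have hglt : ∀ t < U, g t ≤ (j : ℝ) + 3 := by
    intro t ht
    obtain ⟨h8, h9⟩ := hn0 t ht
    have h10 : ((n0 + q * t : ℕ) : ℝ) ≤ 2 ^ (j + 3) := by exact_mod_cast h9.le
    have h11 : (0 : ℝ) < ((n0 + q * t : ℕ) : ℝ) := by exact_mod_cast h8
    have h12 : g t ≤ Real.log ((2 : ℝ) ^ (j + 3)) := Real.log_le_log h11 h10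
    rw [Real.log_pow] at h12
    have h13 := Real.log_two_lt_d9
    push_cast at h12
    have : (0 : ℝ) ≤ j := Nat.cast_nonneg j
    nlinarith
  -- the random part
  have hrand : |∑ t ∈ range U, g t * (v t * e t)| ≤
      2 * ((j : ℝ) + 3) * (E * Real.sqrt (2 + y / q)) := by
    rcases Nat.eq_zero_or_pos U with hU0 | hU0
    · rw [hU0]; simp only [range_zero, sum_empty, abs_zero]; positivity
    have hn0' : n0 < 2 ^ (j + 3) := by have := (hn0 0 hU0).2; simpa using this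
    have hUle : U < 2 ^ (j + 3) := by
      have h8 := h6 (U - 1) (by omega)
      have h9 : U - 1 ≤ q * (U - 1) := Nat.le_mul_of_pos_left _ hq
      omega
    set B : ℝ := E * Real.sqrt (1 + U) with hB
    have hpart : ∀ U' ≤ U, |∑ t ∈ range U', e t| ≤ B := by
      intro U' hU'
      have h8 := hdev n0 q U' hn0' hq2 (lt_of_le_of_lt hU' hUle)
      unfold dev at h8
      refine h8.trans ?_
      rw [hB]
      have : (U' : ℝ) ≤ U := by exact_mod_cast hU'
      gcongr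
    have hpart2 : ∀ U' ≤ U, |∑ t ∈ range U', v t * e t| ≤ B := by
      intro U' hU'
      have h8 := abel_anti U' v e (fun t => by
        simp only [hv]
        exact Vq_anti q (hz.mono (by nlinarith))) (fun t => (Vq_pos q _).le) B
        (fun U'' hU'' => hpart U'' (hU''.trans hU'))
      refine h8.trans ?_
      have h9 : v 0 ≤ 1 := Vq_le_one q _
      have hB0 : 0 ≤ B := by rw [hB]; positivity
      nlinarith
    have h8 := abel_mono U g (fun t => v t * e t) (fun t => by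
      simp only [hg]
      refine Real.log_le_log ?_ ?_
      · have : 0 < n0 + q * t := by omega
        exact_mod_cast this
      · have : n0 + q * t ≤ n0 + q * (t + 1) := by nlinarith
        exact_mod_cast this) ((j : ℝ) + 3) hglt hJ (fun t => Real.log_natCast_nonneg _) B hpart2
    refine h8.trans ?_
    rw [hB]
    gcongr
  -- the main term
  have hmain : |∑ t ∈ range U, g t * v t - y / Nat.totient q| ≤
      q / Nat.totient q * (2 * C * ((j : ℝ) + 3) ^ 2 * Real.sqrt (2 + y / q) + 1) := by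
    have e3 : ∑ t ∈ range U, g t * v t - y / Nat.totient q = q / Nat.totient q *
        (∑ t ∈ range U, (g t * v t * ((Nat.totient q : ℝ) / q) - 1) + (U - y / q)) := by
      rw [sum_sub_distrib, sum_const, card_range, nsmul_eq_mul, mul_one, ← sum_mul]
      field_simp
      ring
    rw [e3, abs_mul, abs_of_pos (by positivity : (0 : ℝ) < q / Nat.totient q)]
    have h8 : |∑ t ∈ range U, (g t * v t * ((Nat.totient q : ℝ) / q) - 1)| ≤
        2 * C * ((j : ℝ) + 3) ^ 2 * Real.sqrt (2 + y / q) := by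
      calc |∑ t ∈ range U, (g t * v t * ((Nat.totient q : ℝ) / q) - 1)| ≤
          ∑ t ∈ range U, |g t * v t * ((Nat.totient q : ℝ) / q) - 1| := abs_sum_le_sum_abs _ _
        _ ≤ ∑ t ∈ range U, C * ((j : ℝ) + 3) ^ 2 * (1 / Real.sqrt ((n0 + q * t : ℕ) : ℝ)) := by
            refine sum_le_sum fun t ht => ?_
            obtain ⟨h9, h10⟩ := hn0 t (mem_range.1 ht)
            have := hC j q (n0 + q * t) hj hq hq2 h9 h10
            rw [mul_one_div]
            exact this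
        _ = C * ((j : ℝ) + 3) ^ 2 * ∑ t ∈ range U, 1 / Real.sqrt ((n0 + q * t : ℕ) : ℝ) := by
            rw [mul_sum]
        _ ≤ C * ((j : ℝ) + 3) ^ 2 * (2 * Real.sqrt U) := by
            gcongr
            exact sum_inv_sqrt n0 q U (by omega) hq
        _ ≤ C * ((j : ℝ) + 3) ^ 2 * (2 * Real.sqrt (2 + y / q)) := by gcongr
        _ = _ := by ring
    have h9 : |(U : ℝ) - y / q| ≤ 1 := by
      rw [abs_le]; constructor <;> linarith
    gcongr
    exact (abs_add_le _ _).trans (add_le_add h8 h9)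
  calc |∑ t ∈ range U, g t * v t + ∑ t ∈ range U, g t * (v t * e t) - y / Nat.totient q| =
      |∑ t ∈ range U, g t * (v t * e t) + (∑ t ∈ range U, g t * v t - y / Nat.totient q)| := by
        congr 1; ring
    _ ≤ _ := (abs_add_le _ _).trans (add_le_add hrand hmain)

/-- the factor `q / φ q` -/
lemma totient_ratio : ∃ c : ℝ, 0 < c ∧ ∀ j q : ℕ, 1 ≤ j → 0 < q → q < 2 ^ (j + 3) →
    (q : ℝ) / Nat.totient q ≤ c * ((j : ℝ) + 3) := by
  obtain ⟨c, _, hc, _, hV⟩ := V_two_sided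
  refine ⟨4 / c, by positivity, fun j q hj hq hq2 => ?_⟩
  have hq0 : (0 : ℝ) < q := by exact_mod_cast hq
  have hφ : (0 : ℝ) < Nat.totient q := by exact_mod_cast Nat.totient_pos.2 hq
  have h1 := (Vq_totient q (2 * (j + 3)) j hq hq2 le_rfl hj).2
  have h2 := (hV (2 * (j + 3)) (by omega)).1
  have h3 := Vq_le_one q (2 * (j + 3))
  have h4 := (Vq_pos q (2 * (j + 3))).le
  have hJ : (0 : ℝ) < (j : ℝ) + 3 := by positivity
  have h5 : 1 - ((j : ℝ) + 3) / ((2 * (j + 3) : ℕ) : ℝ) = 1 / 2 := by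
    push_cast
    field_simp
    norm_num
  rw [h5] at h1
  have h6 : Real.log ((2 * (j + 3) : ℕ) : ℝ) ≤ 2 * ((j : ℝ) + 3) := by
    have h7 : (0 : ℝ) < ((2 * (j + 3) : ℕ) : ℝ) := by positivity
    have := Real.log_le_sub_one_of_pos h7
    push_cast at this ⊢
    linarith
  have h7 := V_pos (2 * (j + 3))
  have h8 : c ≤ V (2 * (j + 3)) * (2 * ((j : ℝ) + 3)) := h2.trans (by gcongr)
  have h9 : (Nat.totient q : ℝ) / q ≥ 1 / 2 * V (2 * (j + 3)) := by
    have : Vq q (2 * (j + 3)) * ((Nat.totient q : ℝ) / q) ≤ 1 * ((Nat.totient q : ℝ) / q) := by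
      gcongr
    linarith
  have h10 : c / 4 ≤ (Nat.totient q : ℝ) / q * ((j : ℝ) + 3) := by
    have : 1 / 2 * V (2 * (j + 3)) * ((j : ℝ) + 3) ≤ (Nat.totient q : ℝ) / q * ((j : ℝ) + 3) := by
      gcongr
    nlinarith
  rw [div_le_iff₀ hφ]
  calc (q : ℝ) = (4 / c) * (c / 4) * q := by field_simp
    _ ≤ (4 / c) * ((Nat.totient q : ℝ) / q * ((j : ℝ) + 3)) * q := by gcongr
    _ = 4 / c * ((j : ℝ) + 3) * Nat.totient q := by field_simp

/-- **Montgomery's conjecture in the random sieve**, fixed `ε`. -/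
theorem mont_ev {Ω : Type} [MeasurableSpace Ω] {μ : Measure Ω} [IsProbabilityMeasure μ]
    {A : ℕ → Ω → ℕ} (hA : RandomClasses μ A) {z : ℕ → ℕ} (hz : Rt z) {ε : ℝ} (hε : 0 < ε) :
    ∀ᵐ ω ∂μ, ∀ᶠ X : ℕ in atTop, ∀ x y q b : ℕ, x + y ≤ 2 * X → 0 < q → q ≤ 2 * X →
      Red (fun p => A p ω) q b →
      |psiR (RB z (fun p => A p ω)) x y q b - y / Nat.totient q| ≤
        (X : ℝ) ^ ε * Real.sqrt (1 + y / q) := by
  obtain ⟨C, hC1, hC⟩ := main_bound hz
  obtain ⟨c, hc, hct⟩ := totient_ratio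
  set ε' : ℝ := ε * Real.log 2 / 2 with hε'
  have hlog2 : 0 < Real.log 2 := Real.log_pos (by norm_num)
  have hε'0 : 0 < ε' := by rw [hε']; positivity
  have hpoly : ∀ᶠ j : ℕ in atTop, (8 + 6 * c * C) * ((j : ℝ) + 3) ^ 3 ≤ Real.exp (ε' * j) := by
    have h1 := Pool.Agent.H532.UN.pow_le_exp 4 ε' hε'0
    have hr : Tendsto (fun j : ℕ => (j : ℝ)) atTop atTop := tendsto_natCast_atTop_atTop
    filter_upwards [h1, hr.eventually_ge_atTop (8 * (8 + 6 * c * C)), hr.eventually_ge_atTop 3]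
      with j h2 h3 h4
    refine le_trans ?_ h2
    have h5 : ((j : ℝ) + 3) ^ 3 ≤ (2 * j) ^ 3 := by gcongr; linarith
    calc (8 + 6 * c * C) * ((j : ℝ) + 3) ^ 3 ≤ (8 + 6 * c * C) * (2 * (j : ℝ)) ^ 3 := by gcongr
      _ = (8 * (8 + 6 * c * C)) * (j : ℝ) ^ 3 := by ring
      _ ≤ j * (j : ℝ) ^ 3 := by gcongr
      _ = (j : ℝ) ^ 4 := by ring
  filter_upwards [ae_dev hA hz.lim (le_refl 1) hε'0 (thr z), ae_lt hA] with ω h1 h2
  have h3 : Tendsto (fun X : ℕ => Nat.log 2 X) atTop atTop := by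
    refine tendsto_atTop.2 fun B => ?_
    filter_upwards [eventually_ge_atTop (2 ^ B)] with X hX
    exact Nat.le_log_of_pow_le (by norm_num) hX
  filter_upwards [h3.eventually h1, h3.eventually hpoly, h3.eventually_ge_atTop 1,
    eventually_ge_atTop 1] with X h4 h5 h6 h7 x y q b hxy hq hqX hb
  set j := Nat.log 2 X with hj
  have hX1 : 2 ^ j ≤ X := Nat.pow_log_le_self 2 (by omega)
  have hX2 : X < 2 ^ (j + 1) := Nat.lt_pow_succ_log_self (by norm_num) X
  have h2j : 2 ^ (j + 3) = 4 * 2 ^ (j + 1) := by ring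
  have h8 := mont_det hz hC h6 (Real.exp_nonneg (ε' * j)) h2 (fun b D U hb hD hU =>
    h4 {0} (by simp) (by intro i hi; rw [mem_singleton] at hi; subst hi; positivity)
      b D U hb hD hU) x y q b (by omega) hq (by omega) hb
  refine h8.trans ?_
  have h9 := hct j q h6 hq (by omega)
  have hq0 : (0 : ℝ) < q := by exact_mod_cast hq
  have hyq : (0 : ℝ) ≤ (y : ℝ) / q := by positivity
  have h10 : Real.sqrt (2 + y / q) ≤ 2 * Real.sqrt (1 + y / q) := by
    rw [show (2 : ℝ) * Real.sqrt (1 + y / q) = Real.sqrt (4 * (1 + y / q)) by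
      rw [Real.sqrt_mul (by norm_num)]
      rw [show (4 : ℝ) = 2 ^ 2 by norm_num, Real.sqrt_sq (by norm_num)]]
    exact Real.sqrt_le_sqrt (by linarith)
  have h11 : 1 ≤ Real.sqrt (1 + y / q) := by rw [Real.one_le_sqrt]; linarith
  set S := Real.sqrt (1 + y / q) with hS
  have hE1 : 1 ≤ Real.exp (ε' * j) := Real.one_le_exp (by positivity)
  set E := Real.exp (ε' * j) with hE
  have hJ4 : (4 : ℝ) ≤ (j : ℝ) + 3 := by
    have : (1 : ℝ) ≤ j := by exact_mod_cast h6
    linarith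
  set J := (j : ℝ) + 3 with hJ
  have h12 : 2 * J * (E * Real.sqrt (2 + y / q)) + q / Nat.totient q *
      (2 * C * J ^ 2 * Real.sqrt (2 + y / q) + 1) ≤ (8 + 6 * c * C) * J ^ 3 * (E * S) := by
    have t1 : 2 * J * (E * Real.sqrt (2 + y / q)) ≤ 4 * J ^ 3 * (E * S) := by
      calc 2 * J * (E * Real.sqrt (2 + y / q)) ≤ 2 * J * (E * (2 * S)) := by gcongr
        _ = 4 * J * (E * S) := by ring
        _ ≤ 4 * J ^ 3 * (E * S) := by
          gcongr
          calc J = J ^ 1 := (pow_one J).symm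
            _ ≤ J ^ 3 := pow_le_pow_right₀ (by linarith) (by norm_num)
    have t2 : q / Nat.totient q * (2 * C * J ^ 2 * Real.sqrt (2 + y / q) + 1) ≤
        (5 * c * C) * J ^ 3 * (E * S) := by
      have t3 : 2 * C * J ^ 2 * Real.sqrt (2 + y / q) + 1 ≤ 5 * C * J ^ 2 * S := by
        have t4 : 2 * C * J ^ 2 * Real.sqrt (2 + y / q) ≤ 2 * C * J ^ 2 * (2 * S) := by gcongr
        have t5 : 1 ≤ C * J ^ 2 * S := by
          calc (1 : ℝ) = 1 * 1 * 1 := by ring
            _ ≤ C * J ^ 2 * S := by gcongr; exact one_le_pow₀ (by linarith)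
        linarith
      calc q / Nat.totient q * (2 * C * J ^ 2 * Real.sqrt (2 + y / q) + 1) ≤
          (c * J) * (5 * C * J ^ 2 * S) := by gcongr
        _ = 5 * c * C * J ^ 3 * (1 * S) := by ring
        _ ≤ 5 * c * C * J ^ 3 * (E * S) := by gcongr
    have t6 : 0 ≤ (4 + c * C) * J ^ 3 * (E * S) := by positivity
    nlinarith
  refine h12.trans ?_
  have h13 : E * E ≤ (X : ℝ) ^ ε := by
    have h14 : E * E = ((2 : ℝ) ^ j) ^ ε := by
      rw [hE, ← Real.exp_add, Real.rpow_def_of_pos (by positivity), Real.log_pow, hε']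
      congr 1
      ring
    rw [h14]
    have : ((2 : ℝ) ^ j) ≤ X := by exact_mod_cast hX1
    gcongr
  calc (8 + 6 * c * C) * J ^ 3 * (E * S) ≤ E * (E * S) := by gcongr
    _ = (E * E) * S := by ring
    _ ≤ (X : ℝ) ^ ε * S := by gcongr

end Pool.Agent.H532.SR
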