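import Mathlib
import Pool.Agent.H532.SR.Mont

/-!
Montgomery's conjecture in the random sieve: the final forms.
-/

namespace Pool.Agent.H532.SR

open Finset Filter MeasureTheory Function Pool.Agent.H532.RM
open scoped Topology ENNReal

/-- the sieving limit of Banks, Ford and Tao -/
lemma rt_zBFT : Rt zBFT := by
  refine ⟨zBFT_mono, 1, ?_⟩
  have hbig : ∀ᶠ n : ℕ in atTop, Real.sqrt n ≤ zBFT n := Lim1.big zBFT_lim
  filter_upwards [hbig, eventually_ge_atTop 3, zBFT_tendsto.eventually_ge_atTop 1] with n h0 e3 e4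
  have hl0 := one_le_log_three e3
  have h4 : 1 ≤ V (zBFT n) * Real.log n := by
    have hmem : zBFT n ∈ {z : ℕ | 1 / Real.log n ≤ V z} :=
      Nat.sSup_mem ⟨0, zero_mem e3⟩ (bdd_of_three e3)
    have h2 : 1 / Real.log n ≤ V (zBFT n) := hmem
    rwa [div_le_iff₀ (by linarith)] at h2
  have h5 : V (zBFT n) * Real.log n ≤ 1 + 1 / (zBFT n : ℝ) := by
    have hz' : (1 : ℝ) ≤ zBFT n := by exact_mod_cast e4
    have hnm : ¬ (zBFT n + 1 ∈ {z : ℕ | 1 / Real.log n ≤ V z}) := by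
      intro h
      have := le_csSup (bdd_of_three e3) h
      unfold zBFT at this
      omega
    have h4 : V (zBFT n + 1) < 1 / Real.log n := not_le.1 hnm
    have h5 := V_succ (zBFT n)
    rw [lt_div_iff₀ (by linarith)] at h4
    have h6 : (1 - 1 / ((zBFT n : ℝ) + 1)) * V (zBFT n) * Real.log n < 1 := by
      calc (1 - 1 / ((zBFT n : ℝ) + 1)) * V (zBFT n) * Real.log n ≤
          V (zBFT n + 1) * Real.log n := by gcongr
        _ < 1 := h4
    have e : 1 - 1 / ((zBFT n : ℝ) + 1) = zBFT n / (zBFT n + 1) := by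
      field_simp; ring
    rw [e] at h6
    have h7 : V (zBFT n) * Real.log n * (zBFT n / (zBFT n + 1)) < 1 := by linarith
    rw [← lt_div_iff₀ (by positivity), one_div_div] at h7
    have e2 : ((zBFT n : ℝ) + 1) / zBFT n = 1 + 1 / zBFT n := by
      field_simp
    rw [e2] at h7
    exact h7.le
  rw [abs_of_nonneg (by linarith)]
  have hs : 0 < Real.sqrt n := by
    refine Real.sqrt_pos.2 ?_
    have : 0 < n := by omega
    exact_mod_cast this
  have h6 : 1 / (zBFT n : ℝ) ≤ 1 / Real.sqrt n := by gcongr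
  linarith

/-- all `ε` at once -/
theorem mont_all {Ω : Type} [MeasurableSpace Ω] {μ : Measure Ω} [IsProbabilityMeasure μ]
    {A : ℕ → Ω → ℕ} (hA : RandomClasses μ A) {z : ℕ → ℕ} (hz : Rt z) :
    ∀ᵐ ω ∂μ, ∀ ε : ℝ, 0 < ε → ∀ᶠ X : ℕ in atTop, ∀ x y q b : ℕ, x + y ≤ 2 * X → 0 < q →
      q ≤ 2 * X → Red (fun p => A p ω) q b →
      |psiR (RB z (fun p => A p ω)) x y q b - y / Nat.totient q| ≤
        (X : ℝ) ^ ε * Real.sqrt (1 + y / q) := by
  have h1 : ∀ m : ℕ, ∀ᵐ ω ∂μ, ∀ᶠ X : ℕ in atTop, ∀ x y q b : ℕ, x + y ≤ 2 * X → 0 < q →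
      q ≤ 2 * X → Red (fun p => A p ω) q b →
      |psiR (RB z (fun p => A p ω)) x y q b - y / Nat.totient q| ≤
        (X : ℝ) ^ (1 / ((m : ℝ) + 1)) * Real.sqrt (1 + y / q) := fun m =>
    mont_ev hA hz (by positivity)
  filter_upwards [ae_all_iff.2 h1] with ω hω ε hε
  obtain ⟨m, hm⟩ := exists_nat_one_div_lt hε
  filter_upwards [hω m, eventually_ge_atTop 1] with X hX hX1 x y q b h2 h3 h4 h5
  refine (hX x y q b h2 h3 h4 h5).trans ?_
  have h6 : (1 : ℝ) ≤ X := by exact_mod_cast hX1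
  have h7 : (X : ℝ) ^ (1 / ((m : ℝ) + 1)) ≤ (X : ℝ) ^ ε :=
    Real.rpow_le_rpow_of_exponent_le h6 hm.le
  gcongr

/-- the form of the conjecture -/
theorem mont_Q1 {R : Set ℕ} {a : ℕ → ℕ} (h : ∀ ε : ℝ, 0 < ε → ∀ᶠ X : ℕ in atTop,
    ∀ x y q b : ℕ, x + y ≤ 2 * X → 0 < q → q ≤ 2 * X → Red a q b →
      |psiR R x y q b - y / Nat.totient q| ≤ (X : ℝ) ^ ε * Real.sqrt (1 + y / q)) {ε : ℝ}
    (hε : 0 < ε) : ∃ C : ℝ, ∀ x q b : ℕ, 2 ≤ x → 1 ≤ q → q ≤ x → Red a q b →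
      |psiR R 0 x q b - x / Nat.totient q| ≤ C * (x : ℝ) ^ (1 / 2 + ε) / (q : ℝ) ^ (1 / 2 : ℝ) := by
  classical
  obtain ⟨X0, hX0⟩ := eventually_atTop.1 (h ε hε)
  refine ⟨2 + (X0 * X0 + X0 : ℝ), fun x q b hx hq hqx hb => ?_⟩
  have hq0 : (0 : ℝ) < q := by exact_mod_cast hq
  have hx0 : (0 : ℝ) < x := by
    have : 0 < x := by omega
    exact_mod_cast this
  have hx1 : (1 : ℝ) ≤ x := by
    have : 1 ≤ x := by omega
    exact_mod_cast this
  have hqx' : (q : ℝ) ≤ x := by exact_mod_cast hqx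
  have hsq : 1 ≤ Real.sqrt (x / q) := by
    rw [Real.one_le_sqrt, le_div_iff₀ hq0, one_mul]; exact hqx'
  have hxe : 1 ≤ (x : ℝ) ^ ε := Real.one_le_rpow hx1 hε.le
  have e0 : (x : ℝ) ^ (1 / 2 + ε) / (q : ℝ) ^ (1 / 2 : ℝ) = (x : ℝ) ^ ε * Real.sqrt (x / q) := by
    rw [Real.rpow_add hx0, Real.sqrt_eq_rpow, Real.div_rpow hx0.le hq0.le]
    ring
  rw [mul_div_assoc, e0]
  have hprod : 1 ≤ (x : ℝ) ^ ε * Real.sqrt (x / q) := by nlinarith
  rcases le_or_gt X0 x with h1 | h1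
  · refine (hX0 x h1 0 x q b (by omega) (by omega) (by omega) hb).trans ?_
    have h2 : Real.sqrt (1 + x / q) ≤ 2 * Real.sqrt (x / q) := by
      rw [show (2 : ℝ) * Real.sqrt (x / q) = Real.sqrt (4 * (x / q)) by
        rw [Real.sqrt_mul (by norm_num)]
        rw [show (4 : ℝ) = 2 ^ 2 by norm_num, Real.sqrt_sq (by norm_num)]]
      refine Real.sqrt_le_sqrt ?_
      have : 1 ≤ (x : ℝ) / q := by rw [le_div_iff₀ hq0, one_mul]; exact hqx'
      linarith
    calc (x : ℝ) ^ ε * Real.sqrt (1 + x / q) ≤ (x : ℝ) ^ ε * (2 * Real.sqrt (x / q)) := by gcongr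
      _ = 2 * ((x : ℝ) ^ ε * Real.sqrt (x / q)) := by ring
      _ ≤ (2 + (X0 * X0 + X0 : ℝ)) * ((x : ℝ) ^ ε * Real.sqrt (x / q)) := by
        gcongr
        have : (0 : ℝ) ≤ X0 * X0 + X0 := by positivity
        linarith
  · have hxX : (x : ℝ) ≤ X0 := by exact_mod_cast h1.le
    have h2 : |psiR R 0 x q b| ≤ X0 * X0 := by
      unfold psiR
      rw [abs_of_nonneg (sum_nonneg fun n _ => Real.log_natCast_nonneg n)]
      calc ∑ n ∈ (Ioc 0 (0 + x)).filter (fun n => n ≡ b [MOD q] ∧ n ∈ R), Real.log n ≤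
          ∑ n ∈ (Ioc 0 (0 + x)).filter (fun n => n ≡ b [MOD q] ∧ n ∈ R), (x : ℝ) := by
            refine sum_le_sum fun n hn => ?_
            obtain ⟨h3, h4⟩ := mem_Ioc.1 (mem_filter.1 hn).1
            have h5 : (0 : ℝ) < n := by exact_mod_cast h3
            have h6 := Real.log_le_sub_one_of_pos h5
            have h7 : (n : ℝ) ≤ x := by
              have : n ≤ x := by omega
              exact_mod_cast this
            linarith
        _ ≤ ∑ n ∈ Ioc 0 (0 + x), (x : ℝ) :=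
            sum_le_sum_of_subset_of_nonneg (filter_subset _ _) fun _ _ _ => hx0.le
        _ = x * x := by rw [sum_const, Nat.card_Ioc, nsmul_eq_mul]; simp
        _ ≤ X0 * X0 := by gcongr
    have h3 : |(x : ℝ) / Nat.totient q| ≤ X0 := by
      have hφ : (1 : ℝ) ≤ Nat.totient q := by exact_mod_cast Nat.totient_pos.2 (by omega)
      rw [abs_of_nonneg (by positivity)]
      exact (div_le_self hx0.le hφ).trans hxX
    calc |psiR R 0 x q b - x / Nat.totient q| ≤ |psiR R 0 x q b| + |(x : ℝ) / Nat.totient q| :=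
          abs_sub _ _
      _ ≤ (2 + (X0 * X0 + X0 : ℝ)) * 1 := by linarith
      _ ≤ (2 + (X0 * X0 + X0 : ℝ)) * ((x : ℝ) ^ ε * Real.sqrt (x / q)) := by gcongr

end Pool.Agent.H532.SR
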