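import Mathlib
import Pool.Agent.H532.SR.MontQ

/-!
The square-root law for the number of elements in short intervals.
-/

namespace Pool.Agent.H532.SR

open Finset Filter MeasureTheory Function Pool.Agent.H532.RM
open scoped Topology ENNReal

/-- the number of elements of `R` in `(x, x + H]` -/
noncomputable def NC (R : Set ℕ) (x H : ℝ) : ℝ :=
  ({n : ℕ | n ∈ R ∧ x < n ∧ (n : ℝ) ≤ x + H}.ncard : ℝ)

lemma Vq_one (Z : ℕ) : Vq 1 Z = V Z := by
  unfold Vq V
  congr 1
  ext p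
  rw [mem_Qs, mem_primesLe]
  constructor
  · exact fun h => h.1
  · intro h
    refine ⟨h, fun h1 => ?_⟩
    have := h.2.two_le
    have := Nat.le_of_dvd one_pos h1
    omega

open Classical in
lemma NC_eq (R : Set ℕ) {x H : ℝ} (hx : 0 ≤ x) (hH : 0 ≤ H) :
    NC R x H = ∑ n ∈ Ioc ⌊x⌋₊ ⌊x + H⌋₊, if n ∈ R then (1 : ℝ) else 0 := by
  unfold NC
  have e : {n : ℕ | n ∈ R ∧ x < n ∧ (n : ℝ) ≤ x + H} =
      ((Ioc ⌊x⌋₊ ⌊x + H⌋₊).filter (fun n => n ∈ R) : Finset ℕ) := by
    ext n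
    simp only [Set.mem_ofPred_eq, coe_filter, mem_Ioc]
    constructor
    · rintro ⟨h1, h2, h3⟩
      exact ⟨⟨(Nat.floor_lt hx).2 h2, Nat.le_floor h3⟩, h1⟩
    · rintro ⟨⟨h1, h2⟩, h3⟩
      exact ⟨h3, (Nat.floor_lt hx).1 h1, (Nat.le_floor_iff (by linarith)).1 h2⟩
  rw [e, Set.ncard_coe_finset, ← sum_filter, sum_const, nsmul_eq_mul, mul_one]

open Classical in
/-- counts in intervals -/
theorem count_det {z : ℕ → ℕ} (hz : Rt z) {j : ℕ} {E : ℝ} (hE : 0 ≤ E)
    {a : ℕ → ℕ} (ha : ∀ p, p.Prime → a p < p)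
    (hdev : ∀ b D U : ℕ, b < 2 ^ (j + 3) → D < 2 ^ (j + 3) → U < 2 ^ (j + 3) →
      |dev (thr z) {0} (pl 1 (z (2 ^ (j + 3))) D).toList a b D U| ≤ E * Real.sqrt (1 + U))
    (m U : ℕ) (hmU : m + U < 2 ^ (j + 3)) :
    |∑ n ∈ Ioc m (m + U), (if n ∈ RB z a then (1 : ℝ) else 0) - ∑ n ∈ Ioc m (m + U), V (z n)| ≤
      E * Real.sqrt (1 + U) := by
  have hzt := hz.lim.tendsto
  set Z := z (2 ^ (j + 3)) with hZ
  rcases Nat.eq_zero_or_pos U with hU0 | hU0
  · subst hU0
    simp only [add_zero, Ioc_self, sum_empty, sub_self, abs_zero]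
    positivity
  have hre : ∀ f : ℕ → ℝ, ∑ n ∈ Ioc m (m + U), f n = ∑ t ∈ range U, f (m + 1 + 1 * t) := by
    intro f
    have h1 : Ioc m (m + U) = Ico (m + 1) (m + 1 + U) := by
      ext n; simp only [mem_Ioc, mem_Ico]; omega
    rw [h1, sum_Ico_eq_sum_range]
    have h2 : m + 1 + U - (m + 1) = U := by omega
    rw [h2]
    exact sum_congr rfl fun t _ => by rw [one_mul]
  rw [hre, hre, ← sum_sub_distrib]
  set v : ℕ → ℝ := fun t => Vq 1 (z (m + 1 + 1 * t)) with hv
  set e : ℕ → ℝ := fun t => XX (thr z) {0} (pl 1 Z 1).toList a (m + 1 + 1 * t) - 1 with he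
  have e1 : ∑ t ∈ range U, ((if m + 1 + 1 * t ∈ RB z a then (1 : ℝ) else 0) -
      V (z (m + 1 + 1 * t))) = ∑ t ∈ range U, v t * e t := by
    refine sum_congr rfl fun t ht => ?_
    have ht' := mem_range.1 ht
    have h9 : z (m + 1 + 1 * t) ≤ Z := hz.mono (by omega)
    have h10 := XX_zero hz.mono hzt 1 Z a _ h9
    have h11 : Red a 1 0 := fun p hp hp1 => by
      have := hp.two_le
      have := Nat.le_of_dvd one_pos hp1
      omega
    have h12 := mem_RB_iff (z := z) ha h11 (Nat.modEq_one : m + 1 + 1 * t ≡ 0 [MOD 1])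
    have h13 : (if m + 1 + 1 * t ∈ RB z a then (1 : ℝ) else 0) =
        v t * XX (thr z) {0} (pl 1 Z 1).toList a (m + 1 + 1 * t) := by
      simp only [hv]
      rw [h10]
      by_cases h14 : m + 1 + 1 * t ∈ RB z a
      · rw [if_pos h14, if_pos (h12.1 h14)]
      · rw [if_neg h14, if_neg (fun h15 => h14 (h12.2 h15))]
    rw [h13, ← Vq_one]
    simp only [hv, he]
    ring
  rw [e1]
  set B : ℝ := E * Real.sqrt (1 + U) with hB
  have hpart : ∀ U' ≤ U, |∑ t ∈ range U', e t| ≤ B := by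
    intro U' hU'
    have h8 := hdev (m + 1) 1 U' (by omega) (by
      have : 2 ^ 1 ≤ 2 ^ (j + 3) := Nat.pow_le_pow_right (by norm_num) (by omega)
      omega) (by omega)
    unfold dev at h8
    refine h8.trans ?_
    rw [hB]
    have : (U' : ℝ) ≤ U := by exact_mod_cast hU'
    gcongr
  have h8 := abel_anti U v e (fun t => by
    simp only [hv]
    exact Vq_anti 1 (hz.mono (by omega))) (fun t => (Vq_pos 1 _).le) B hpart
  refine h8.trans ?_
  have h9 : v 0 ≤ 1 := Vq_le_one 1 _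
  have hB0 : 0 ≤ B := by rw [hB]; positivity
  nlinarith

/-- the sum and the integral of `1 / log` -/
lemma sum_inv_log {x H : ℝ} (hx : Real.exp 1 + 1 ≤ x) (hH : 0 ≤ H) :
    |∑ n ∈ Ioc ⌊x⌋₊ ⌊x + H⌋₊, 1 / Real.log n - ∫ t in x..x + H, 1 / Real.log t| ≤ 2 := by
  set f : ℝ → ℝ := fun t => 1 / Real.log t with hf
  have he := Real.exp_pos 1
  have hlog : ∀ t : ℝ, Real.exp 1 ≤ t → 1 ≤ Real.log t := fun t ht => by
    rwa [Real.le_log_iff_exp_le (he.trans_le ht)]
  have hanti : AntitoneOn f (Set.Ici (Real.exp 1)) := by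
    intro s hs t ht hst
    simp only [hf]
    have h1 := hlog s hs
    have h2 : Real.log s ≤ Real.log t := Real.log_le_log (he.trans_le hs) hst
    exact one_div_le_one_div_of_le (by linarith) h2
  have hf01 : ∀ t : ℝ, Real.exp 1 ≤ t → 0 ≤ f t ∧ f t ≤ 1 := by
    intro t ht
    have h1 := hlog t ht
    simp only [hf]
    exact ⟨by positivity, by rw [div_le_one (by linarith)]; exact h1⟩
  have hint : ∀ s t : ℝ, Real.exp 1 ≤ s → s ≤ t → IntervalIntegrable f volume s t := by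
    intro s t hs hst
    refine AntitoneOn.intervalIntegrable ?_
    rw [Set.uIcc_of_le hst]
    exact hanti.mono fun u hu => hs.trans hu.1
  set m := ⌊x⌋₊ with hm
  have hx0 : 0 ≤ x := by linarith
  have hm1 : (m : ℝ) ≤ x := Nat.floor_le hx0
  have hm2 : x < m + 1 := Nat.lt_floor_add_one x
  have hm3 : Real.exp 1 ≤ m := by linarith
  obtain ⟨U, hU⟩ : ∃ U, ⌊x + H⌋₊ = m + U := ⟨⌊x + H⌋₊ - m, by
    have : m ≤ ⌊x + H⌋₊ := Nat.floor_mono (by linarith)
    omega⟩
  have hb1 : ((m + U : ℕ) : ℝ) ≤ x + H := by rw [← hU]; exact Nat.floor_le (by linarith)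
  have hb2 : x + H < ((m + U : ℕ) : ℝ) + 1 := by rw [← hU]; exact Nat.lt_floor_add_one _
  push_cast at hb1 hb2
  rw [hU]
  have hre : ∀ g : ℕ → ℝ, ∑ n ∈ Ioc m (m + U), g n = ∑ t ∈ range U, g (m + (t + 1)) := by
    intro g
    have h1 : Ioc m (m + U) = Ico (m + 1) (m + 1 + U) := by
      ext n; simp only [mem_Ioc, mem_Ico]; omega
    rw [h1, sum_Ico_eq_sum_range]
    have h2 : m + 1 + U - (m + 1) = U := by omega
    rw [h2]
    exact sum_congr rfl fun t _ => by congr 1; omega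
  have hantiI : AntitoneOn f (Set.Icc (m : ℝ) (m + U)) :=
    hanti.mono fun u hu => hm3.trans hu.1
  have h1 := hantiI.sum_le_integral
  have h2 := hantiI.integral_le_sum
  have e1 : ∑ n ∈ Ioc m (m + U), 1 / Real.log n = ∑ i ∈ range U, f (m + ((i + 1 : ℕ) : ℝ)) := by
    rw [hre]
    refine sum_congr rfl fun i _ => ?_
    simp only [hf]
    push_cast
    rfl
  have h3 : ∑ i ∈ range U, f (m + (i : ℕ)) ≤ ∑ i ∈ range U, f (m + ((i + 1 : ℕ) : ℝ)) + f m := by
    have h4 := sum_range_sub' (fun i : ℕ => f (m + (i : ℝ))) U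
    rw [sum_sub_distrib] at h4
    have h5 := (hf01 (m + (U : ℝ)) (by linarith [(Nat.cast_nonneg U : (0 : ℝ) ≤ U)])).1
    simp only [Nat.cast_zero, add_zero] at h4
    linarith
  set S := ∑ i ∈ range U, f (m + ((i + 1 : ℕ) : ℝ)) with hS
  have hU0 : (0 : ℝ) ≤ U := Nat.cast_nonneg U
  have h5 : |S - ∫ t in (m : ℝ)..(m + U), f t| ≤ 1 := by
    have h6 := (hf01 m hm3).2
    rw [abs_le]
    constructor <;> linarith
  have h6 : ∫ t in x..x + H, f t = (∫ t in (m : ℝ)..(m + U), f t) +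
      (∫ t in (m + U : ℝ)..(x + H), f t) - ∫ t in (m : ℝ)..x, f t := by
    have e2 := intervalIntegral.integral_add_adjacent_intervals (hint m x hm3 hm1)
      (hint x (x + H) (by linarith) (by linarith))
    have e3 := intervalIntegral.integral_add_adjacent_intervals (hint m (m + U) hm3 (by linarith))
      (hint (m + U) (x + H) (by linarith) hb1)
    linarith
  have h7 : ∀ s t : ℝ, Real.exp 1 ≤ s → s ≤ t → t ≤ s + 1 →
      0 ≤ (∫ u in s..t, f u) ∧ (∫ u in s..t, f u) ≤ 1 := by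
    intro s t hs hst hst1
    constructor
    · refine intervalIntegral.integral_nonneg hst fun u hu => (hf01 u (hs.trans hu.1)).1
    · calc (∫ u in s..t, f u) ≤ ∫ u in s..t, (1 : ℝ) :=
            intervalIntegral.integral_mono_on hst (hint s t hs hst) (by simp)
              fun u hu => (hf01 u (hs.trans hu.1)).2
        _ = t - s := by simp
        _ ≤ 1 := by linarith
  have h8 := h7 m x hm3 hm1 hm2.le
  have h9 := h7 (m + U) (x + H) (by linarith) hb1 hb2.le
  rw [e1, h6]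
  rw [abs_le] at h5 ⊢
  constructor <;> linarith

/-- **The square-root law in short intervals**, fixed `ε`. -/
theorem short_ev {Ω : Type} [MeasurableSpace Ω] {μ : Measure Ω} [IsProbabilityMeasure μ]
    {A : ℕ → Ω → ℕ} (hA : RandomClasses μ A) {z : ℕ → ℕ} (hz : Rt z) {ε : ℝ} (hε : 0 < ε) :
    ∀ᵐ ω ∂μ, ∀ᶠ X : ℝ in atTop, ∀ x H : ℝ, X ≤ x → x ≤ 2 * X → 1 ≤ H → H ≤ X →
      |NC (RB z (fun p => A p ω)) x H - ∫ t in x..x + H, 1 / Real.log t| ≤
        X ^ ε * Real.sqrt H := by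
  classical
  set ε' : ℝ := ε * Real.log 2 / 2 with hε'
  have hlog2 : 0 < Real.log 2 := Real.log_pos (by norm_num)
  have hε'0 : 0 < ε' := by rw [hε']; positivity
  obtain ⟨K, hK⟩ := hz.rate
  obtain ⟨n0, hn0⟩ := eventually_atTop.1 hK
  filter_upwards [ae_dev hA hz.lim (le_refl 1) hε'0 (thr z), ae_lt hA] with ω h1 h2
  have h3 : Tendsto (fun X : ℝ => Nat.log 2 ⌊X⌋₊) atTop atTop := by
    have h4 : Tendsto (fun X : ℕ => Nat.log 2 X) atTop atTop := by
      refine tendsto_atTop.2 fun B => ?_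
      filter_upwards [eventually_ge_atTop (2 ^ B)] with X hX
      exact Nat.le_log_of_pow_le (by norm_num) hX
    exact h4.comp tendsto_nat_floor_atTop
  have hexp : ∀ᶠ j : ℕ in atTop, 6 + 4 * |K| ≤ Real.exp (ε' * j) := by
    have : Tendsto (fun j : ℕ => Real.exp (ε' * j)) atTop atTop :=
      Real.tendsto_exp_atTop.comp (tendsto_natCast_atTop_atTop.const_mul_atTop hε'0)
    exact this.eventually_ge_atTop _
  filter_upwards [h3.eventually h1, h3.eventually hexp, eventually_ge_atTop (max (n0 : ℝ) 9)]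
    with X h4 h5 h6 x H hx1 hx2 hH1 hH2
  have hXn0 : (n0 : ℝ) ≤ X := (le_max_left _ _).trans h6
  have hX9 : 9 ≤ X := (le_max_right _ _).trans h6
  set N := ⌊X⌋₊ with hN
  set j := Nat.log 2 N with hj
  have hN1 : (N : ℝ) ≤ X := Nat.floor_le (by linarith)
  have hN2 : X < N + 1 := Nat.lt_floor_add_one X
  have hNpos : 9 ≤ N := Nat.le_floor (by exact_mod_cast hX9)
  have hX1 : 2 ^ j ≤ N := Nat.pow_log_le_self 2 (by omega)
  have hX2 : N < 2 ^ (j + 1) := Nat.lt_pow_succ_log_self (by norm_num) N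
  have h2j : 2 ^ (j + 3) = 4 * 2 ^ (j + 1) := by ring
  set m := ⌊x⌋₊ with hm
  have hx0 : 0 ≤ x := by linarith
  obtain ⟨U, hU⟩ : ∃ U, ⌊x + H⌋₊ = m + U := ⟨⌊x + H⌋₊ - m, by
    have : m ≤ ⌊x + H⌋₊ := Nat.floor_mono (by linarith)
    omega⟩
  have hm2 : x < m + 1 := Nat.lt_floor_add_one x
  have hm1 : (m : ℝ) ≤ x := Nat.floor_le hx0
  have hmU : ((m + U : ℕ) : ℝ) ≤ x + H := by rw [← hU]; exact Nat.floor_le (by linarith)
  have hmUlt : m + U < 2 ^ (j + 3) := by
    have h7 : ((m + U : ℕ) : ℝ) < ((3 * (N + 1) : ℕ) : ℝ) := by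
      push_cast at hmU ⊢
      linarith
    have h8 : m + U < 3 * (N + 1) := by exact_mod_cast h7
    omega
  have hUH : (U : ℝ) ≤ 2 * H := by
    push_cast at hmU
    linarith
  have h9 := count_det hz (Real.exp_nonneg (ε' * j)) h2 (fun b D U hb hD hU =>
    h4 {0} (by simp) (by intro i hi; rw [mem_singleton] at hi; subst hi; positivity)
      b D U hb hD hU) m U hmUlt
  have h10 : |∑ n ∈ Ioc m (m + U), V (z n) - ∑ n ∈ Ioc m (m + U), 1 / Real.log n| ≤
      4 * |K| * Real.sqrt H := by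
    rw [← sum_sub_distrib]
    refine (abs_sum_le_sum_abs _ _).trans ?_
    have h11 : ∀ n ∈ Ioc m (m + U), |V (z n) - 1 / Real.log n| ≤ |K| / Real.sqrt X := by
      intro n hn
      obtain ⟨h12, h13⟩ := mem_Ioc.1 hn
      have h14 : X ≤ n := by
        have : ((m + 1 : ℕ) : ℝ) ≤ n := by exact_mod_cast h12
        push_cast at this
        linarith
      have h15 : n0 ≤ n := by
        have : (n0 : ℝ) ≤ n := hXn0.trans h14
        exact_mod_cast this
      have h16 := hn0 n h15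
      have h17 : 1 ≤ Real.log n := by
        rw [Real.le_log_iff_exp_le (by linarith)]
        have := Real.exp_one_lt_d9
        linarith
      have h18 : V (z n) - 1 / Real.log n = (V (z n) * Real.log n - 1) / Real.log n := by
        field_simp
      rw [h18, abs_div, abs_of_pos (by linarith : 0 < Real.log n)]
      have hsX : 0 < Real.sqrt X := Real.sqrt_pos.2 (by linarith)
      calc |V (z n) * Real.log n - 1| / Real.log n ≤ |V (z n) * Real.log n - 1| :=
            div_le_self (abs_nonneg _) h17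
        _ ≤ K / Real.sqrt n := h16
        _ ≤ |K| / Real.sqrt n := by gcongr; exact le_abs_self K
        _ ≤ |K| / Real.sqrt X := by gcongr
    calc ∑ n ∈ Ioc m (m + U), |V (z n) - 1 / Real.log n| ≤
        ∑ n ∈ Ioc m (m + U), |K| / Real.sqrt X := sum_le_sum h11
      _ = U * (|K| / Real.sqrt X) := by
        rw [sum_const, Nat.card_Ioc, nsmul_eq_mul]
        congr 2
        omega
      _ ≤ 2 * H * (|K| / Real.sqrt X) := by gcongr
      _ ≤ 2 * H * (|K| / Real.sqrt H) := by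
        have : 0 < Real.sqrt H := Real.sqrt_pos.2 (by linarith)
        gcongr
      _ = 2 * |K| * (H / Real.sqrt H) := by ring
      _ = 2 * |K| * Real.sqrt H := by rw [Real.div_sqrt]
      _ ≤ 4 * |K| * Real.sqrt H := by
        have := abs_nonneg K
        gcongr
        norm_num
  have h11 := sum_inv_log (x := x) (H := H) (by
    have := Real.exp_one_lt_d9
    linarith) (by linarith)
  rw [hU] at h11
  rw [NC_eq _ hx0 (by linarith), hU]
  have hsH : 1 ≤ Real.sqrt H := by rw [Real.one_le_sqrt]; exact hH1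
  have h12 : Real.sqrt (1 + U) ≤ 2 * Real.sqrt H := by
    rw [show (2 : ℝ) * Real.sqrt H = Real.sqrt (4 * H) by
      rw [Real.sqrt_mul (by norm_num)]
      rw [show (4 : ℝ) = 2 ^ 2 by norm_num, Real.sqrt_sq (by norm_num)]]
    exact Real.sqrt_le_sqrt (by linarith)
  set E := Real.exp (ε' * j) with hE
  have hE0 : 0 ≤ E := Real.exp_nonneg _
  have h13 : E * E ≤ X ^ ε := by
    have h14 : E * E = ((2 : ℝ) ^ j) ^ ε := by
      rw [hE, ← Real.exp_add, Real.rpow_def_of_pos (by positivity), Real.log_pow, hε']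
      congr 1
      ring
    rw [h14]
    have h15 : ((2 : ℝ) ^ j) ≤ X := by
      have : ((2 ^ j : ℕ) : ℝ) ≤ N := by exact_mod_cast hX1
      push_cast at this
      linarith
    gcongr
  have hK0 := abs_nonneg K
  have h14 : |∑ n ∈ Ioc m (m + U), (if n ∈ RB z (fun p => A p ω) then (1 : ℝ) else 0) -
      ∫ t in x..x + H, 1 / Real.log t| ≤ E * Real.sqrt (1 + U) + 4 * |K| * Real.sqrt H + 2 := by
    have e1 : ∑ n ∈ Ioc m (m + U), (if n ∈ RB z (fun p => A p ω) then (1 : ℝ) else 0) -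
      ∫ t in x..x + H, 1 / Real.log t =
      (∑ n ∈ Ioc m (m + U), (if n ∈ RB z (fun p => A p ω) then (1 : ℝ) else 0) -
        ∑ n ∈ Ioc m (m + U), V (z n)) +
      (∑ n ∈ Ioc m (m + U), V (z n) - ∑ n ∈ Ioc m (m + U), 1 / Real.log n) +
      (∑ n ∈ Ioc m (m + U), 1 / Real.log n - ∫ t in x..x + H, 1 / Real.log t) := by ring
    rw [e1]
    refine (abs_add_le _ _).trans (add_le_add ((abs_add_le _ _).trans (add_le_add h9 h10)) h11)
  refine h14.trans ?_
  have hE1 : 1 ≤ E := by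
    have : (0 : ℝ) ≤ 6 + 4 * |K| := by positivity
    linarith
  calc E * Real.sqrt (1 + U) + 4 * |K| * Real.sqrt H + 2 ≤
      E * (2 * Real.sqrt H) + 4 * |K| * (E * Real.sqrt H) + 2 * (E * Real.sqrt H) := by
        have t1 : Real.sqrt H ≤ E * Real.sqrt H := le_mul_of_one_le_left (by positivity) hE1
        have t2 : 1 ≤ E * Real.sqrt H := by nlinarith
        gcongr
        linarith
    _ = (4 + 4 * |K|) * (E * Real.sqrt H) := by ring
    _ ≤ E * (E * Real.sqrt H) := by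
        gcongr
        linarith
    _ = (E * E) * Real.sqrt H := by ring
    _ ≤ X ^ ε * Real.sqrt H := by gcongr

end Pool.Agent.H532.SR
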