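import Mathlib
import Pool.Agent.H532.SR.Short
import Pool.Agent.H531.VR.GMn

/-!
Lower bounds for the deviations in short intervals, from the mean square (helper531).
-/

namespace Pool.Agent.H532.SR

open Finset Filter MeasureTheory Function ProbabilityTheory Pool.Agent.H532.RM
open scoped Topology ENNReal

/-- the model with independent classes for all indices -/
lemma model_of {Ω : Type} [MeasurableSpace Ω] {μ : Measure Ω} [IsProbabilityMeasure μ]
    {A : ℕ → Ω → ℕ} (hA : RandomClasses μ A) :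
    Pool.Agent.T2H32.BF.Model μ (fun p ω => if p.Prime then A p ω else 0) := by
  classical
  refine ⟨fun p => ?_, ?_, fun q hq r hr => ?_⟩
  · by_cases h : p.Prime
    · simp only [if_pos h]; exact hA.meas p
    · simp only [if_neg h]; exact measurable_const
  · rw [iIndepFun_iff_measure_inter_preimage_eq_mul]
    intro S sets hsets
    by_cases h : ∀ i ∈ S, ¬ i.Prime → (0 : ℕ) ∈ sets i
    · have hnp : ∀ i ∈ S, ¬ i.Prime →
          (fun ω => if i.Prime then A i ω else 0) ⁻¹' sets i = Set.univ := by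
        intro i hi hp
        ext ω
        simp only [Set.mem_preimage, if_neg hp, Set.mem_univ, iff_true]
        exact h i hi hp
      set T : Finset Nat.Primes := S.subtype Nat.Prime with hT
      have h1 := (iIndepFun_iff_measure_inter_preimage_eq_mul.1 hA.indep) T
        (sets := fun p => sets p) (fun i _ => by trivial)
      have e1 : ⋂ i ∈ S, (fun ω => if i.Prime then A i ω else 0) ⁻¹' sets i =
          ⋂ i ∈ T, (fun p : Nat.Primes => A p) i ⁻¹' sets i := by
        ext ω
        simp only [Set.mem_iInter, Set.mem_preimage]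
        constructor
        · intro h2 i hi
          have h3 : (i : ℕ) ∈ S := by
            exact (Finset.mem_subtype (p := Nat.Prime) (s := S)).1 hi
          have := h2 i h3
          rwa [if_pos i.2] at this
        · intro h2 i hi
          by_cases hp : i.Prime
          · rw [if_pos hp]
            exact h2 ⟨i, hp⟩ ((Finset.mem_subtype (p := Nat.Prime) (s := S)).2 hi)
          · rw [if_neg hp]; exact h i hi hp
      have e2 : ∏ i ∈ S, μ ((fun ω => if i.Prime then A i ω else 0) ⁻¹' sets i) =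
          ∏ i ∈ T, μ ((fun p : Nat.Primes => A p) i ⁻¹' sets i) := by
        rw [← prod_filter_mul_prod_filter_not S Nat.Prime]
        have e3 : ∏ i ∈ S.filter (fun i => ¬ i.Prime),
            μ ((fun ω => if i.Prime then A i ω else 0) ⁻¹' sets i) = 1 := by
          refine prod_eq_one fun i hi => ?_
          obtain ⟨h2, h3⟩ := mem_filter.1 hi
          rw [hnp i h2 h3, measure_univ]
        rw [e3, mul_one]
        have e4 := prod_subtype_eq_prod_filter (s := S) (p := Nat.Prime)
          (fun i => μ ((fun ω => if i.Prime then A i ω else 0) ⁻¹' sets i))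
        rw [← e4, hT]
        refine prod_congr rfl fun i _ => ?_
        congr 1
        ext ω
        simp only [Set.mem_preimage]
        have hi : (i : ℕ).Prime := i.2
        rw [if_pos hi]
      rw [e1, e2]
      exact h1
    · push Not at h
      obtain ⟨i, hi, hp, h0⟩ := h
      have e0 : (fun ω => if i.Prime then A i ω else 0) ⁻¹' sets i = ∅ := by
        ext ω
        simp only [Set.mem_preimage, if_neg hp, Set.mem_empty_iff_false, iff_false]
        exact h0
      rw [prod_eq_zero hi (by rw [e0, measure_empty])]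
      refine measure_mono_null (Set.iInter₂_subset i hi) ?_
      rw [e0, measure_empty]
  · have h1 := hA.unif q hq r hr
    simp only [if_pos hq]
    rw [measureReal_def, h1, ENNReal.toReal_inv, ENNReal.toReal_natCast, one_div]

lemma z0_eq {n : ℕ} (hn : 2 ≤ n) : Pool.Agent.T2H32.BF.z0 n = zBFT n := by
  unfold Pool.Agent.T2H32.BF.z0 zBFT
  congr 1
  ext m
  have hl : 0 < Real.log n := Real.log_pos (by exact_mod_cast (by omega : 1 < n))
  have e : Pool.Agent.T2H32.BF.V m = V m := rfl
  have hV := V_pos m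
  rw [Set.mem_ofPred_eq, Set.mem_ofPred_eq, e, inv_le_comm₀ hV hl, one_div]

lemma R_iff {a : ℕ → ℕ} (ha : ∀ p, p.Prime → a p < p) {n : ℕ} (hn : 3 ≤ n) :
    n ∈ Pool.Agent.T2H32.BF.R Pool.Agent.T2H32.BF.z0 (fun p => if p.Prime then a p else 0) ↔
      n ∈ RB zBFT a := by
  unfold Pool.Agent.T2H32.BF.R RB
  rw [Set.mem_ofPred_eq, Set.mem_ofPred_eq, z0_eq (by omega : 2 ≤ n)]
  constructor
  · rintro ⟨_, h⟩ p hp hpz h1
    have h2 : n % p ≠ a p := by
      have := h p hpz hp
      simpa only [if_pos hp] using this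
    have h3 : n % p = a p % p := h1
    rw [Nat.mod_eq_of_lt (ha p hp)] at h3
    exact h2 h3
  · intro h
    refine ⟨hn, fun p hpz hp h1 => ?_⟩
    have h3 : n % p = a p := by simpa only [if_pos hp] using h1
    refine h p hp hpz ?_
    show n % p = a p % p
    rw [h3, Nat.mod_eq_of_lt (ha p hp)]

open Classical in
/-- the closed interval with logarithmic weights against the half open interval -/
lemma psiI_comp {a : ℕ → ℕ} (ha : ∀ p, p.Prime → a p < p) {x H X : ℝ} (hX : 16 ≤ X)
    (hx1 : 3 / 2 * X ≤ x) (hx2 : x ≤ 2 * X) (hH : 1 ≤ H) (hHX : H ^ 2 ≤ X) :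
    |Pool.Agent.H531.VR.psiI (fun p => if p.Prime then a p else 0) x H - H -
      Real.log x * (NC (RB zBFT a) (x - H / 2) H -
        ∫ t in (x - H / 2)..(x - H / 2) + H, 1 / Real.log t)| ≤ Real.log (2 * X) + 3 := by
  set b : ℕ → ℕ := fun p => if p.Prime then a p else 0 with hb
  set y := x - H / 2 with hy
  have hHX' : H ≤ X / 4 := by nlinarith
  have hyX : X ≤ y := by rw [hy]; linarith
  have hy0 : 0 ≤ y := by linarith
  have hyH : y + H = x + H / 2 := by rw [hy]; ring
  have hyH2 : y + H ≤ 3 * X := by rw [hyH]; linarith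
  set L := Real.log x with hL
  have hxpos : 0 < x := by linarith
  have he := Real.exp_one_lt_d9
  have hL1 : 1 ≤ L := by
    rw [hL, Real.le_log_iff_exp_le hxpos]; linarith
  have hLX : L ≤ Real.log (2 * X) := Real.log_le_log hxpos hx2
  -- near
  have hnear : ∀ t : ℝ, y ≤ t → t ≤ y + H → |Real.log t - L| ≤ H / X := by
    intro t ht1 ht2
    have ht : 0 < t := by linarith
    have h1 : Real.log t - L ≤ t / x - 1 := by
      rw [hL, ← Real.log_div ht.ne' hxpos.ne']
      exact Real.log_le_sub_one_of_pos (by positivity)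
    have h2 : L - Real.log t ≤ x / t - 1 := by
      rw [hL, ← Real.log_div hxpos.ne' ht.ne']
      exact Real.log_le_sub_one_of_pos (by positivity)
    have h3 : t / x - 1 ≤ H / X := by
      rw [div_sub_one hxpos.ne', div_le_div_iff₀ hxpos (by linarith)]
      have : t - x ≤ H := by linarith
      nlinarith
    have h4 : x / t - 1 ≤ H / X := by
      rw [div_sub_one ht.ne', div_le_div_iff₀ ht (by linarith)]
      have : x - t ≤ H := by linarith
      nlinarith
    rw [abs_le]
    constructor <;> linarith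
  -- the counts
  have hNC := NC_eq (RB zBFT a) hy0 (by linarith : 0 ≤ H)
  set S := Ioc ⌊y⌋₊ ⌊y + H⌋₊ with hS
  have hSmem : ∀ n ∈ S, y ≤ n ∧ (n : ℝ) ≤ y + H := by
    intro n hn
    rw [hS, mem_Ioc] at hn
    exact ⟨((Nat.floor_lt hy0).1 hn.1).le, (Nat.le_floor_iff (by linarith)).1 hn.2⟩
  have hpsi : ∃ θ : ℝ, 0 ≤ θ ∧ θ ≤ Real.log (2 * X) ∧
      Pool.Agent.H531.VR.psiI b x H =
        ∑ n ∈ S, (if n ∈ RB zBFT a then Real.log n else 0) + θ := by
    have e1 : Pool.Agent.H531.VR.psiI b x H =
        ∑ n ∈ Icc ⌈y⌉₊ ⌊y + H⌋₊, (if n ∈ RB zBFT a then Real.log n else 0) := by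
      unfold Pool.Agent.H531.VR.psiI
      rw [hyH, hy, sum_filter]
      refine sum_congr rfl fun n hn => ?_
      have h1 := (mem_Icc.1 hn).1
      have h2 : (3 : ℝ) ≤ n := by
        have : y ≤ n := (Nat.ceil_le).1 h1
        linarith
      have h3 : 3 ≤ n := by exact_mod_cast h2
      have h4 := R_iff ha h3
      by_cases h5 : n ∈ RB zBFT a
      · rw [if_pos h5, if_pos (h4.2 h5)]
      · rw [if_neg h5, if_neg (fun h6 => h5 (h4.1 h6))]
    have hfl : ⌊y⌋₊ ≤ ⌈y⌉₊ := Nat.floor_le_ceil y
    have hfl2 : ⌈y⌉₊ ≤ ⌊y⌋₊ + 1 := Nat.ceil_le_floor_add_one y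
    rcases Nat.lt_or_ge ⌊y⌋₊ ⌈y⌉₊ with h | h
    · refine ⟨0, le_rfl, by linarith, ?_⟩
      rw [e1, add_zero]
      congr 1
      rw [hS]
      ext n
      rw [mem_Icc, mem_Ioc]
      omega
    · have h1 : ⌈y⌉₊ = ⌊y⌋₊ := le_antisymm h hfl
      have h2 : ⌊y⌋₊ ≤ ⌊y + H⌋₊ := Nat.floor_mono (by linarith)
      have h3 : Icc ⌈y⌉₊ ⌊y + H⌋₊ = insert ⌊y⌋₊ S := by
        rw [hS]
        ext n
        rw [mem_insert, mem_Icc, mem_Ioc]
        omega
      refine ⟨if ⌊y⌋₊ ∈ RB zBFT a then Real.log (⌊y⌋₊ : ℕ) else 0, ?_, ?_, ?_⟩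
      · split_ifs
        · exact Real.log_natCast_nonneg _
        · exact le_rfl
      · have h4 : (1 : ℝ) ≤ ⌊y⌋₊ := by
          have : 1 ≤ ⌊y⌋₊ := Nat.le_floor (by push_cast; linarith)
          exact_mod_cast this
        have h5 : Real.log (⌊y⌋₊ : ℕ) ≤ Real.log (2 * X) := by
          refine Real.log_le_log (by linarith) ?_
          have := Nat.floor_le hy0
          rw [hy] at this
          linarith
        split_ifs
        · exact h5
        · linarith
      · rw [e1, h3, sum_insert (by rw [hS, mem_Ioc]; omega)]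
        ring
  obtain ⟨θ, hθ0, hθ1, hpsi⟩ := hpsi
  have hcard : (S.card : ℝ) ≤ 2 * H := by
    have h1 : (S.card : ℝ) ≤ H + 1 := by
      rw [hS, Nat.card_Ioc]
      have h2 : ⌊y⌋₊ ≤ ⌊y + H⌋₊ := Nat.floor_mono (by linarith)
      rw [Nat.cast_sub h2]
      have h3 := Nat.floor_le (by linarith : 0 ≤ y + H)
      have h4 := Nat.lt_floor_add_one y
      linarith
    linarith
  have h1 : |∑ n ∈ S, (if n ∈ RB zBFT a then Real.log n else 0) -
      L * ∑ n ∈ S, (if n ∈ RB zBFT a then (1 : ℝ) else 0)| ≤ 2 := by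
    rw [mul_sum, ← sum_sub_distrib]
    refine (abs_sum_le_sum_abs _ _).trans ?_
    calc ∑ n ∈ S, |(if n ∈ RB zBFT a then Real.log n else 0) -
          L * (if n ∈ RB zBFT a then (1 : ℝ) else 0)| ≤ ∑ n ∈ S, H / X := by
          refine sum_le_sum fun n hn => ?_
          have h2 := hSmem n hn
          split_ifs
          · rw [mul_one]; exact hnear n h2.1 h2.2
          · rw [mul_zero, sub_zero, abs_zero]
            exact div_nonneg (by linarith) (by linarith)
      _ = S.card * (H / X) := by rw [sum_const, nsmul_eq_mul]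
      _ ≤ 2 * H * (H / X) := by
          have : 0 ≤ H / X := div_nonneg (by linarith) (by linarith)
          gcongr
      _ = 2 * (H ^ 2 / X) := by ring
      _ ≤ 2 * 1 := by
          have : H ^ 2 / X ≤ 1 := by rw [div_le_one (by linarith)]; exact hHX
          linarith
      _ = 2 := by norm_num
  have hlogt : ∀ t : ℝ, y ≤ t → 1 ≤ Real.log t := fun t ht => by
    rw [Real.le_log_iff_exp_le (by linarith)]; linarith
  have hint : IntervalIntegrable (fun t : ℝ => 1 / Real.log t) volume y (y + H) := by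
    refine AntitoneOn.intervalIntegrable ?_
    rw [Set.uIcc_of_le (by linarith)]
    intro s hs t ht hst
    have h2 := hlogt s hs.1
    exact one_div_le_one_div_of_le (by linarith)
      (Real.log_le_log (by linarith [hs.1]) hst)
  have h2 : |H - L * ∫ t in y..y + H, 1 / Real.log t| ≤ 1 := by
    have e1 : H - L * ∫ t in y..y + H, 1 / Real.log t =
        ∫ t in y..y + H, (1 - L * (1 / Real.log t)) := by
      rw [intervalIntegral.integral_sub (by simp) (hint.const_mul L),
        intervalIntegral.integral_const_mul]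
      simp
    rw [e1]
    have h3 : ∀ t ∈ Set.uIoc y (y + H), ‖1 - L * (1 / Real.log t)‖ ≤ H / X := by
      intro t ht
      rw [Set.uIoc_of_le (by linarith)] at ht
      have h4 := hlogt t ht.1.le
      rw [Real.norm_eq_abs]
      have e2 : 1 - L * (1 / Real.log t) = (Real.log t - L) / Real.log t := by
        field_simp
      rw [e2, abs_div, abs_of_pos (by linarith : 0 < Real.log t)]
      exact (div_le_self (abs_nonneg _) h4).trans (hnear t ht.1.le ht.2)
    have h4 := intervalIntegral.norm_integral_le_of_norm_le_const h3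
    rw [Real.norm_eq_abs] at h4
    refine h4.trans ?_
    rw [add_sub_cancel_left, abs_of_nonneg (by linarith : 0 ≤ H)]
    rw [div_mul_eq_mul_div, div_le_one (by linarith), ← sq]
    exact hHX
  rw [hNC, hpsi]
  have e3 : ∑ n ∈ S, (if n ∈ RB zBFT a then Real.log n else 0) + θ - H -
      L * (∑ n ∈ S, (if n ∈ RB zBFT a then (1 : ℝ) else 0) - ∫ t in y..y + H, 1 / Real.log t) =
      (∑ n ∈ S, (if n ∈ RB zBFT a then Real.log n else 0) -
        L * ∑ n ∈ S, (if n ∈ RB zBFT a then (1 : ℝ) else 0)) + θ -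
      (H - L * ∫ t in y..y + H, 1 / Real.log t) := by ring
  rw [e3]
  rw [abs_le] at h1 h2 ⊢
  constructor <;> linarith

/-- a large value of the deviation from the mean square -/
lemma big_value {b : ℕ → ℕ} {X H c ε : ℝ} (hX : 16 ≤ X) (hH1 : 1 ≤ H)
    (hHX : Real.log H ≤ (1 / 2 - ε) * Real.log X) (hε : 0 < ε)
    (hlarge : c + 17 / 2 ≤ ε * Real.log X)
    (hA : |1 / (3 / 2 * X) * (∫ x in (1 : ℝ)..(3 / 2 * X),
        (Pool.Agent.H531.VR.psiI b x H - H) ^ 2) -
      H * (Real.log (3 / 2 * X) - Real.log H - c)| ≤ 1 * H)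
    (hB : |1 / (2 * X) * (∫ x in (1 : ℝ)..(2 * X),
        (Pool.Agent.H531.VR.psiI b x H - H) ^ 2) -
      H * (Real.log (2 * X) - Real.log H - c)| ≤ 1 * H) :
    ∃ x, 3 / 2 * X ≤ x ∧ x ≤ 2 * X ∧
      2 / 5 * (H * Real.log X) < (Pool.Agent.H531.VR.psiI b x H - H) ^ 2 := by
  by_contra hno
  push Not at hno
  set G : ℝ → ℝ := fun x => (Pool.Agent.H531.VR.psiI b x H - H) ^ 2 with hG
  have hzn := Pool.Agent.T2H31.HV.T_Z.1
  have hX0 : (0 : ℝ) < X := by linarith
  set M := ⌊2 * X + H / 2⌋₊ with hM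
  have hint : ∀ A B : ℝ, 1 ≤ A → A ≤ B → B ≤ 2 * X → IntervalIntegrable G volume A B := by
    intro A B h1 h2 h3
    refine (Pool.Agent.H531.VR.sq_intervalIntegrable H A B M
      (Pool.Agent.H531.VR.wt M b)).congr ?_
    intro x hx
    rw [Set.uIoc_of_le h2] at hx
    simp only [hG]
    rw [Pool.Agent.H531.VR.psiI_eq hzn b (2 * X) H x (by linarith)
      ⟨h1.trans hx.1.le, hx.2.trans h3⟩]
  have e1 := intervalIntegral.integral_add_adjacent_intervals
    (hint 1 (3 / 2 * X) le_rfl (by linarith) (by linarith))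
    (hint (3 / 2 * X) (2 * X) (by linarith) (by linarith) le_rfl)
  have hup : ∫ x in (3 / 2 * X)..(2 * X), G x ≤ X / 2 * (2 / 5 * (H * Real.log X)) := by
    calc ∫ x in (3 / 2 * X)..(2 * X), G x ≤
        ∫ x in (3 / 2 * X)..(2 * X), (2 / 5 * (H * Real.log X)) :=
          intervalIntegral.integral_mono_on (by linarith)
            (hint (3 / 2 * X) (2 * X) (by linarith) (by linarith) le_rfl) (by simp)
            fun x hx => hno x hx.1 hx.2
      _ = (2 * X - 3 / 2 * X) * (2 / 5 * (H * Real.log X)) := by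
        rw [intervalIntegral.integral_const, smul_eq_mul]
      _ = X / 2 * (2 / 5 * (H * Real.log X)) := by ring
  set IA := ∫ x in (1 : ℝ)..(3 / 2 * X), G x with hIA
  set IB := ∫ x in (1 : ℝ)..(2 * X), G x with hIB
  have hlogX : 0 < Real.log X := Real.log_pos (by linarith)
  have l1 : Real.log (3 / 2 * X) ≤ Real.log X + 1 / 2 := by
    rw [Real.log_mul (by norm_num) hX0.ne']
    have := Real.log_le_sub_one_of_pos (by norm_num : (0 : ℝ) < 3 / 2)
    linarith
  have l2 : Real.log X ≤ Real.log (2 * X) := Real.log_le_log hX0 (by linarith)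
  rw [abs_le] at hA hB
  have hA2 : IA ≤ 3 / 2 * X * (H * (Real.log X + 1 / 2 - Real.log H - c) + H) := by
    have h1 : 1 / (3 / 2 * X) * IA ≤ H * (Real.log X + 1 / 2 - Real.log H - c) + H := by
      have h2 : H * (Real.log (3 / 2 * X) - Real.log H - c) ≤
          H * (Real.log X + 1 / 2 - Real.log H - c) :=
        mul_le_mul_of_nonneg_left (by linarith) (by linarith)
      linarith [hA.2]
    calc IA = 3 / 2 * X * (1 / (3 / 2 * X) * IA) := by field_simp
      _ ≤ _ := by gcongr
  have hB2 : 2 * X * (H * (Real.log X - Real.log H - c) - H) ≤ IB := by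
    have h1 : H * (Real.log X - Real.log H - c) - H ≤ 1 / (2 * X) * IB := by
      have h2 : H * (Real.log X - Real.log H - c) ≤
          H * (Real.log (2 * X) - Real.log H - c) :=
        mul_le_mul_of_nonneg_left (by linarith) (by linarith)
      linarith [hB.1]
    calc 2 * X * (H * (Real.log X - Real.log H - c) - H) ≤ 2 * X * (1 / (2 * X) * IB) := by gcongr
      _ = IB := by field_simp
  have hlow : X * H * (1 / 2 * (Real.log X - Real.log H) - c / 2 - 17 / 4) ≤
      X / 2 * (2 / 5 * (H * Real.log X)) := by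
    have : X * H * (1 / 2 * (Real.log X - Real.log H) - c / 2 - 17 / 4) =
        2 * X * (H * (Real.log X - Real.log H - c) - H) -
        3 / 2 * X * (H * (Real.log X + 1 / 2 - Real.log H - c) + H) := by ring
    rw [this]
    linarith
  have hXH : 0 < X * H := by positivity
  have hlow2 : 1 / 2 * (Real.log X - Real.log H) - c / 2 - 17 / 4 ≤ 1 / 5 * Real.log X := by
    have : X / 2 * (2 / 5 * (H * Real.log X)) = X * H * (1 / 5 * Real.log X) := by ring
    rw [this] at hlow
    exact le_of_mul_le_mul_left hlow hXH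
  nlinarith

/-- **Lower bound for the deviations in short intervals.** -/
theorem low_ev {Ω : Type} [MeasurableSpace Ω] {μ : Measure Ω} [IsProbabilityMeasure μ]
    {A : ℕ → Ω → ℕ} (hA : RandomClasses μ A) :
    ∀ᵐ ω ∂μ, ∀ ε : ℝ, 0 < ε → ∀ᶠ X : ℝ in atTop, ∀ H : ℝ, X ^ ε < H → H < X ^ (1 / 2 - ε) →
      ∃ x, X ≤ x ∧ x ≤ 2 * X ∧ 1 / 2 * Real.sqrt (H / Real.log X) ≤
        |NC (RB zBFT (fun p => A p ω)) x H - ∫ t in x..x + H, 1 / Real.log t| := by
  filter_upwards [Pool.Agent.H531.VR.main_GM Ω μ _ (model_of hA), ae_lt hA] with ω h1 h2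
  intro ε hε
  rcases le_or_gt (1 / 4) ε with hε4 | hε4
  · filter_upwards [eventually_ge_atTop 1] with X hX H hH1 hH2
    have h3 : X ^ (1 / 2 - ε) ≤ X ^ ε := Real.rpow_le_rpow_of_exponent_le hX (by linarith)
    linarith
  set b : ℕ → ℕ := fun q => if q.Prime then A q ω else 0 with hb
  set c : ℝ := Real.eulerMascheroniConstant + Real.log (2 * Real.pi) with hc
  have h3 := h1 (ε / 2) 1 (by linarith) one_pos
  have hm1 : Tendsto (fun X : ℝ => 3 / 2 * X) atTop atTop :=
    tendsto_id.const_mul_atTop (by norm_num)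
  have hm2 : Tendsto (fun X : ℝ => 2 * X) atTop atTop :=
    tendsto_id.const_mul_atTop (by norm_num)
  have hl1 : ∀ᶠ X : ℝ in atTop, c + 17 / 2 ≤ ε * Real.log X :=
    (Real.tendsto_log_atTop.const_mul_atTop hε).eventually_ge_atTop _
  have hl2 : ∀ᶠ X : ℝ in atTop, 60 ≤ Real.log X :=
    Real.tendsto_log_atTop.eventually_ge_atTop _
  have hl3 : ∀ᶠ X : ℝ in atTop, 900 * Real.log X ≤ X ^ ε := by
    have h4 := (isLittleO_log_rpow_atTop hε).bound (by norm_num : (0 : ℝ) < 1 / 900)
    filter_upwards [h4, eventually_ge_atTop 1] with X h5 h6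
    rw [Real.norm_eq_abs, Real.norm_eq_abs, abs_of_nonneg (Real.log_nonneg h6),
      abs_of_nonneg (Real.rpow_nonneg (by linarith) _)] at h5
    linarith
  filter_upwards [hm1.eventually h3, hm2.eventually h3, hl1, hl2, hl3, eventually_ge_atTop 16]
    with X hA' hB' hl1 hl2 hl3 hX H hH1 hH2
  have hX0 : (0 : ℝ) < X := by linarith
  have hXε : (1 : ℝ) ≤ X ^ ε := Real.one_le_rpow (by linarith) hε.le
  have hH : 1 ≤ H := by linarith
  have hHX : H ^ 2 ≤ X := by
    have h4 : H ^ 2 ≤ (X ^ (1 / 2 - ε)) ^ 2 := by gcongr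
    refine h4.trans ?_
    rw [← Real.rpow_natCast, ← Real.rpow_mul hX0.le]
    calc X ^ ((1 / 2 - ε) * ((2 : ℕ) : ℝ)) ≤ X ^ (1 : ℝ) :=
          Real.rpow_le_rpow_of_exponent_le (by linarith) (by push_cast; linarith)
      _ = X := Real.rpow_one X
  have hlogH : Real.log H ≤ (1 / 2 - ε) * Real.log X := by
    rw [← Real.log_rpow hX0]
    exact Real.log_le_log (by linarith) hH2.le
  have hrange : ∀ Y : ℝ, X ≤ Y → Y ≤ 2 * X → Y ^ (ε / 2) < H ∧ H < Y ^ (1 / 2 - ε / 2) := by
    intro Y hY1 hY2
    constructor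
    · refine lt_of_le_of_lt ?_ hH1
      calc Y ^ (ε / 2) ≤ (X ^ (2 : ℝ)) ^ (ε / 2) := by
            refine Real.rpow_le_rpow (by linarith) ?_ (by linarith)
            rw [Real.rpow_two]
            nlinarith
        _ = X ^ ε := by
            rw [← Real.rpow_mul hX0.le]
            congr 1
            ring
    · refine lt_of_lt_of_le hH2 ?_
      calc X ^ (1 / 2 - ε) ≤ X ^ (1 / 2 - ε / 2) :=
            Real.rpow_le_rpow_of_exponent_le (by linarith) (by linarith)
        _ ≤ Y ^ (1 / 2 - ε / 2) := Real.rpow_le_rpow hX0.le hY1 (by linarith)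
  have r1 := hrange (3 / 2 * X) (by linarith) (by linarith)
  have r2 := hrange (2 * X) (by linarith) le_rfl
  obtain ⟨x, hx1, hx2, hx3⟩ := big_value (b := b) hX hH hlogH hε hl1
    (hA' H r1.1 r1.2) (hB' H r2.1 r2.2)
  have h4 := psiI_comp h2 hX hx1 hx2 hH hHX
  refine ⟨x - H / 2, by nlinarith, by linarith, ?_⟩
  set y := x - H / 2 with hy
  set D := NC (RB zBFT (fun p => A p ω)) y H - ∫ t in y..y + H, 1 / Real.log t with hD
  set P := Pool.Agent.H531.VR.psiI b x H - H with hP
  have hxpos : 0 < x := by linarith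
  have hlogX : 0 < Real.log X := by linarith
  have hLX : Real.log x ≤ Real.log (2 * X) := Real.log_le_log hxpos hx2
  have hL0 : 0 ≤ Real.log x := Real.log_nonneg (by linarith)
  have hL2 : Real.log (2 * X) ≤ Real.log X + 1 := by
    rw [Real.log_mul (by norm_num) hX0.ne']
    have := Real.log_le_sub_one_of_pos (by norm_num : (0 : ℝ) < 2)
    linarith
  set s := Real.sqrt (H * Real.log X) with hs
  have hs0 : 0 ≤ s := Real.sqrt_nonneg _
  have hs2 : s ^ 2 = H * Real.log X := Real.sq_sqrt (by positivity)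
  have hsbig : 30 * Real.log X ≤ s := by
    rw [hs]
    apply Real.le_sqrt_of_sq_le
    nlinarith
  have hPabs : 3 / 5 * s ≤ |P| := by
    by_contra h
    push Not at h
    have h5 : |P| ^ 2 < (3 / 5 * s) ^ 2 := pow_lt_pow_left₀ h (abs_nonneg _) (by norm_num)
    rw [sq_abs] at h5
    nlinarith
  have h6 : |P| ≤ Real.log x * |D| + (Real.log (2 * X) + 3) := by
    have e1 : P = Real.log x * D + (P - Real.log x * D) := by ring
    calc |P| = |Real.log x * D + (P - Real.log x * D)| := by rw [← e1]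
      _ ≤ |Real.log x * D| + |P - Real.log x * D| := abs_add_le _ _
      _ ≤ Real.log x * |D| + (Real.log (2 * X) + 3) := by
        rw [abs_mul, abs_of_nonneg hL0]
        linarith
  have hsq : Real.sqrt (H / Real.log X) = s / Real.log X := by
    have e1 : H / Real.log X = H * Real.log X / Real.log X ^ 2 := by
      field_simp
    rw [e1, Real.sqrt_div' _ (by positivity), Real.sqrt_sq hlogX.le]
  rw [hsq]
  by_contra hcon
  push Not at hcon
  set l := Real.log X with hl
  have hD0 : 0 ≤ |D| := abs_nonneg D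
  have h7 : |D| * (2 * l) < s := by
    have h8 : 1 / 2 * (s / l) = s / (2 * l) := by
      field_simp
    rw [h8, lt_div_iff₀ (by positivity)] at hcon
    exact hcon
  have h8 : |P| ≤ (l + 1) * |D| + (l + 4) := by
    refine h6.trans ?_
    have h9 : Real.log x ≤ l + 1 := by linarith
    have h10 : Real.log x * |D| ≤ (l + 1) * |D| := by gcongr
    linarith
  have h9 : |D| * 120 ≤ s := by
    have : |D| * 120 ≤ |D| * (2 * l) := by gcongr; linarith
    linarith
  nlinarith

end Pool.Agent.H532.SR
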