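import Mathlib
import Pool.Agent.H532.RM.CSC
import Pool.Agent.H532.RM.ThmB2
import Pool.Agent.H532.RM.Thr

/-!
One formula for the extremes in all intervals of length at least `δ (log X)²`.
-/

namespace Pool.Agent.H532.SR

open Finset Filter MeasureTheory Function Pool.Agent.H532.RM
open scoped Topology ENNReal

lemma upE_close {lam r C : ℝ} (hl : 0 < lam) (hr : 0 < r) (hC : r ≤ C) :
    upE lam r ≤ r + 2 * Real.sqrt (C / lam) + 1 / lam := by
  have h1 := upE_mem hl hr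
  have h2 := r_le_upE hl hr
  set K := upE lam r with hK
  have hK0 : 0 ≤ K := hr.le.trans h2
  have h3 := rate_ge hK0 hr
  have h4 : (Real.sqrt K - Real.sqrt r) ^ 2 ≤ 1 / lam := by
    rw [le_div_iff₀ hl]; nlinarith
  have h5 : Real.sqrt r ≤ Real.sqrt K := Real.sqrt_le_sqrt h2
  set s := Real.sqrt (1 / lam) with hs
  have hs0 : 0 ≤ s := Real.sqrt_nonneg _
  have hs2 : s ^ 2 = 1 / lam := Real.sq_sqrt (by positivity)
  have h6 : Real.sqrt K - Real.sqrt r ≤ s := by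
    rw [← hs2] at h4
    exact (abs_le_of_sq_le_sq h4 hs0).trans' (le_abs_self _)
  have h7 : Real.sqrt K ^ 2 = K := Real.sq_sqrt hK0
  have h8 : Real.sqrt r ^ 2 = r := Real.sq_sqrt hr.le
  have h9 : Real.sqrt (C / lam) = Real.sqrt C * s := by
    rw [hs, ← Real.sqrt_mul (by linarith)]
    congr 1
    ring
  have h10 : Real.sqrt r ≤ Real.sqrt C := Real.sqrt_le_sqrt hC
  have h11 : K ≤ (Real.sqrt r + s) ^ 2 := by
    rw [← h7]
    have : 0 ≤ Real.sqrt K := Real.sqrt_nonneg _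
    gcongr
    linarith
  calc K ≤ (Real.sqrt r + s) ^ 2 := h11
    _ = Real.sqrt r ^ 2 + 2 * (Real.sqrt r * s) + s ^ 2 := by ring
    _ ≤ r + 2 * (Real.sqrt C * s) + 1 / lam := by
      rw [h8, hs2]
      gcongr
    _ = _ := by rw [h9]

lemma loE_close {lam r C : ℝ} (hl : 0 < lam) (hr : 0 ≤ r) (hC : r ≤ C) :
    r ≤ loE lam r + 2 * Real.sqrt (C / lam) + 1 / lam := by
  rcases hr.eq_or_lt with h0 | h0
  · rw [← h0]
    have := loE_nonneg lam 0
    positivity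
  have h1 := loE_mem (lam := lam) hr
  have h2 := loE_le_r (lam := lam) hr
  have hK0 := loE_nonneg lam r
  set K := loE lam r with hK
  have h3 := rate_ge hK0 h0
  have h4 : (Real.sqrt K - Real.sqrt r) ^ 2 ≤ 1 / lam := by
    rw [le_div_iff₀ hl]; nlinarith
  set s := Real.sqrt (1 / lam) with hs
  have hs0 : 0 ≤ s := Real.sqrt_nonneg _
  have hs2 : s ^ 2 = 1 / lam := Real.sq_sqrt (by positivity)
  have h6 : Real.sqrt r - Real.sqrt K ≤ s := by
    rw [← hs2] at h4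
    have := abs_le_of_sq_le_sq h4 hs0
    rw [abs_le] at this
    linarith
  have h7 : Real.sqrt K ^ 2 = K := Real.sq_sqrt hK0
  have h8 : Real.sqrt r ^ 2 = r := Real.sq_sqrt hr
  have h9 : Real.sqrt (C / lam) = Real.sqrt C * s := by
    rw [hs, ← Real.sqrt_mul (by linarith)]
    congr 1
    ring
  have h10 : Real.sqrt K ≤ Real.sqrt C := Real.sqrt_le_sqrt (h2.trans hC)
  have h11 : r ≤ (Real.sqrt K + s) ^ 2 := by
    rw [← h8]
    have : 0 ≤ Real.sqrt r := Real.sqrt_nonneg _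
    gcongr
    linarith
  calc r ≤ (Real.sqrt K + s) ^ 2 := h11
    _ = Real.sqrt K ^ 2 + 2 * (Real.sqrt K * s) + s ^ 2 := by ring
    _ ≤ K + 2 * (Real.sqrt C * s) + 1 / lam := by
      rw [h7, hs2]
      gcongr
    _ = _ := by rw [h9]

/-- one formula for `δ (log X)² ≤ H ≤ X` -/
theorem uni (δ : ℝ) (hδ : 0 < δ) {Ω : Type} [MeasurableSpace Ω] (μ : Measure Ω)
    [IsProbabilityMeasure μ] (A : ℕ → Ω → ℕ) (hA : RandomClasses μ A) (z : ℕ → ℕ)
    (hzm : Monotone z) (hz : Tendsto (fun n : ℕ => V (z n) * Real.log n) atTop (𝓝 1)) :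
    ∀ᵐ ω ∂μ, ∀ᶠ X : ℝ in atTop, ∀ H : ℝ, δ * Real.log X ^ 2 ≤ H → H ≤ X →
      (∀ x : ℝ, X ≤ x → x ≤ 2 * X →
        loE (H / Real.log X ^ 2) (rm ⌊H⌋₊ ⌊Real.log X⌋₊) - δ ≤
          FF (RB z (fun p => A p ω)) x H ∧
        FF (RB z (fun p => A p ω)) x H ≤
          upE (H / Real.log X ^ 2) (rp ⌊H⌋₊ ⌊Real.log X⌋₊) + δ) ∧
      (∃ x : ℝ, X ≤ x ∧ x ≤ 2 * X ∧
        upE (H / Real.log X ^ 2) (rp ⌊H⌋₊ ⌊Real.log X⌋₊) - δ ≤
          FF (RB z (fun p => A p ω)) x H) ∧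
      (∃ x : ℝ, X ≤ x ∧ x ≤ 2 * X ∧
        FF (RB z (fun p => A p ω)) x H ≤
          loE (H / Real.log X ^ 2) (rm ⌊H⌋₊ ⌊Real.log X⌋₊) + δ) := by
  obtain ⟨C, hC, ζ0, hrp⟩ := rp_bdd
  obtain ⟨K, hK⟩ := rp_to_one (1 / 2) (by norm_num)
  obtain ⟨c, hc, _, hmaier⟩ := maier K
  obtain ⟨ζ1, hζ1⟩ := eventually_atTop.1 hK
  obtain ⟨ζ2, hζ2⟩ := eventually_atTop.1 hmaier
  obtain ⟨Λ, hΛ1, hB⟩ := thmB (δ / 2) (by positivity)
  -- the precision for large `λ`
  obtain ⟨Λ2, hΛ2⟩ : ∃ Λ2 : ℝ, 1 ≤ Λ2 ∧ 2 * Real.sqrt (C / Λ2) + 1 / Λ2 ≤ δ / 2 := by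
    have h1 : Tendsto (fun l : ℝ => 2 * Real.sqrt (C / l) + 1 / l) atTop (𝓝 (2 * Real.sqrt 0 + 0)) := by
      refine Tendsto.add ?_ ?_
      · refine ((Real.continuous_sqrt.tendsto 0).comp ?_).const_mul 2
        exact tendsto_const_nhds.div_atTop tendsto_id
      · exact tendsto_const_nhds.div_atTop tendsto_id
    rw [Real.sqrt_zero, mul_zero, add_zero] at h1
    obtain ⟨l, h2, h3⟩ := ((h1.eventually (gt_mem_nhds (show 0 < δ / 2 by positivity))).and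
      (eventually_ge_atTop 1)).exists
    exact ⟨l, h3, h2.le⟩
  set Λ' : ℝ := max Λ Λ2 with hΛ'
  have hΛ'1 : 1 ≤ Λ' := hΛ1.trans (le_max_left _ _)
  have hΛ'0 : 0 < Λ' := by linarith
  set δ3 : ℝ := min δ (1 / Λ') with hδ3
  have hδ30 : 0 < δ3 := lt_min hδ (by positivity)
  have hδ3δ : δ3 ≤ δ := min_le_left _ _
  have hδ3Λ : Λ' ≤ 1 / δ3 := by
    rw [le_div_iff₀ hδ30]
    calc Λ' * δ3 ≤ Λ' * (1 / Λ') := by gcongr; exact min_le_right _ _
      _ = 1 := by field_simp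
  filter_upwards [hB μ A hA z hzm hz, csA δ3 hδ30 μ A hA z hzm hz] with ω h1 h2
  have hfl : Tendsto (fun X : ℝ => ⌊Real.log X⌋₊) atTop atTop :=
    tendsto_nat_floor_atTop.comp Real.tendsto_log_atTop
  filter_upwards [h1, h2, hfl.eventually_ge_atTop (max ζ0 (max ζ1 ζ2)),
    Real.tendsto_log_atTop.eventually_ge_atTop 1] with X g1 g2 g3 g4 H hH1 hH2
  have hL0 : 0 < Real.log X := by linarith
  rcases le_or_gt H (Λ' * Real.log X ^ 2) with h | h
  · -- the critical scale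
    obtain ⟨k1, k2, k3⟩ := g2 H (le_trans (by gcongr) hH1) (h.trans (by gcongr))
    refine ⟨fun x hx1 hx2 => ?_, ?_, ?_⟩
    · obtain ⟨k4, k5⟩ := k1 x hx1 hx2
      constructor <;> linarith
    · obtain ⟨x, hx1, hx2, hx3⟩ := k2
      exact ⟨x, hx1, hx2, by linarith⟩
    · obtain ⟨x, hx1, hx2, hx3⟩ := k3
      exact ⟨x, hx1, hx2, by linarith⟩
  · -- long intervals
    have hΛH : Λ * Real.log X ^ 2 ≤ H := by
      have : Λ * Real.log X ^ 2 ≤ Λ' * Real.log X ^ 2 := by gcongr; exact le_max_left _ _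
      linarith
    obtain ⟨k1, k2, k3⟩ := g1 H hΛH hH2
    set lam : ℝ := H / Real.log X ^ 2 with hlam
    have hlamΛ : Λ2 ≤ lam := by
      rw [hlam, le_div_iff₀ (by positivity)]
      have : Λ2 * Real.log X ^ 2 ≤ Λ' * Real.log X ^ 2 := by gcongr; exact le_max_right _ _
      linarith
    have hlam0 : 0 < lam := by linarith [hΛ2.1]
    set ζ := ⌊Real.log X⌋₊ with hζ
    set U := ⌊H⌋₊ with hU
    have hζX : (ζ : ℝ) ≤ Real.log X := Nat.floor_le hL0.le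
    have hζH : (ζ : ℝ) ≤ H := by
      have : Real.log X ≤ 1 * Real.log X ^ 2 := by nlinarith
      have : 1 * Real.log X ^ 2 ≤ Λ * Real.log X ^ 2 := by gcongr
      linarith
    have hζU : ζ ≤ U := Nat.le_floor hζH
    have hH1' : 1 ≤ H := by
      have : 1 * Real.log X ^ 2 ≤ Λ * Real.log X ^ 2 := by gcongr
      nlinarith
    have hU1 : 1 ≤ U := Nat.le_floor (by exact_mod_cast hH1')
    have hζ0 : ζ0 ≤ ζ := (le_max_left _ _).trans g3
    have hζ1' : ζ1 ≤ ζ := ((le_max_left _ _).trans (le_max_right _ _)).trans g3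
    have hζ2' : ζ2 ≤ ζ := ((le_max_right _ _).trans (le_max_right _ _)).trans g3
    have hrC := hrp ζ hζ0 U (by omega) (by nlinarith)
    have hr0 : 0 < rp U ζ := by
      rcases le_total (ζ ^ K) U with h3 | h3
      · have := (abs_le.1 (hζ1 ζ hζ1' U h3).1).1
        linarith
      · have := (hζ2 ζ hζ2' U hU1 (by
          rw [Real.rpow_natCast]
          exact_mod_cast h3)).1
        linarith
    have hm0 := rm_nonneg U ζ
    have hmC : rm U ζ ≤ C := (rm_le_rp U ζ).trans hrC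
    have hprec : 2 * Real.sqrt (C / lam) + 1 / lam ≤ δ / 2 := by
      refine le_trans ?_ hΛ2.2
      have hΛ20 : 0 < Λ2 := by linarith [hΛ2.1]
      gcongr
    have e1 := upE_close hlam0 hr0 hrC
    have e2 := r_le_upE hlam0 hr0
    have e3 := loE_close hlam0 hm0 hmC
    have e4 := loE_le_r (lam := lam) hm0
    refine ⟨fun x hx1 hx2 => ?_, ?_, ?_⟩
    · obtain ⟨k4, k5⟩ := k1 x hx1 hx2
      constructor <;> linarith
    · obtain ⟨x, hx1, hx2, hx3⟩ := k2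
      exact ⟨x, hx1, hx2, by linarith⟩
    · obtain ⟨x, hx1, hx2, hx3⟩ := k3
      exact ⟨x, hx1, hx2, by linarith⟩

end Pool.Agent.H532.SR
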